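import Pool.Agent.Helper14.TH7.LB
import Pool.Agent.Helper76.TH7.Ub7
import Pool.Agent.Helper93.TLH.Asm7

/-!
# Project TH: the cores for levels `2·7^n` and the central values of weight two
-/

set_option autoImplicit false

namespace Pool.Agent.Helper14.TH7

open Pool.Agent.Helper14.CV (G0 RootOne Lan)
open Pool.Agent.Helper28.TL (IsNewN)
open Pool.Agent.Helper28.TH (ALPlus)
open Pool.Agent.Helper93.TLH

/-- The core for levels `2·7^n`, `n ≥ 3`. -/
theorem coreH7 : CoreH 7 := core7H _ Pool.Agent.Helper76.TH7.ubh7 lbH7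

/-- The core for level `98`. -/
theorem coreV72 : CoreV 7 2 := core72H _ lbH7

/-- Weight `2`, levels `2·7^n`, `n ≥ 0`, `f | W_2 = f`. -/
theorem valH7 (n : ℕ) [NeZero (2 * 7 ^ n)] (f : CuspForm (G0 (2 * 7 ^ n)) 2)
    (hf : IsNewN f) (hal : ALPlus 2 (7 ^ n) f) (hR : RootOne f) : Lan f (1 / 2) ≠ 0 :=
  lvalH7 _ Pool.Agent.Helper76.TH7.ubh7 lbH7 n f hf hal hR

end Pool.Agent.Helper14.TH7
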