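import Pool.Agent.Helper14.TH7.StD
import Pool.Agent.Helper93.TLH.GenN

/-!
# Project TH7: the row of a Hecke operator from a check

Model: `Pool/Agent/Helper4/TH/M_Hk.lean`.
-/

set_option autoImplicit false
set_option maxRecDepth 100000

namespace Pool.Agent.Helper14.TH7

open Pool.Agent.Helper14.CV (Homog EqC act Tl StFar StFex)
open Pool.Agent.Helper4.S7 (Tm mulL sclL Gd pj S7Pj)
open Pool.Agent.Helper76.TH7 (PlH rYH edgeH HPlA7 HEdg7 ddH7)
open Pool.Agent.Helper84.S7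
open Pool.Agent.Helper93.TLH (HTy SymH ChkN row_of_chkN B4)

private theorem opL_apply7 (L : List Tm) {q q' : ℕ} (F : Fn7 q q') (x : ZMod q) (y : ZMod q') :
    opL L F x y = (L.map fun t => t.1 • tr7 t.2.1 t.2.2.1 t.2.2.2.1 t.2.2.2.2 F x y).sum := by
  induction L with
  | nil => simp [opL]
  | cons t L ih =>
    have e : opL (t :: L) F x y = (((t.1 : ℤ) : ZMod 7) • op7 t.2.1 t.2.2.1 t.2.2.2.1 t.2.2.2.2) F x y +
        opL L F x y := by
      simp [opL]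
    rw [e, ih, List.map_cons, List.sum_cons, zsmul_eq_mul]
    rfl

/-- The list of the terms with their basic paths -/
def TT3 (L0 L1 L2 : List Tm) : List (B4 × Tm) :=
  (L0.map fun t => ((1, 0, 0, 1), t)) ++ (L1.map fun t => ((1, 2, 0, 1), t)) ++
    (L2.map fun t => ((1, 4, 0, 1), t))

/-- One row. -/
theorem row7 (hf : THkF) (ht : TTre) (hm : S7Trm) (l : ℕ) (hl : l.Prime) (hl7 : l ≠ 7)
    (hl2 : l ≠ 2) (J : List ℤ) (hJn : J.Nodup) (hJl : J.length = l)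
    (hJd : ∀ j ∈ J, ∀ j' ∈ J, (l : ℤ) ∣ j - j' → j = j')
    (u1 u2 v1 v2 : ℤ) (hu : u1 ≠ 0 ∨ u2 ≠ 0) (hv : v1 ≠ 0 ∨ v2 ≠ 0) (L0 L1 L2 : List Tm)
    (hc : ChkN 1 7 l J u1 u2 v1 v2 (TT3 L0 L1 L2))
    (r s : ℕ) (G : ℤ → ℤ → ZMod 7) (hG : SymH 7 r (s + 1) G) :
    (edgeH 0 u1 u2 v1 v2 (Tl l (7 ^ r) G) : Fn7 (7 ^ r) (7 ^ s)) =
      opL L0 (pfH G 0) + opL L1 (pfH G 1) + opL L2 (pfH G 2) := by
  funext x y
  have hl0 : (l : ℤ) ≠ 0 := by exact_mod_cast hl.ne_zero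
  have hpl : ¬ (7 : ℤ) ∣ (l : ℤ) := by
    intro h
    have h' : (7 : ℕ) ∣ l := by exact_mod_cast h
    exact hl7 (((Nat.prime_dvd_prime_iff_eq (by norm_num) hl).1 h').symm)
  have hF := hf (ZMod 7) inferInstance r s l G J.toFinset hl hl7 hl2 hG
    (by rw [List.toFinset_card_of_nodup hJn, hJl])
    (fun j hj j' hj' => hJd j (List.mem_toFinset.1 hj) j' (List.mem_toFinset.1 hj'))
    u1 u2 v1 v2 hu hv x y
  rw [List.sum_toFinset _ hJn] at hF
  have key := row_of_chkN (R := ZMod 7) (X := ZMod (7 ^ r) × ZMod (7 ^ s)) 7 1 7 l hl0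
    (by norm_num) hpl (by norm_num) (by norm_num) J
    (fun a b c d F z => tr7 a b c d (fun x y => F (x, y)) z.1 z.2)
    (fun a b c d => ⟨fun z => (((b : ZMod (7 ^ r)) + d * z.1) * ((a : ZMod (7 ^ r)) + 7 * c * z.1)⁻¹,
      ((c : ZMod (7 ^ s)) + a * z.2) * ((d : ZMod (7 ^ s)) + 7 * b * z.2)⁻¹), fun F z => rfl⟩)
    (fun F a b c d a' b' c' d' ha hd ha' hd' => by
      funext z
      have h := (hm (ZMod 7) r s (fun x y => F (x, y))).1 a b c d a' b' c' d' ha hd ha' hd'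
      have e1 : (1 : ℤ) * 7 = 7 := by norm_num
      rw [e1]
      exact congrFun (congrFun h z.1) z.2)
    (fun u1 u2 v1 v2 z => edgeH 0 u1 u2 v1 v2 G z.1 z.2) G hG.1
    (fun z => ⟨1, 1, (z.1.val : ℤ), 7 * rYH 0 z.1 z.2,
      1 + 7 ^ (0 + 1) * (z.1.val : ℤ) * rYH 0 z.1 z.2, by
        have : (1 : ℤ) * (1 + 7 ^ (0 + 1) * (z.1.val : ℤ) * rYH 0 z.1 z.2) -
          (z.1.val : ℤ) * (7 * rYH 0 z.1 z.2) = 1 := by ring
        rw [this]; exact one_ne_zero,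
      fun u1 u2 v1 v2 => by
        unfold edgeH
        simp only [one_mul, one_smul, pow_zero]⟩)
    (fun a b c d u1 u2 v1 v2 hd hu hv z => by
      rw [one_mul] at hd
      have h := ht (ZMod 7) inferInstance r s G hG a b c d u1 u2 v1 v2 hd hu hv z.1 z.2
      simp only [one_mul]
      exact h)
    u1 u2 v1 v2 (TT3 L0 L1 L2) hc
    (edgeH 0 u1 u2 v1 v2 (Tl l (7 ^ r) G) x y) (x, y) (by
      rw [hF]
      simp only [one_mul])
  rw [key]
  show _ = opL L0 (pfH G 0) x y + opL L1 (pfH G 1) x y + opL L2 (pfH G 2) x y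
  rw [opL_apply7, opL_apply7, opL_apply7]
  unfold TT3
  rw [List.map_append, List.map_append, List.sum_append, List.sum_append, List.map_map,
    List.map_map, List.map_map]
  rfl

end Pool.Agent.Helper14.TH7
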