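import Pool.Agent.Helper14.TH7.CevCore

/-!
# Project TH (levels `2·7^n`): the certificates of `V`, row 0
-/

set_option autoImplicit false
set_option maxRecDepth 100000

namespace Pool.Agent.Helper14.TH7

theorem cev00 : TCeV 0 0 := cevOf 0 0 (by decide +kernel) (by decide +kernel)

theorem cev01 : TCeV 0 1 := cevOf 0 1 (by decide +kernel) (by decide +kernel)

theorem cev02 : TCeV 0 2 := cevOf 0 2 (by decide +kernel) (by decide +kernel)

end Pool.Agent.Helper14.TH7
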