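import Pool.Agent.Helper14.TH7.StD

/-!
# Project TH (levels `2·7^n`): the finite certificate CEO
-/

set_option autoImplicit false
set_option maxRecDepth 1000000

namespace Pool.Agent.Helper14.TH7

open Pool.Agent.Helper4.S7 Pool.Agent.Helper84.S7

theorem hCeO : TCeO := by
  unfold TCeO
  decide +kernel

end Pool.Agent.Helper14.TH7
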