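import Pool.Agent.Helper14.TH7.HkCore

/-!
# Project TH7: the rows of the Hecke operator `T_29`
-/

set_option autoImplicit false
set_option maxRecDepth 100000

namespace Pool.Agent.Helper14.TH7

open Pool.Agent.Helper84.S7

/-- HK29. -/
theorem hHk29 (hf : THkF) (ht : TTre) (hm : S7Trm) : THk 29 T29H := by
  intro r s G hG i
  rw [Fin.sum_univ_three]
  fin_cases i
  · exact row7 hf ht hm 29 (by norm_num) (by norm_num) (by norm_num)
      [-14, -13, -12, -11, -10, -9, -8, -7, -6, -5, -4, -3, -2, -1, 0, 1, 2, 3, 4, 5, 6, 7, 8, 9, 10, 11, 12, 13, 14]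
      (by decide +kernel) rfl (by decide +kernel) 1 0 0 1 (Or.inl one_ne_zero)
      (Or.inr one_ne_zero) (T29H 0 0) (T29H 0 1) (T29H 0 2) (by decide +kernel) r s G hG
  · exact row7 hf ht hm 29 (by norm_num) (by norm_num) (by norm_num)
      [-14, -13, -12, -11, -10, -9, -8, -7, -6, -5, -4, -3, -2, -1, 0, 1, 2, 3, 4, 5, 6, 7, 8, 9, 10, 11, 12, 13, 14]
      (by decide +kernel) rfl (by decide +kernel) 1 2 0 1 (Or.inl one_ne_zero)
      (Or.inr one_ne_zero) (T29H 1 0) (T29H 1 1) (T29H 1 2) (by decide +kernel) r s G hG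
  · exact row7 hf ht hm 29 (by norm_num) (by norm_num) (by norm_num)
      [-14, -13, -12, -11, -10, -9, -8, -7, -6, -5, -4, -3, -2, -1, 0, 1, 2, 3, 4, 5, 6, 7, 8, 9, 10, 11, 12, 13, 14]
      (by decide +kernel) rfl (by decide +kernel) 1 4 0 1 (Or.inl one_ne_zero)
      (Or.inr one_ne_zero) (T29H 2 0) (T29H 2 1) (T29H 2 2) (by decide +kernel) r s G hG

end Pool.Agent.Helper14.TH7
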