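import Pool.Agent.Helper14.TH7.M_Cert
import Pool.Agent.Helper14.TH7.M_CertO
import Pool.Agent.Helper14.TH7.M_CeV0
import Pool.Agent.Helper14.TH7.M_CeV1
import Pool.Agent.Helper14.TH7.M_CeV2
import Pool.Agent.Helper84.S7.D1
import Pool.Agent.Helper10.S7.M_Pj
import Pool.Agent.Helper9.TL7.M_Ldg
import Pool.Agent.Helper71.TL7.M_Omg
import Pool.Agent.Helper45.TH7.M_PLAH7
import Pool.Agent.Helper60.TH7.M_EDGH7
import Pool.Agent.Helper53.TH7.M_Tre
import Pool.Agent.Helper51.TH7.M_Rel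
import Pool.Agent.Helper70.TH7.M_Uni
import Pool.Agent.Helper26.TH7.M_HkB
import Pool.Agent.Helper89.TH7.M_HkF
import Pool.Agent.Helper33.TH7.M_HkA
import Pool.Agent.Helper69.TH7.M_HkB2
import Pool.Agent.Helper14.TH7.M_Hk23
import Pool.Agent.Helper14.TH7.M_Hk29
import Pool.Agent.Helper14.TH7.M_Hk37
import Pool.Agent.Helper85.TLH.M_Hk
import Pool.Agent.Helper36.TLH.M_HkS
import Pool.Agent.Helper55.CV.M_Fex
import Pool.Agent.Helper38.CV.M_Far
import Pool.Agent.Helper66.TH7.M_Rll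
import Pool.Agent.Helper16.TH7.M_ExA
import Pool.Agent.Helper73.TH7.M_ExB
import Pool.Agent.Helper80.TH7.M_Ld
import Pool.Agent.Helper94.TH7.M_Sta
import Pool.Agent.Helper53.TH7.M_Sur
import Pool.Agent.Helper67.TH7.M_Led
import Pool.Agent.Helper1.TH7.M_Stp
import Pool.Agent.Helper7.TH7.M_Itr
import Pool.Agent.Helper75.TH7.M_Trf
import Pool.Agent.Helper36.TH7.M_Tri
import Pool.Agent.Helper44.TH7.M_Lifp
import Pool.Agent.Helper2.TH7.M_Lif
import Pool.Agent.Helper29.TH7.M_Unb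
import Pool.Agent.Helper88.TH7.M_Cnt
import Pool.Agent.Helper89.TH7.M_LBof

/-!
# Project TH: the lower bound for levels `2·7^n`, `W_2 = +1`
-/

set_option autoImplicit false

namespace Pool.Agent.Helper14.TH7

open Pool.Agent.Helper76.TH7 (HPlA7 HEdg7 ddH7)
open Pool.Agent.Helper93.TLH (LBH)

theorem plaT : HPlA7 := Pool.Agent.Helper45.TH7.hPlAH7

theorem edgT : HEdg7 := Pool.Agent.Helper60.TH7.hEdgH7 plaT

theorem treT : TTre := Pool.Agent.Helper53.TH7.hTre edgT plaT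

theorem relT : TRel := Pool.Agent.Helper51.TH7.hRel treT

theorem exT : TEx := hEx (Pool.Agent.Helper16.TH7.hExA Pool.Agent.Helper84.S7.trm)
  (Pool.Agent.Helper73.TH7.hExB plaT Pool.Agent.Helper55.CV.hFex Pool.Agent.Helper38.CV.hFar)

theorem uniT : TUni := Pool.Agent.Helper70.TH7.hUni edgT plaT Pool.Agent.Helper38.CV.hFar

theorem lifpT : TLifp := Pool.Agent.Helper44.TH7.hLifp Pool.Agent.Helper84.S7.trm

theorem lifT : TLif := Pool.Agent.Helper2.TH7.hLif relT lifpT exT uniT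

theorem hkBT : THkB := Pool.Agent.Helper26.TH7.hHkB Pool.Agent.Helper85.TLH.hHk
  (Pool.Agent.Helper36.TLH.hHkS Pool.Agent.Helper85.TLH.hHk)

theorem hkFT : THkF := Pool.Agent.Helper89.TH7.hHkF hkBT edgT plaT

theorem stpT : TStp := by
  have trm := Pool.Agent.Helper84.S7.trm
  exact Pool.Agent.Helper1.TH7.hStp hkBT
    (Pool.Agent.Helper33.TH7.hHk3 hkFT treT trm) (Pool.Agent.Helper33.TH7.hHk5 hkFT treT trm)
    (Pool.Agent.Helper33.TH7.hHk11 hkFT treT trm) (Pool.Agent.Helper69.TH7.hHk13 hkFT treT trm)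
    (Pool.Agent.Helper69.TH7.hHk17 hkFT treT trm) (Pool.Agent.Helper69.TH7.hHk19 hkFT treT trm)
    (hHk23 hkFT treT trm) (hHk29 hkFT treT trm)
    (hHk37 hkFT treT trm) Pool.Agent.Helper84.S7.opm hCeG plaT

theorem ceV : ∀ i f : Fin 3, TCeV i f := by
  intro i f
  fin_cases i <;> fin_cases f
  · exact cev00
  · exact cev01
  · exact cev02
  · exact cev10
  · exact cev11
  · exact cev12
  · exact cev20
  · exact cev21
  · exact cev22

theorem trfT : TTrf := Pool.Agent.Helper75.TH7.hTrf Pool.Agent.Helper84.S7.low0 Pool.Agent.Helper84.S7.bb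

theorem triT : TTri := by
  have trm := Pool.Agent.Helper84.S7.trm
  have low0 := Pool.Agent.Helper84.S7.low0
  have nfa := Pool.Agent.Helper84.S7.nfa
  have nf := Pool.Agent.Helper84.S7.nf
  have exp := Pool.Agent.Helper84.S7.exp7
  have lw1 := Pool.Agent.Helper84.S7.lw1
  have bb := Pool.Agent.Helper84.S7.bb
  have opm := Pool.Agent.Helper84.S7.opm
  have rll := Pool.Agent.Helper66.TH7.hRll trm
  have ldg := Pool.Agent.Helper9.TL7.hLdg trm low0 nfa exp
  have omg := Pool.Agent.Helper71.TL7.hOmg trm low0 nfa exp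
  have ldU := Pool.Agent.Helper80.TH7.hLdU low0 opm rll ldg hCeG hCeU
  have ldV := Pool.Agent.Helper80.TH7.hLdV low0 opm rll ldg hCeG ceV
  have om := Pool.Agent.Helper80.TH7.hOm low0 opm rll omg hCeG hCeO
  have pjj := Pool.Agent.Helper10.S7.hPj trm low0 nfa nf bb
  have sta := Pool.Agent.Helper94.TH7.hSta low0 nfa lw1 pjj
  have lwd := Pool.Agent.Helper94.TH7.hLwd trm low0 lw1
  have sur := Pool.Agent.Helper53.TH7.hSur trm low0 nfa pjj bb sta lwd
  have led := Pool.Agent.Helper67.TH7.hLed trm low0 nfa pjj bb sta lwd sur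
  have itr := Pool.Agent.Helper7.TH7.hItr relT stpT low0 ldU ldV om
  exact Pool.Agent.Helper36.TH7.hTri low0 bb led exT itr trfT

theorem cntT : TCnt := Pool.Agent.Helper88.TH7.hCnt

/-- The lower bound for levels `2·7^n`. -/
theorem lbH7 : LBH 7 4 ddH7 :=
  Pool.Agent.Helper89.TH7.hLBof triT lifT Pool.Agent.Helper29.TH7.hUnb cntT

end Pool.Agent.Helper14.TH7
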