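import Pool.Agent.Helper4.S7.Tm

/-!
# Project TH (levels `2·7^n`): rows of `T_13`, multipliers for `V`

A term `(k, a, b, c, d)` stands for `k` times the operator of `(a b; 7c d)` (`Helper4/S7/Tm.lean`; `mulL`, `sclL`, `Gd` of W7 are used unchanged). `F_f(g) = G(g e_f) - G(g 0)` with `e_0 = ∞`, `e_1 = 1/2`, `e_2 = 1/4`.
The rows of `T_l` are computed with the residues `-(l-1)/2, ..., (l-1)/2`.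
-/

set_option autoImplicit false

namespace Pool.Agent.Helper14.TH7

open Pool.Agent.Helper4.S7 (Tm mulT mulL sclL Gd)

/-- The rows of `T_13`: `F_i(T_13 G) = ∑_f (T13H i f) F_f(G)`. -/
def T13H : Fin 3 → Fin 3 → List Tm
  | 0, 0 => [(-1, 1, -1, 2, -1), (-1, 1, -1, 4, -15), (-1, 1, -1, 6, -29), (-1, 1, 1, -2, -1), (-1, 2, -3, 2, -8), (-1, 2, 1, -2, 6), (-1, 3, 1, -4, -5), (-1, 4, 3, -2, -4), (-1, 5, 2, -2, -3), (1, 1, 0, -2, 13), (1, 1, 0, 0, 13),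
      (1, 1, 0, 2, 13), (1, 1, 0, 4, 13), (1, 1, 0, 6, 13), (1, 2, -1, -2, 20), (1, 2, -1, 2, 6), (1, 3, -2, -4, 23), (1, 4, -1, -2, 10), (1, 5, -3, -2, 11), (1, 13, -8, 0, 1), (1, 13, -7, 0, 1), (1, 13, -6, 0, 1),
      (1, 13, -5, 0, 1), (1, 13, -4, 0, 1), (1, 13, -3, 0, 1), (1, 13, -2, 0, 1), (1, 13, -1, 0, 1), (1, 13, 0, 0, 1), (1, 13, 1, 0, 1), (1, 13, 2, 0, 1), (1, 13, 3, 0, 1), (1, 13, 4, 0, 1)]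
  | 0, 1 => [(-1, 2, -1, -2, 20), (-1, 2, -1, 2, 6), (-1, 3, -2, -4, 23), (-1, 3, -1, 4, -5), (-1, 4, -3, 2, -4), (-1, 4, -1, -2, 10), (-1, 5, -3, -2, 11), (-1, 5, -2, 2, -3), (-1, 13, -8, 0, 1), (-1, 13, -7, 0, 1), (-1, 13, -6, 0, 1),
      (-1, 13, -5, 0, 1), (1, 1, -1, 4, -15), (1, 1, -1, 6, -29), (1, 1, 0, -6, 13), (1, 1, 0, -4, 13), (1, 2, -3, 2, -8), (1, 2, 1, -2, 6)]
  | 0, 2 => [(-1, 2, -1, 6, -8), (-1, 4, -1, 6, -4), (-1, 4, -1, 14, -18), (-1, 5, -1, 4, -3), (-1, 8, -3, 2, -2), (-1, 13, -4, 0, 1), (-1, 13, -3, 0, 1), (1, 1, 0, -10, 13), (1, 1, 0, -8, 13), (1, 3, -1, 4, -5), (1, 4, -3, 2, -4),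
      (1, 5, -2, 2, -3), (1, 6, -1, -10, 16), (1, 10, -1, -2, 4)]
  | 1, 0 => [(-1, 1, -1, 2, -1), (-1, 1, -1, 4, -15), (-1, 1, -1, 6, -29), (-1, 1, 1, -2, -1), (-1, 1, 6, 0, 13), (-1, 2, -3, 2, -8), (-1, 2, 1, -2, 6), (-1, 3, 1, -4, -5), (-1, 4, -7, 2, -18), (-1, 4, 3, -2, -4), (-1, 5, 2, -2, -3),
      (-1, 6, -13, 2, -26), (-1, 8, 13, 2, 26), (-1, 12, 5, 2, 8), (-1, 13, -13, 4, -27), (-1, 16, 5, 2, 6), (-1, 22, 13, 6, 26), (-1, 36, 13, 10, 26), (1, 1, 0, -2, 13), (1, 1, 0, 0, 13), (1, 1, 0, 2, 13), (1, 1, 0, 4, 13),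
      (1, 1, 0, 6, 13), (1, 2, -1, -2, 20), (1, 2, -1, 2, 6), (1, 3, -2, -4, 23), (1, 4, -3, 2, -4), (1, 4, -1, -2, 10), (1, 5, -3, -2, 11), (1, 6, -1, 2, 2), (1, 8, -3, 2, -2), (1, 12, -7, 2, -6), (1, 13, 0, 4, 1),
      (1, 16, -11, 2, -8), (1, 22, -9, 6, -16), (1, 36, -23, 10, -44)]
  | 1, 1 => [(-1, 2, -1, -2, 20), (-1, 2, -1, 2, 6), (-1, 3, -2, -4, 23), (-1, 3, -1, 4, -5), (-1, 4, -3, 2, -4), (-1, 4, -1, -2, 10), (-1, 5, -3, -2, 11), (-1, 5, -2, 2, -3), (-1, 12, -7, 2, -6), (-1, 16, -11, 2, -8), (-1, 20, -13, 6, -26),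
      (-1, 22, -9, 6, -16), (-1, 34, -13, 10, -26), (-1, 36, -23, 10, -44), (1, 1, -1, 4, -15), (1, 1, -1, 6, -29), (1, 1, 0, -6, 13), (1, 1, 0, -4, 13), (1, 1, 6, 0, 13), (1, 4, -7, 2, -18), (1, 10, 1, 2, 4),
      (1, 13, -13, 4, -27), (1, 13, -4, 0, 1), (1, 15, -1, 4, -1)]
  | 1, 2 => [(-1, 2, -1, 6, -8), (-1, 3, -2, 2, -5), (-1, 4, -1, 6, -4), (-1, 4, -1, 14, -18), (-1, 5, -1, 4, -3), (-1, 8, -3, 2, -2), (-1, 11, -4, 4, -9), (-1, 13, -4, 0, 1), (-1, 48, -13, 14, -26), (-1, 62, -13, 18, -26),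
      (1, 1, 0, -10, 13), (1, 1, 0, -8, 13), (1, 2, -3, 2, -8), (1, 2, 1, -2, 6), (1, 3, -1, 4, -5), (1, 6, -1, -10, 16), (1, 9, 1, 2, 3), (1, 10, -1, -2, 4), (1, 22, -5, 2, -2), (1, 37, -6, 10, -11)]
  | 2, 0 => [(-1, 1, -1, 2, -1), (-1, 1, -1, 4, -15), (-1, 1, -1, 6, -29), (-1, 1, 1, -2, -1), (-1, 1, 3, 0, 13), (-1, 2, -5, 2, -22), (-1, 2, 1, -2, 6), (-1, 3, -8, 2, -33), (-1, 3, 1, -4, -5), (-1, 4, 13, 2, 52), (-1, 5, 2, -2, -3),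
      (-1, 5, 3, 2, 11), (-1, 10, -13, 6, -52), (-1, 17, -15, 10, -61), (-1, 18, 13, 10, 52), (-1, 32, 13, 18, 52), (1, 1, 0, -2, 13), (1, 1, 0, 0, 13), (1, 1, 0, 2, 13), (1, 1, 0, 4, 13), (1, 1, 0, 6, 13), (1, 2, -1, -2, 20),
      (1, 2, -1, 2, 6), (1, 3, -2, -4, 23), (1, 3, -2, 2, -5), (1, 4, -3, 2, -4), (1, 5, -3, -2, 11), (1, 5, -2, 2, -3), (1, 10, -3, 6, -10), (1, 17, 2, 10, 9), (1, 18, -5, 10, -18), (1, 32, -19, 18, -74)]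
  | 2, 1 => [(-1, 2, -1, -2, 20), (-1, 2, -1, 2, 6), (-1, 3, -2, -4, 23), (-1, 3, -2, 2, -5), (-1, 3, -1, 4, -5), (-1, 4, -3, 2, -4), (-1, 5, -3, -2, 11), (-1, 5, -2, 2, -3), (-1, 24, -13, 14, -52), (-1, 32, -19, 18, -74),
      (-1, 38, -13, 22, -52), (1, 1, -1, 4, -15), (1, 1, -1, 6, -29), (1, 1, 0, -6, 13), (1, 1, 0, -4, 13), (1, 2, -5, 2, -22), (1, 3, -8, 2, -33), (1, 6, -1, 2, 2), (1, 8, -3, 2, -2), (1, 11, 1, 6, 5), (1, 17, -15, 10, -61),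
      (1, 25, -6, 14, -23)]
  | 2, 2 => [(-1, 2, -1, 6, -8), (-1, 4, -1, 6, -4), (-1, 4, -1, 14, -18), (-1, 5, -1, 4, -3), (-1, 8, -3, 2, -2), (-1, 10, -3, 6, -10), (-1, 18, -5, 10, -18), (-1, 23, -6, 14, -25), (-1, 25, -6, 14, -23), (-1, 52, -13, 30, -52),
      (1, 1, 0, -10, 13), (1, 1, 0, -8, 13), (1, 1, 3, 0, 13), (1, 3, -1, 4, -5), (1, 6, -1, -10, 16), (1, 29, -4, 16, -15)]

/-- Multipliers of the relation for row 0 of `V`. -/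
def MVH0 : List Tm :=
    [(-3, 1, -1, 0, 2), (-3, 2, -3, 3, -3), (-3, 2, -2, 2, 1), (-3, 2, -1, -3, 1), (-3, 4, -2, -2, 1), (-3, 4, -2, 3, 2), (-3, 4, 3, -1, -6), (-3, 4, 3, 0, 2), (-3, 5, -3, -3, 6), (-3, 5, -1, 1, 6), (-3, 5, 1, 1, 5),
      (-3, 6, -3, 1, 5), (-3, 6, 0, -2, -1), (-3, 6, 0, -1, 3), (-3, 6, 3, -1, -1), (-2, 1, 0, -2, -3), (-2, 1, 2, 1, -6), (-2, 1, 3, -1, -6), (-2, 1, 3, 1, 2), (-2, 2, -2, 3, -6), (-2, 2, -1, 1, 2), (-2, 2, 1, -1, -3),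
      (-2, 3, -3, -3, 5), (-2, 3, 0, 0, 5), (-2, 3, 2, 0, -2), (-2, 4, -1, 0, -6), (-2, 4, 0, -3, -3), (-2, 4, 0, 1, -6), (-2, 4, 1, 3, -6), (-2, 4, 3, -2, -6), (-2, 5, -3, 1, -2), (-2, 5, -1, -3, -1), (-2, 5, -1, 0, 3),
      (-2, 5, -1, 3, 5), (-2, 5, 1, -2, -1), (-2, 5, 3, -3, -1), (-2, 5, 3, 3, -2), (-2, 6, -3, -1, 6), (-2, 6, 0, 1, -1), (-2, 6, 1, -2, 6), (-2, 6, 2, 3, -2), (-1, 1, -2, 2, -3), (-1, 1, 1, -3, 4), (-1, 2, -3, 0, -5),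
      (-1, 2, -1, -2, -5), (-1, 2, 0, 1, -6), (-1, 3, -1, 0, -1), (-1, 3, -1, 2, 5), (-1, 3, 0, 2, -2), (-1, 3, 2, -3, 3), (-1, 3, 3, 0, -2), (-1, 4, -3, -1, 4), (-1, 4, 0, 1, -5), (-1, 4, 0, 3, 1), (-1, 5, 0, -1, -4),
      (-1, 6, -1, -1, 5), (-1, 6, 2, -1, -2), (-1, 6, 2, -1, 6), (1, 1, -3, -3, 4), (1, 1, -3, 0, 4), (1, 1, -3, 2, -3), (1, 1, -2, 0, 2), (1, 1, -1, -1, 1), (1, 1, -1, 0, 1), (1, 1, 1, -1, 1), (1, 1, 2, -3, 4), (1, 2, 3, -1, -3),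
      (1, 3, 0, 0, -4), (1, 3, 0, 1, 5), (1, 3, 2, 0, -4), (1, 4, -2, 1, 4), (1, 4, 1, 2, 4), (1, 4, 3, 1, -5), (1, 5, -3, 3, -2), (1, 5, -2, -3, 6), (1, 5, -1, 2, 5), (1, 5, 1, 1, -1), (1, 5, 3, 2, 5), (1, 6, -3, 3, -4),
      (1, 6, -2, -1, 6), (1, 6, 2, -2, -1), (2, 1, -1, -3, -5), (2, 1, -1, -1, 2), (2, 1, 0, -3, -3), (2, 1, 3, -2, 2), (2, 2, -3, -3, -6), (2, 2, 0, 1, 2), (2, 2, 3, 3, -5), (2, 3, 0, -3, -2), (2, 3, 0, -2, -1), (2, 3, 1, -1, 6),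
      (2, 3, 3, 2, -2), (2, 4, -2, 0, -5), (2, 4, -1, -1, 1), (2, 4, 2, -1, 4), (2, 5, -3, -1, -4), (2, 6, -2, 0, 3), (2, 6, 3, -1, 6), (2, 6, 3, 2, 5), (3, 1, -2, 0, 1), (3, 1, 1, 3, -5), (3, 1, 2, 2, 2), (3, 1, 3, -2, -6),
      (3, 1, 3, -2, 1), (3, 2, -3, -1, -5), (3, 2, -3, 2, 2), (3, 2, 2, 1, 1), (3, 3, 2, -2, -1), (3, 4, -3, 2, 4), (3, 5, -2, 3, -4), (3, 5, 0, -2, -2), (3, 6, -2, -1, 5), (3, 6, -1, -2, -4), (3, 6, 3, 1, 3), (3, 6, 3, 3, 5)]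

end Pool.Agent.Helper14.TH7
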