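import Pool.Agent.Helper4.S7.Tm

/-!
# Project TH (levels `2·7^n`): rows of `T_17`, multipliers for `V`

A term `(k, a, b, c, d)` stands for `k` times the operator of `(a b; 7c d)` (`Helper4/S7/Tm.lean`; `mulL`, `sclL`, `Gd` of W7 are used unchanged). `F_f(g) = G(g e_f) - G(g 0)` with `e_0 = ∞`, `e_1 = 1/2`, `e_2 = 1/4`.
The rows of `T_l` are computed with the residues `-(l-1)/2, ..., (l-1)/2`.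
-/

set_option autoImplicit false

namespace Pool.Agent.Helper14.TH7

open Pool.Agent.Helper4.S7 (Tm mulT mulL sclL Gd)

/-- The rows of `T_17`: `F_i(T_17 G) = ∑_f (T17H i f) F_f(G)`. -/
def T17H : Fin 3 → Fin 3 → List Tm
  | 0, 0 => [(-1, 1, -1, 2, 3), (-1, 1, -1, 4, -11), (-1, 1, -1, 6, -25), (-1, 1, -1, 8, -39), (-1, 1, 1, -2, 3), (-1, 2, -3, 2, -4), (-1, 2, 1, -10, -18), (-1, 2, 1, -6, -4), (-1, 2, 3, -2, -4), (-1, 4, 3, -2, -2), (-1, 6, -5, 2, -6),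
      (-1, 8, -7, 2, -8), (1, 1, 0, -2, 17), (1, 1, 0, 0, 17), (1, 1, 0, 2, 17), (1, 1, 0, 4, 17), (1, 1, 0, 6, 17), (1, 1, 0, 8, 17), (1, 2, -1, -10, 52), (1, 2, -1, -6, 38), (1, 2, -1, -2, 24), (1, 2, -1, 2, 10),
      (1, 4, -1, -2, 12), (1, 6, 1, 2, 8), (1, 8, 1, 2, 6), (1, 17, -11, 0, 1), (1, 17, -10, 0, 1), (1, 17, -9, 0, 1), (1, 17, -8, 0, 1), (1, 17, -7, 0, 1), (1, 17, -6, 0, 1), (1, 17, -5, 0, 1), (1, 17, -4, 0, 1),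
      (1, 17, -3, 0, 1), (1, 17, -2, 0, 1), (1, 17, -1, 0, 1), (1, 17, 0, 0, 1), (1, 17, 1, 0, 1), (1, 17, 2, 0, 1), (1, 17, 3, 0, 1), (1, 17, 4, 0, 1), (1, 17, 5, 0, 1)]
  | 0, 1 => [(-1, 2, -1, -10, 52), (-1, 2, -1, -6, 38), (-1, 2, -1, -2, 24), (-1, 2, -1, 2, 10), (-1, 2, -1, 6, -4), (-1, 2, -1, 10, -18), (-1, 4, -3, 2, -2), (-1, 4, -1, -2, 12), (-1, 17, -11, 0, 1), (-1, 17, -10, 0, 1), (-1, 17, -9, 0, 1),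
      (-1, 17, -8, 0, 1), (-1, 17, -7, 0, 1), (-1, 17, -6, 0, 1), (1, 1, -1, 4, -11), (1, 1, -1, 6, -25), (1, 1, -1, 8, -39), (1, 1, 0, -8, 17), (1, 1, 0, -6, 17), (1, 1, 0, -4, 17), (1, 6, -5, 2, -6), (1, 6, -1, -2, 8),
      (1, 8, -7, 2, -8), (1, 8, -1, -2, 6)]
  | 0, 2 => [(-1, 3, -1, 2, 1), (-1, 4, -1, 6, -2), (-1, 5, -1, 6, -5), (-1, 17, -5, 0, 1), (-1, 17, -4, 0, 1), (-1, 18, -5, 2, -2), (1, 1, 0, -10, 17), (1, 1, 1, -2, 3), (1, 2, -3, 2, -4), (1, 2, -1, 10, -18), (1, 6, -1, -14, 22),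
      (1, 12, -1, -2, 4)]
  | 1, 0 => [(-1, 1, -2, 2, -11), (-1, 1, -1, 4, -11), (-1, 1, -1, 6, -25), (-1, 1, -1, 8, -39), (-1, 1, 1, -2, 3), (-1, 1, 8, 0, 17), (-1, 2, -3, 2, -4), (-1, 2, 1, -10, -18), (-1, 2, 1, -6, -4), (-1, 2, 1, -2, 10), (-1, 3, -4, 2, -13),
      (-1, 4, -7, 2, -16), (-1, 4, 3, -2, -2), (-1, 6, -17, 2, -34), (-1, 8, 17, 2, 34), (-1, 9, 2, 2, 5), (-1, 13, -15, 4, -31), (-1, 17, 6, 0, 1), (-1, 20, -17, 6, -34), (-1, 22, 17, 6, 34), (-1, 27, -22, 8, -45),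
      (-1, 36, 17, 10, 34), (-1, 50, 17, 14, 34), (1, 1, 0, -2, 17), (1, 1, 0, 0, 17), (1, 1, 0, 2, 17), (1, 1, 0, 4, 17), (1, 1, 0, 6, 17), (1, 1, 0, 8, 17), (1, 2, -1, -10, 52), (1, 2, -1, -6, 38), (1, 2, -1, -2, 24),
      (1, 2, -1, 2, 10), (1, 3, -1, 2, 1), (1, 4, -3, 2, -2), (1, 4, -1, -2, 12), (1, 6, 1, 2, 8), (1, 8, 1, 2, 6), (1, 9, -7, 2, -9), (1, 13, -2, 4, -3), (1, 17, -11, 0, 1), (1, 20, 3, 6, 8), (1, 22, -5, 6, -8),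
      (1, 27, 5, 8, 11), (1, 36, -19, 10, -36), (1, 50, -33, 14, -64)]
  | 1, 1 => [(-1, 2, -1, -10, 52), (-1, 2, -1, -6, 38), (-1, 2, -1, -2, 24), (-1, 2, -1, 2, 10), (-1, 2, -1, 6, -4), (-1, 2, -1, 10, -18), (-1, 4, -3, 2, -2), (-1, 4, -1, -2, 12), (-1, 5, -3, 2, -5), (-1, 9, -7, 2, -9), (-1, 17, -11, 0, 1),
      (-1, 34, -17, 10, -34), (-1, 36, -19, 10, -36), (-1, 48, -17, 14, -34), (-1, 50, -33, 14, -64), (1, 1, -2, 2, -11), (1, 1, -1, 4, -11), (1, 1, -1, 6, -25), (1, 1, -1, 8, -39), (1, 1, 0, -8, 17), (1, 1, 0, -6, 17),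
      (1, 1, 0, -4, 17), (1, 1, 8, 0, 17), (1, 2, 1, -2, 10), (1, 3, -4, 2, -13), (1, 4, -7, 2, -16), (1, 6, -1, -2, 8), (1, 8, -1, -2, 6), (1, 10, -1, 2, 2), (1, 11, -2, 2, -1), (1, 13, -15, 4, -31), (1, 13, -4, 2, -3),
      (1, 15, 1, 4, 3), (1, 16, -7, 2, -4), (1, 27, -22, 8, -45), (1, 29, -6, 8, -11)]
  | 1, 2 => [(-1, 3, -1, 2, 1), (-1, 4, -1, 6, -2), (-1, 5, -1, 6, -5), (-1, 13, -4, 2, -3), (-1, 16, -7, 2, -4), (-1, 25, -7, 8, -15), (-1, 29, -6, 8, -11), (-1, 62, -17, 18, -34), (-1, 76, -17, 22, -34), (1, 1, 0, -10, 17),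
      (1, 1, 1, -2, 3), (1, 2, -1, 10, -18), (1, 6, -1, -14, 22), (1, 9, 2, 2, 5), (1, 12, 1, 2, 4), (1, 17, -3, 0, 1), (1, 37, -5, 10, -9), (1, 38, -7, 10, -12)]
  | 2, 0 => [(-1, 1, -2, 2, -11), (-1, 1, -1, 4, -11), (-1, 1, -1, 6, -25), (-1, 1, -1, 8, -39), (-1, 1, 1, -2, 3), (-1, 1, 4, 0, 17), (-1, 2, -7, 2, -32), (-1, 2, 1, -10, -18), (-1, 2, 1, -6, -4), (-1, 2, 1, -2, 10), (-1, 3, -10, 2, -41),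
      (-1, 4, 3, -2, -2), (-1, 4, 17, 2, 68), (-1, 5, 2, 2, 9), (-1, 10, -17, 6, -68), (-1, 11, 3, 6, 13), (-1, 15, 8, 8, 31), (-1, 17, -17, 10, -69), (-1, 18, 17, 10, 68), (-1, 24, -17, 14, -68), (-1, 31, -24, 18, -97),
      (-1, 32, 17, 18, 68), (-1, 46, 17, 26, 68), (1, 1, 0, -2, 17), (1, 1, 0, 0, 17), (1, 1, 0, 2, 17), (1, 1, 0, 4, 17), (1, 1, 0, 6, 17), (1, 1, 0, 8, 17), (1, 2, -1, -10, 52), (1, 2, -1, -6, 38), (1, 2, -1, -2, 24),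
      (1, 2, -1, 2, 10), (1, 3, -1, 2, 1), (1, 4, -3, 2, -2), (1, 4, -1, -2, 12), (1, 5, -3, 2, -5), (1, 10, -7, 6, -26), (1, 11, -8, 6, -29), (1, 15, -7, 8, -25), (1, 17, 0, 10, 1), (1, 18, -1, 10, -2), (1, 24, 7, 14, 30),
      (1, 31, 7, 18, 29), (1, 32, -15, 18, -58), (1, 46, -29, 26, -114)]
  | 2, 1 => [(-1, 2, -1, -10, 52), (-1, 2, -1, -6, 38), (-1, 2, -1, -2, 24), (-1, 2, -1, 2, 10), (-1, 2, -1, 6, -4), (-1, 2, -1, 10, -18), (-1, 4, -3, 2, -2), (-1, 4, -1, -2, 12), (-1, 5, -3, 2, -5), (-1, 8, -5, 6, -22), (-1, 10, -7, 6, -26),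
      (-1, 11, -8, 6, -29), (-1, 15, -7, 8, -25), (-1, 32, -15, 18, -58), (-1, 38, -17, 22, -68), (-1, 46, -29, 26, -114), (1, 1, -1, 4, -11), (1, 1, -1, 6, -25), (1, 1, -1, 8, -39), (1, 1, 0, -8, 17), (1, 1, 0, -6, 17),
      (1, 1, 0, -4, 17), (1, 2, -7, 2, -32), (1, 2, 1, -2, 10), (1, 3, -10, 2, -41), (1, 6, -1, -2, 8), (1, 6, 1, 2, 8), (1, 11, 3, 6, 13), (1, 13, -4, 2, -3), (1, 17, -17, 10, -69), (1, 25, -4, 14, -15), (1, 31, -24, 18, -97)]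
  | 2, 2 => [(-1, 3, -1, 2, 1), (-1, 4, -1, 6, -2), (-1, 5, -1, 6, -5), (-1, 13, -4, 2, -3), (-1, 52, -17, 30, -68), (-1, 66, -17, 38, -68), (-1, 80, -17, 46, -68), (1, 1, -2, 2, -11), (1, 1, 0, -10, 17), (1, 1, 4, 0, 17),
      (1, 2, -1, 10, -18), (1, 6, -1, -14, 22), (1, 8, -5, 6, -22), (1, 8, -1, -2, 6), (1, 10, -1, 2, 2), (1, 11, -2, 2, -1), (1, 13, -2, 4, -3), (1, 22, -5, 6, -8), (1, 26, -3, 14, -10), (1, 29, -3, 16, -11)]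

/-- Multipliers of the relation for row 1 of `V`. -/
def MVH1 : List Tm :=
    [(-3, 1, 0, -2, -6), (-3, 2, -3, 1, -6), (-3, 2, -2, -2, -5), (-3, 2, 0, -3, -5), (-3, 2, 1, -1, -5), (-3, 2, 3, 3, 2), (-3, 3, -2, 0, -4), (-3, 3, 0, -3, -2), (-3, 3, 0, -3, -1), (-3, 4, -1, -3, 2), (-3, 4, -1, 0, -5),
      (-3, 4, -1, 1, -6), (-3, 4, -1, 3, 1), (-3, 4, 0, 1, -5), (-3, 4, 1, 3, -6), (-3, 4, 3, -2, -6), (-3, 5, -2, 2, 6), (-3, 5, -1, 1, 3), (-3, 5, -1, 3, 5), (-3, 5, 2, 2, 5), (-3, 5, 3, 3, -2), (-3, 5, 3, 3, -1),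
      (-3, 6, -1, -1, 5), (-3, 6, -1, 3, -1), (-3, 6, 0, -3, 5), (-2, 1, -1, -2, 1), (-2, 1, 1, 1, -6), (-2, 1, 2, -2, -6), (-2, 2, 3, -1, 1), (-2, 3, -2, 2, 5), (-2, 3, 0, -1, -1), (-2, 3, 2, -2, -2), (-2, 3, 3, 0, -2),
      (-2, 4, 1, -3, -6), (-2, 4, 1, -2, 2), (-2, 4, 3, 0, -3), (-2, 5, -2, 1, -4), (-2, 5, 0, 1, -4), (-2, 6, 1, -1, -1), (-2, 6, 2, -1, 6), (-1, 1, -2, 1, 2), (-1, 1, 0, -1, -3), (-1, 1, 0, 0, -5), (-1, 1, 0, 0, 2),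
      (-1, 2, -3, 0, -5), (-1, 2, -3, 3, 2), (-1, 2, 2, -3, 1), (-1, 3, -1, -1, 6), (-1, 3, 1, -2, -2), (-1, 4, 0, -3, 4), (-1, 4, 2, 3, -3), (-1, 4, 3, -1, -6), (-1, 5, -2, -3, -2), (-1, 5, 0, -3, 6), (-1, 6, -3, -1, 3),
      (-1, 6, -1, 3, -4), (-1, 6, 1, -1, 3), (-1, 6, 3, 3, 5), (1, 1, -3, -3, 4), (1, 1, -2, 1, -3), (1, 1, -1, 1, -3), (1, 1, 3, 1, -6), (1, 2, -1, 1, 2), (1, 3, -3, 3, -1), (1, 3, -2, 1, -4), (1, 3, 2, -3, 6), (1, 3, 2, -2, 6),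
      (1, 4, 3, -3, 2), (1, 5, -3, -3, 6), (1, 5, -3, 2, -1), (1, 5, -2, 2, 5), (1, 5, -1, 2, -1), (1, 5, 1, 1, -1), (1, 5, 2, -1, 5), (1, 6, 1, 1, -2), (1, 6, 2, -3, 5), (1, 6, 2, 3, -2), (2, 1, 3, 0, -6), (2, 2, -3, 1, -5),
      (2, 2, -3, 3, 4), (2, 4, -2, 0, 1), (2, 4, 0, -2, -3), (2, 4, 1, 2, 4), (2, 5, -2, 0, -1), (2, 5, -2, 1, -1), (2, 5, -2, 3, -4), (2, 5, 1, 0, -1), (2, 5, 1, 3, 5), (2, 6, -3, -1, 5), (3, 1, -1, -3, -5), (3, 1, 0, -3, -3),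
      (3, 1, 3, -1, -6), (3, 2, -3, -2, 2), (3, 2, -2, -3, -5), (3, 2, -1, -3, 4), (3, 2, 3, -3, -6), (3, 2, 3, -2, -3), (3, 2, 3, 0, 1), (3, 3, 1, -2, -1), (3, 3, 3, 1, -4), (3, 4, -3, -3, -5), (3, 5, -2, -3, -4),
      (3, 5, 0, -1, -2), (3, 5, 1, -3, -4), (3, 5, 2, -3, 6), (3, 5, 3, -2, -1), (3, 6, -2, -3, -2), (3, 6, 0, -1, 5), (3, 6, 1, -3, 3), (3, 6, 1, -2, 3), (3, 6, 2, 1, -1)]

end Pool.Agent.Helper14.TH7
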