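import Pool.Agent.Helper4.S7.Tm

/-!
# Project TH (levels `2·7^n`): rows of `T_19`, multipliers for `V`

A term `(k, a, b, c, d)` stands for `k` times the operator of `(a b; 7c d)` (`Helper4/S7/Tm.lean`; `mulL`, `sclL`, `Gd` of W7 are used unchanged). `F_f(g) = G(g e_f) - G(g 0)` with `e_0 = ∞`, `e_1 = 1/2`, `e_2 = 1/4`.
The rows of `T_l` are computed with the residues `-(l-1)/2, ..., (l-1)/2`.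
-/

set_option autoImplicit false

namespace Pool.Agent.Helper14.TH7

open Pool.Agent.Helper4.S7 (Tm mulT mulL sclL Gd)

/-- The rows of `T_19`: `F_i(T_19 G) = ∑_f (T19H i f) F_f(G)`. -/
def T19H : Fin 3 → Fin 3 → List Tm
  | 0, 0 => [(-1, 1, -2, 2, -9), (-1, 1, -1, 4, -9), (-1, 1, -1, 6, -23), (-1, 1, 1, -2, 5), (-1, 2, -3, 2, -2), (-1, 2, 1, -6, -2), (-1, 2, 3, -2, -2), (-1, 3, 1, -4, -3), (-1, 3, 2, -2, -3), (-1, 4, -5, 2, -8), (-1, 4, -3, 6, -22),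
      (-1, 8, 5, -2, -4), (1, 1, 0, -2, 19), (1, 1, 0, 0, 19), (1, 1, 0, 2, 19), (1, 1, 0, 4, 19), (1, 1, 0, 6, 19), (1, 2, -1, -6, 40), (1, 2, -1, -2, 26), (1, 2, -1, 2, 12), (1, 3, -2, -4, 25), (1, 3, -1, -2, 11),
      (1, 4, -1, 2, 6), (1, 4, 1, 6, 20), (1, 8, -3, -2, 10), (1, 19, -12, 0, 1), (1, 19, -11, 0, 1), (1, 19, -10, 0, 1), (1, 19, -9, 0, 1), (1, 19, -8, 0, 1), (1, 19, -7, 0, 1), (1, 19, -6, 0, 1), (1, 19, -5, 0, 1),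
      (1, 19, -4, 0, 1), (1, 19, -3, 0, 1), (1, 19, -2, 0, 1), (1, 19, -1, 0, 1), (1, 19, 0, 0, 1), (1, 19, 1, 0, 1), (1, 19, 2, 0, 1), (1, 19, 3, 0, 1), (1, 19, 4, 0, 1), (1, 19, 5, 0, 1), (1, 19, 6, 0, 1)]
  | 0, 1 => [(-1, 2, -1, -6, 40), (-1, 2, -1, -2, 26), (-1, 2, -1, 2, 12), (-1, 2, -1, 6, -2), (-1, 3, -2, -4, 25), (-1, 3, -2, 2, -3), (-1, 3, -1, -2, 11), (-1, 3, -1, 4, -3), (-1, 8, -5, 2, -4), (-1, 8, -3, -2, 10), (-1, 19, -12, 0, 1),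
      (-1, 19, -11, 0, 1), (-1, 19, -10, 0, 1), (-1, 19, -9, 0, 1), (-1, 19, -8, 0, 1), (-1, 19, -7, 0, 1), (1, 1, -2, 2, -9), (1, 1, -1, 4, -9), (1, 1, -1, 6, -23), (1, 1, 0, -6, 19), (1, 1, 0, -4, 19), (1, 1, 1, -2, 5),
      (1, 4, -5, 2, -8), (1, 4, -3, 6, -22), (1, 4, -1, -6, 20), (1, 4, 1, -2, 6)]
  | 0, 2 => [(-1, 4, -1, -6, 20), (-1, 4, -1, 2, 6), (-1, 4, -1, 10, -8), (-1, 4, -1, 18, -22), (-1, 9, -2, 2, -1), (-1, 16, -5, 2, -2), (-1, 19, -6, 0, 1), (-1, 19, -5, 0, 1), (-1, 19, -4, 0, 1), (1, 1, 0, -14, 19), (1, 1, 0, -12, 19),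
      (1, 1, 0, -10, 19), (1, 1, 0, -8, 19), (1, 3, -2, 2, -3), (1, 6, 1, -2, 4), (1, 8, -5, 2, -4), (1, 8, -1, -6, 10), (1, 20, -3, -2, 4)]
  | 1, 0 => [(-1, 1, -2, 2, -9), (-1, 1, -1, 4, -9), (-1, 1, -1, 6, -23), (-1, 1, 1, -2, 5), (-1, 1, 9, 0, 19), (-1, 2, -5, 2, -16), (-1, 2, 1, -6, -2), (-1, 2, 3, -2, -2), (-1, 3, 1, -4, -3), (-1, 4, -9, 2, -22), (-1, 4, -3, 6, -22),
      (-1, 5, -6, 2, -13), (-1, 6, -19, 2, -38), (-1, 8, 5, -2, -4), (-1, 8, 19, 2, 38), (-1, 9, 7, 2, 13), (-1, 10, 3, 2, 8), (-1, 13, -16, 4, -33), (-1, 18, 5, 2, 6), (-1, 20, -19, 6, -38), (-1, 22, 19, 6, 38),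
      (-1, 26, 9, 6, 16), (-1, 27, -23, 8, -47), (-1, 36, 19, 10, 38), (-1, 50, 19, 14, 38), (1, 1, 0, -2, 19), (1, 1, 0, 0, 19), (1, 1, 0, 2, 19), (1, 1, 0, 4, 19), (1, 1, 0, 6, 19), (1, 2, -1, -6, 40), (1, 2, -1, -2, 26),
      (1, 2, -1, 2, 12), (1, 3, -2, -4, 25), (1, 4, -1, 2, 6), (1, 4, 1, 6, 20), (1, 5, -1, 2, 1), (1, 6, -1, 2, 4), (1, 8, -5, 2, -4), (1, 8, -3, -2, 10), (1, 9, -2, 2, -1), (1, 10, -7, 2, -6), (1, 13, -3, 4, -5),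
      (1, 18, -13, 2, -8), (1, 20, 1, 6, 4), (1, 22, -3, 6, -4), (1, 26, -17, 6, -26), (1, 27, 4, 8, 9), (1, 36, -17, 10, -32), (1, 50, -31, 14, -60)]
  | 1, 1 => [(-1, 2, -1, -6, 40), (-1, 2, -1, -2, 26), (-1, 2, -1, 2, 12), (-1, 2, -1, 6, -2), (-1, 3, -2, -4, 25), (-1, 3, -2, 2, -3), (-1, 3, -1, 4, -3), (-1, 8, -5, 2, -4), (-1, 8, -3, -2, 10), (-1, 10, -7, 2, -6), (-1, 16, -7, 6, -16),
      (-1, 18, -13, 2, -8), (-1, 26, -17, 6, -26), (-1, 34, -19, 10, -38), (-1, 36, -17, 10, -32), (-1, 48, -19, 14, -38), (-1, 50, -31, 14, -60), (1, 1, -2, 2, -9), (1, 1, -1, 4, -9), (1, 1, -1, 6, -23), (1, 1, 0, -6, 19),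
      (1, 1, 0, -4, 19), (1, 1, 1, -2, 5), (1, 1, 9, 0, 19), (1, 2, -5, 2, -16), (1, 4, -9, 2, -22), (1, 4, -3, 6, -22), (1, 4, -1, -6, 20), (1, 10, 3, 2, 8), (1, 12, -1, 2, 2), (1, 13, -16, 4, -33), (1, 15, 2, 4, 5),
      (1, 17, -5, 2, -3), (1, 19, -6, 0, 1), (1, 27, -23, 8, -47), (1, 29, -5, 8, -9)]
  | 1, 2 => [(-1, 1, 1, -2, 5), (-1, 4, -1, -6, 20), (-1, 4, -1, 2, 6), (-1, 4, -1, 10, -8), (-1, 4, -1, 18, -22), (-1, 9, -2, 2, -1), (-1, 11, -5, 4, -11), (-1, 13, -3, 4, -5), (-1, 17, -5, 2, -3), (-1, 19, -6, 0, 1), (-1, 62, -19, 18, -38),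
      (-1, 76, -19, 22, -38), (-1, 90, -19, 26, -38), (1, 1, 0, -14, 19), (1, 1, 0, -12, 19), (1, 1, 0, -10, 19), (1, 1, 0, -8, 19), (1, 4, 1, -2, 6), (1, 5, -6, 2, -13), (1, 8, -1, -6, 10), (1, 16, -7, 6, -16),
      (1, 20, -3, -2, 4), (1, 23, -1, 6, -1), (1, 30, -7, 2, -2), (1, 32, -7, 6, -8), (1, 51, -8, 14, -15)]
  | 2, 0 => [(-1, 1, -2, 2, -9), (-1, 1, -1, 4, -9), (-1, 1, -1, 6, -23), (-1, 1, 1, -2, 5), (-1, 1, 5, 0, 19), (-1, 2, -7, 2, -30), (-1, 2, 1, -6, -2), (-1, 2, 1, -2, 12), (-1, 3, -11, 2, -45), (-1, 3, 1, -4, -3), (-1, 4, -3, 6, -22),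
      (-1, 4, 19, 2, 76), (-1, 5, 4, 2, 15), (-1, 6, 5, 2, 18), (-1, 8, -7, 6, -32), (-1, 8, 3, 2, 10), (-1, 10, -19, 6, -76), (-1, 10, 3, 2, 8), (-1, 11, 4, 6, 17), (-1, 16, -17, 10, -72), (-1, 17, -18, 10, -73),
      (-1, 18, 5, 2, 6), (-1, 18, 19, 10, 76), (-1, 22, 7, 10, 24), (-1, 24, -19, 14, -76), (-1, 31, -25, 18, -101), (-1, 32, 19, 18, 76), (-1, 46, 19, 26, 76), (1, 1, 0, -2, 19), (1, 1, 0, 0, 19), (1, 1, 0, 2, 19),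
      (1, 1, 0, 4, 19), (1, 1, 0, 6, 19), (1, 2, -1, -6, 40), (1, 2, -1, -2, 26), (1, 2, -1, 2, 12), (1, 3, -2, -4, 25), (1, 3, -2, 2, -3), (1, 4, -1, 2, 6), (1, 4, 1, 6, 20), (1, 5, -1, 2, 1), (1, 6, -1, 2, 4), (1, 8, -5, 2, -4),
      (1, 8, 1, 6, 10), (1, 10, -7, 2, -6), (1, 10, 1, 6, 8), (1, 11, -7, 6, -25), (1, 16, -1, 10, -2), (1, 17, -1, 10, -3), (1, 18, -13, 2, -8), (1, 18, 1, 10, 6), (1, 22, -15, 10, -46), (1, 24, 5, 14, 22), (1, 31, 6, 18, 25),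
      (1, 32, -13, 18, -50), (1, 46, -27, 26, -106)]
  | 2, 1 => [(-1, 2, -1, -6, 40), (-1, 2, -1, -2, 26), (-1, 2, -1, 2, 12), (-1, 2, -1, 6, -2), (-1, 3, -2, -4, 25), (-1, 3, -2, 2, -3), (-1, 3, -1, 4, -3), (-1, 8, -5, 2, -4), (-1, 10, -7, 2, -6), (-1, 11, -7, 6, -25), (-1, 13, -8, 8, -33),
      (-1, 18, -13, 2, -8), (-1, 22, -15, 10, -46), (-1, 32, -13, 18, -50), (-1, 38, -19, 22, -76), (-1, 46, -27, 26, -106), (-1, 52, -19, 30, -76), (1, 1, -1, 4, -9), (1, 1, -1, 6, -23), (1, 1, 0, -6, 19), (1, 1, 0, -4, 19),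
      (1, 1, 1, -2, 5), (1, 2, -7, 2, -30), (1, 2, 1, -2, 12), (1, 3, -11, 2, -45), (1, 4, -3, 6, -22), (1, 4, -1, -6, 20), (1, 8, -7, 6, -32), (1, 9, -1, 4, -1), (1, 11, 4, 6, 17), (1, 16, -17, 10, -72), (1, 17, -18, 10, -73),
      (1, 25, -3, 14, -11), (1, 31, -25, 18, -101)]
  | 2, 2 => [(-1, 1, 1, -2, 5), (-1, 4, -1, -6, 20), (-1, 4, -1, 2, 6), (-1, 4, -1, 10, -8), (-1, 4, -1, 18, -22), (-1, 5, -3, 4, -13), (-1, 23, -7, 14, -29), (-1, 66, -19, 38, -76), (-1, 80, -19, 46, -76), (-1, 94, -19, 54, -76),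
      (1, 1, 0, -14, 19), (1, 1, 0, -12, 19), (1, 1, 0, -10, 19), (1, 1, 0, -8, 19), (1, 8, -1, -6, 10), (1, 12, -1, 2, 2), (1, 13, -8, 8, -33), (1, 13, -2, 6, -5), (1, 15, 1, 8, 5), (1, 20, -3, -2, 4), (1, 40, -7, 22, -26),
      (1, 43, -6, 24, -23)]

/-- Multipliers of the relation for row 2 of `V`. -/
def MVH2 : List Tm :=
    [(-3, 1, -2, -3, 4), (-3, 1, -2, -1, 1), (-3, 1, -1, -2, -6), (-3, 1, 0, 0, -5), (-3, 1, 1, -2, 1), (-3, 1, 3, 0, -3), (-3, 2, -3, 0, -5), (-3, 2, 0, -3, -5), (-3, 2, 1, 2, 2), (-3, 3, 0, -2, -1), (-3, 3, 2, -3, -4),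
      (-3, 4, 0, -2, -5), (-3, 4, 0, 1, -5), (-3, 4, 1, 1, -5), (-3, 4, 2, -1, -3), (-3, 5, 0, -3, -2), (-3, 6, -2, 1, -1), (-3, 6, -2, 2, 3), (-3, 6, -1, -2, -4), (-3, 6, 1, -3, 6), (-3, 6, 2, -3, 5), (-3, 6, 2, -2, -1),
      (-2, 1, -1, 0, 2), (-2, 1, 2, 1, 4), (-2, 2, -2, -3, -3), (-2, 2, 3, 0, 1), (-2, 2, 3, 3, 2), (-2, 3, -3, -2, 5), (-2, 3, 2, 0, 6), (-2, 4, 0, -1, -5), (-2, 6, -3, -2, 5), (-2, 6, -3, -1, -1), (-2, 6, -2, -3, 3),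
      (-1, 1, 3, -3, -6), (-1, 2, 3, 3, 4), (-1, 3, -1, -3, 6), (-1, 3, 2, 2, 6), (-1, 4, 2, -3, -6), (-1, 4, 2, -3, 4), (-1, 4, 3, -3, 2), (-1, 5, -3, -3, -1), (-1, 5, -1, 3, -4), (-1, 5, 0, -2, -2), (-1, 5, 0, -1, -2),
      (-1, 6, -1, -2, -2), (-1, 6, -1, 0, -1), (-1, 6, 1, 1, 5), (-1, 6, 2, -2, 5), (-1, 6, 3, 1, 3), (1, 1, 0, 1, 4), (1, 2, -2, -3, -6), (1, 2, -1, 0, 1), (1, 3, -2, -3, 3), (1, 3, -1, -2, 5), (1, 3, 0, -3, -1),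
      (1, 3, 1, -2, -1), (1, 3, 1, -1, 5), (1, 3, 2, 0, 3), (1, 4, 1, 1, 4), (1, 4, 2, -1, 2), (1, 4, 2, 1, -5), (1, 4, 3, -3, 1), (1, 4, 3, 2, -3), (1, 5, -3, 1, -2), (1, 5, -2, -3, -4), (1, 5, -2, -3, 3), (1, 5, -2, -1, -2),
      (1, 5, -2, 2, -1), (1, 5, 1, -3, -2), (1, 5, 1, -3, 6), (1, 5, 1, -1, -2), (1, 5, 1, 1, 6), (1, 6, -1, 3, -4), (1, 6, 1, -2, 6), (1, 6, 2, 1, -2), (2, 1, 3, 3, 2), (2, 2, 1, 0, -3), (2, 2, 2, -1, 1), (2, 3, -3, 2, -2),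
      (2, 3, -2, 0, -4), (2, 3, 1, -1, -1), (2, 3, 3, 0, 5), (2, 4, -3, 0, -5), (2, 4, -2, -3, 4), (2, 4, -1, -1, 4), (2, 4, 0, 0, 1), (2, 4, 1, -1, -3), (2, 4, 2, -3, -3), (2, 5, -3, -2, 3), (2, 5, -3, 2, -2), (2, 5, -2, -1, -4),
      (2, 5, 2, -1, 3), (2, 5, 3, -2, 3), (2, 5, 3, 3, 5), (3, 1, -3, 1, 4), (3, 1, 0, 1, -3), (3, 1, 1, 1, 2), (3, 1, 2, -2, -5), (3, 1, 3, 1, 2), (3, 2, 1, -3, -5), (3, 2, 1, 2, -3), (3, 3, -3, -3, -1), (3, 3, -1, 2, 3),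
      (3, 3, 2, -2, 5), (3, 3, 2, -1, -4), (3, 3, 2, -1, -2), (3, 3, 3, -2, 5), (3, 4, -2, 3, 2), (3, 4, -1, 0, 1), (3, 4, 1, 1, -6), (3, 4, 3, 2, 2), (3, 5, -2, 0, 6), (3, 5, -1, 3, 3), (3, 5, 3, -1, -4)]

end Pool.Agent.Helper14.TH7
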