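import Pool.Agent.Helper4.S7.Tm

/-!
# Project TH (levels `2·7^n`): rows of `T_23`

A term `(k, a, b, c, d)` stands for `k` times the operator of `(a b; 7c d)` (`Helper4/S7/Tm.lean`; `mulL`, `sclL`, `Gd` of W7 are used unchanged). `F_f(g) = G(g e_f) - G(g 0)` with `e_0 = ∞`, `e_1 = 1/2`, `e_2 = 1/4`.
The rows of `T_l` are computed with the residues `-(l-1)/2, ..., (l-1)/2`.
-/

set_option autoImplicit false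

namespace Pool.Agent.Helper14.TH7

open Pool.Agent.Helper4.S7 (Tm mulT mulL sclL Gd)

/-- The rows of `T_23`: `F_i(T_23 G) = ∑_f (T23H i f) F_f(G)`. -/
def T23H : Fin 3 → Fin 3 → List Tm
  | 0, 0 => [(-1, 1, -2, 2, -5), (-1, 1, -1, 4, -5), (-1, 1, -1, 6, -19), (-1, 1, -1, 8, -33), (-1, 1, -1, 10, -47), (-1, 1, 1, -4, -5), (-1, 1, 1, -2, 9), (-1, 2, -3, 2, 2), (-1, 2, 1, -14, -26), (-1, 2, 1, -6, 2), (-1, 2, 3, -2, 2),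
      (-1, 3, 1, -8, -11), (-1, 4, -5, 2, -6), (-1, 5, 2, -2, -1), (-1, 6, -5, 2, -4), (-1, 6, 5, -2, -4), (-1, 10, -9, 2, -8), (-1, 11, 4, -2, -3), (1, 1, 0, -4, 23), (1, 1, 0, -2, 23), (1, 1, 0, 0, 23), (1, 1, 0, 2, 23),
      (1, 1, 0, 4, 23), (1, 1, 0, 6, 23), (1, 1, 0, 8, 23), (1, 1, 0, 10, 23), (1, 2, -1, -14, 72), (1, 2, -1, -6, 44), (1, 2, -1, -2, 30), (1, 2, -1, 2, 16), (1, 3, -2, -8, 45), (1, 4, -1, 2, 8), (1, 5, -3, -2, 13),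
      (1, 6, -1, -2, 10), (1, 6, 1, 2, 10), (1, 10, 1, 2, 6), (1, 11, -7, -2, 11), (1, 23, -15, 0, 1), (1, 23, -14, 0, 1), (1, 23, -13, 0, 1), (1, 23, -12, 0, 1), (1, 23, -11, 0, 1), (1, 23, -10, 0, 1), (1, 23, -9, 0, 1),
      (1, 23, -8, 0, 1), (1, 23, -7, 0, 1), (1, 23, -6, 0, 1), (1, 23, -5, 0, 1), (1, 23, -4, 0, 1), (1, 23, -3, 0, 1), (1, 23, -2, 0, 1), (1, 23, -1, 0, 1), (1, 23, 0, 0, 1), (1, 23, 1, 0, 1), (1, 23, 2, 0, 1), (1, 23, 3, 0, 1),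
      (1, 23, 4, 0, 1), (1, 23, 5, 0, 1), (1, 23, 6, 0, 1), (1, 23, 7, 0, 1)]
  | 0, 1 => [(-1, 2, -1, -14, 72), (-1, 2, -1, -6, 44), (-1, 2, -1, -2, 30), (-1, 2, -1, 2, 16), (-1, 2, -1, 6, 2), (-1, 2, -1, 14, -26), (-1, 3, -2, -8, 45), (-1, 3, -1, 8, -11), (-1, 5, -3, -2, 13), (-1, 5, -2, 2, -1), (-1, 11, -7, -2, 11),
      (-1, 11, -4, 2, -3), (-1, 23, -15, 0, 1), (-1, 23, -14, 0, 1), (-1, 23, -13, 0, 1), (-1, 23, -12, 0, 1), (-1, 23, -11, 0, 1), (-1, 23, -10, 0, 1), (-1, 23, -9, 0, 1), (-1, 23, -8, 0, 1), (1, 1, -2, 2, -5),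
      (1, 1, -1, 6, -19), (1, 1, -1, 8, -33), (1, 1, -1, 10, -47), (1, 1, 0, -10, 23), (1, 1, 0, -8, 23), (1, 1, 0, -6, 23), (1, 1, 1, -2, 9), (1, 4, -5, 2, -6), (1, 4, 1, -2, 8), (1, 10, -9, 2, -8), (1, 10, -1, -2, 6)]
  | 0, 2 => [(-1, 2, -1, 10, -12), (-1, 3, -1, 2, 3), (-1, 4, -1, 2, 8), (-1, 4, -1, 10, -6), (-1, 4, -1, 26, -34), (-1, 5, -1, 4, -1), (-1, 10, -3, 6, -8), (-1, 12, -5, 2, -2), (-1, 23, -7, 0, 1), (-1, 23, -6, 0, 1), (-1, 23, -5, 0, 1),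
      (-1, 26, -7, 2, -2), (1, 1, -1, 4, -5), (1, 1, 0, -18, 23), (1, 1, 0, -14, 23), (1, 1, 0, -12, 23), (1, 2, -1, 14, -26), (1, 3, -1, 8, -11), (1, 3, 1, -2, 3), (1, 6, -5, 2, -4), (1, 6, -1, -14, 24), (1, 8, 1, -2, 4),
      (1, 11, -4, 2, -3), (1, 22, -3, -2, 4)]
  | 1, 0 => [(-1, 1, -2, 2, -5), (-1, 1, -1, 4, -5), (-1, 1, -1, 6, -19), (-1, 1, -1, 8, -33), (-1, 1, -1, 10, -47), (-1, 1, 1, -4, -5), (-1, 1, 1, -2, 9), (-1, 1, 11, 0, 23), (-1, 2, -5, 2, -12), (-1, 2, 1, -14, -26), (-1, 2, 1, -6, 2),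
      (-1, 2, 3, -2, 2), (-1, 3, -4, 2, -11), (-1, 3, 1, -8, -11), (-1, 4, -9, 2, -20), (-1, 5, -7, 2, -15), (-1, 5, 2, -2, -1), (-1, 6, -23, 2, -46), (-1, 8, 23, 2, 46), (-1, 9, 8, 2, 15), (-1, 11, 4, -2, -3), (-1, 12, 7, 2, 12),
      (-1, 13, -18, 4, -37), (-1, 15, 4, 4, 9), (-1, 20, -23, 6, -46), (-1, 22, 23, 6, 46), (-1, 23, 8, 0, 1), (-1, 24, 7, 2, 6), (-1, 27, -25, 8, -51), (-1, 36, 23, 10, 46), (-1, 41, -32, 12, -65), (-1, 50, 23, 14, 46),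
      (-1, 64, 23, 18, 46), (1, 1, 0, -4, 23), (1, 1, 0, -2, 23), (1, 1, 0, 0, 23), (1, 1, 0, 2, 23), (1, 1, 0, 4, 23), (1, 1, 0, 6, 23), (1, 1, 0, 8, 23), (1, 1, 0, 10, 23), (1, 2, -1, -14, 72), (1, 2, -1, -6, 44),
      (1, 2, -1, -2, 30), (1, 2, -1, 2, 16), (1, 3, -2, -8, 45), (1, 3, -1, 2, 3), (1, 4, -1, 2, 8), (1, 5, -3, -2, 13), (1, 5, -2, 2, -1), (1, 6, 1, 2, 10), (1, 8, -1, 2, 4), (1, 9, -1, 2, 1), (1, 11, -7, -2, 11),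
      (1, 12, -5, 2, -2), (1, 13, -5, 4, -9), (1, 15, -11, 4, -19), (1, 20, -3, 6, -4), (1, 22, 1, 6, 4), (1, 23, -15, 0, 1), (1, 24, -17, 2, -8), (1, 27, 2, 8, 5), (1, 36, -13, 10, -24), (1, 41, 9, 12, 19), (1, 50, -27, 14, -52),
      (1, 64, -41, 18, -80)]
  | 1, 1 => [(-1, 2, -1, -14, 72), (-1, 2, -1, -6, 44), (-1, 2, -1, -2, 30), (-1, 2, -1, 2, 16), (-1, 2, -1, 6, 2), (-1, 2, -1, 14, -26), (-1, 3, -2, -8, 45), (-1, 3, -1, 8, -11), (-1, 5, -3, -2, 13), (-1, 5, -2, 2, -1), (-1, 11, -7, -2, 11),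
      (-1, 13, -5, 4, -9), (-1, 15, -11, 4, -19), (-1, 23, -15, 0, 1), (-1, 24, -17, 2, -8), (-1, 34, -23, 10, -46), (-1, 36, -13, 10, -24), (-1, 48, -23, 14, -46), (-1, 50, -27, 14, -52), (-1, 62, -23, 18, -46),
      (-1, 64, -41, 18, -80), (1, 1, -2, 2, -5), (1, 1, -1, 6, -19), (1, 1, -1, 8, -33), (1, 1, -1, 10, -47), (1, 1, 0, -10, 23), (1, 1, 0, -8, 23), (1, 1, 0, -6, 23), (1, 1, 1, -2, 9), (1, 1, 11, 0, 23), (1, 3, -4, 2, -11),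
      (1, 4, -9, 2, -20), (1, 4, 1, -2, 8), (1, 6, -1, -2, 10), (1, 10, 1, 2, 6), (1, 13, -18, 4, -37), (1, 15, 4, 4, 9), (1, 20, -9, 2, -4), (1, 27, -25, 8, -51), (1, 29, -3, 8, -5), (1, 41, -32, 12, -65), (1, 43, -10, 12, -19)]
  | 1, 2 => [(-1, 1, -2, 2, -5), (-1, 2, -1, 10, -12), (-1, 3, -1, 2, 3), (-1, 4, -1, 2, 8), (-1, 4, -1, 10, -6), (-1, 4, -1, 26, -34), (-1, 5, -1, 4, -1), (-1, 8, -3, 6, -10), (-1, 10, -3, 6, -8), (-1, 12, -5, 2, -2), (-1, 17, -5, 6, -11),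
      (-1, 20, -9, 2, -4), (-1, 25, -8, 8, -17), (-1, 43, -10, 12, -19), (-1, 76, -23, 22, -46), (-1, 90, -23, 26, -46), (-1, 104, -23, 30, -46), (1, 1, -1, 4, -5), (1, 1, 0, -18, 23), (1, 1, 0, -14, 23), (1, 1, 0, -12, 23),
      (1, 2, -5, 2, -12), (1, 2, -1, 14, -26), (1, 3, -1, 8, -11), (1, 3, 1, -2, 3), (1, 5, -7, 2, -15), (1, 6, -1, -14, 24), (1, 10, -1, -2, 6), (1, 16, -1, 2, 2), (1, 19, -3, 2, -1), (1, 22, -3, -2, 4), (1, 23, 0, 6, 1),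
      (1, 38, -5, 10, -8), (1, 51, -7, 14, -13)]
  | 2, 0 => [(-1, 1, -2, 2, -5), (-1, 1, -1, 4, -5), (-1, 1, -1, 6, -19), (-1, 1, -1, 8, -33), (-1, 1, -1, 10, -47), (-1, 1, 1, -4, -5), (-1, 1, 1, -2, 9), (-1, 1, 6, 0, 23), (-1, 2, -9, 2, -40), (-1, 2, 1, -14, -26), (-1, 2, 1, -6, 2),
      (-1, 2, 1, -2, 16), (-1, 3, -13, 2, -53), (-1, 3, 1, -8, -11), (-1, 4, 23, 2, 92), (-1, 5, -6, 4, -29), (-1, 5, 2, -2, -1), (-1, 5, 3, 2, 13), (-1, 9, 4, 4, 15), (-1, 10, -23, 6, -92), (-1, 11, 4, -2, -3),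
      (-1, 11, 6, 6, 25), (-1, 16, -13, 10, -54), (-1, 16, 5, 6, 16), (-1, 17, -20, 10, -81), (-1, 18, 23, 10, 92), (-1, 24, -23, 14, -92), (-1, 31, -27, 18, -109), (-1, 32, 23, 18, 92), (-1, 45, -34, 26, -137),
      (-1, 46, 23, 26, 92), (-1, 60, 23, 34, 92), (1, 1, 0, -4, 23), (1, 1, 0, -2, 23), (1, 1, 0, 0, 23), (1, 1, 0, 2, 23), (1, 1, 0, 4, 23), (1, 1, 0, 6, 23), (1, 1, 0, 8, 23), (1, 1, 0, 10, 23), (1, 2, -1, -14, 72),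
      (1, 2, -1, -6, 44), (1, 2, -1, -2, 30), (1, 2, -1, 2, 16), (1, 3, -2, -8, 45), (1, 3, -1, 2, 3), (1, 4, -1, 2, 8), (1, 5, -3, -2, 13), (1, 5, -2, 2, -1), (1, 5, -1, 4, -1), (1, 9, -5, 4, -13), (1, 10, -3, 6, -8),
      (1, 11, -7, -2, 11), (1, 11, -5, 6, -17), (1, 16, -11, 6, -26), (1, 16, 3, 10, 16), (1, 17, -3, 10, -11), (1, 18, 5, 10, 22), (1, 24, 1, 14, 6), (1, 31, 4, 18, 17), (1, 32, -9, 18, -34), (1, 45, 11, 26, 45),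
      (1, 46, -23, 26, -90), (1, 60, -37, 34, -146)]
  | 2, 1 => [(-1, 2, -1, -14, 72), (-1, 2, -1, -6, 44), (-1, 2, -1, -2, 30), (-1, 2, -1, 2, 16), (-1, 2, -1, 6, 2), (-1, 2, -1, 14, -26), (-1, 3, -2, -8, 45), (-1, 3, -1, 8, -11), (-1, 5, -3, -2, 13), (-1, 5, -2, 2, -1), (-1, 9, -5, 4, -13),
      (-1, 11, -7, -2, 11), (-1, 11, -5, 6, -17), (-1, 13, -9, 8, -37), (-1, 16, -11, 6, -26), (-1, 22, -9, 14, -38), (-1, 38, -23, 22, -92), (-1, 46, -23, 26, -90), (-1, 52, -23, 30, -92), (-1, 60, -37, 34, -146),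
      (-1, 66, -23, 38, -92), (1, 1, -1, 6, -19), (1, 1, -1, 8, -33), (1, 1, -1, 10, -47), (1, 1, 0, -10, 23), (1, 1, 0, -8, 23), (1, 1, 0, -6, 23), (1, 2, -9, 2, -40), (1, 2, 1, -2, 16), (1, 3, -13, 2, -53), (1, 5, -6, 4, -29),
      (1, 6, -1, -2, 10), (1, 6, 1, 2, 10), (1, 8, -1, 2, 4), (1, 11, 6, 6, 25), (1, 12, -5, 2, -2), (1, 16, -13, 10, -54), (1, 17, -20, 10, -81), (1, 25, -1, 14, -3), (1, 31, -27, 18, -109), (1, 39, -8, 22, -31),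
      (1, 45, -34, 26, -137)]
  | 2, 2 => [(-1, 2, -1, 10, -12), (-1, 3, -2, 4, -11), (-1, 3, -1, 2, 3), (-1, 4, -1, 2, 8), (-1, 4, -1, 10, -6), (-1, 4, -1, 26, -34), (-1, 5, -1, 4, -1), (-1, 8, -3, 6, -10), (-1, 10, -3, 6, -8), (-1, 12, -5, 2, -2), (-1, 32, -9, 18, -34),
      (-1, 37, -10, 22, -41), (-1, 39, -8, 22, -31), (-1, 80, -23, 46, -92), (-1, 94, -23, 54, -92), (-1, 108, -23, 62, -92), (1, 1, -1, 4, -5), (1, 1, 0, -18, 23), (1, 1, 0, -14, 23), (1, 1, 0, -12, 23), (1, 1, 1, -2, 9),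
      (1, 2, -1, 14, -26), (1, 3, -1, 8, -11), (1, 6, -1, -14, 24), (1, 9, -1, 2, 1), (1, 10, -1, -2, 6), (1, 11, -2, 4, -3), (1, 13, -9, 8, -37), (1, 15, 2, 8, 9), (1, 22, -9, 14, -38), (1, 26, -1, 14, -2), (1, 43, -5, 24, -19)]

end Pool.Agent.Helper14.TH7
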