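import Pool.Agent.Helper4.S7.Tm

/-!
# Project TH (levels `2·7^n`): rows of `T_29`

A term `(k, a, b, c, d)` stands for `k` times the operator of `(a b; 7c d)` (`Helper4/S7/Tm.lean`; `mulL`, `sclL`, `Gd` of W7 are used unchanged). `F_f(g) = G(g e_f) - G(g 0)` with `e_0 = ∞`, `e_1 = 1/2`, `e_2 = 1/4`.
The rows of `T_l` are computed with the residues `-(l-1)/2, ..., (l-1)/2`.
-/

set_option autoImplicit false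

namespace Pool.Agent.Helper14.TH7

open Pool.Agent.Helper4.S7 (Tm mulT mulL sclL Gd)

/-- Row 0 of `T_29`. -/
def T29H0 : Fin 3 → List Tm
  | 0 => [(-1, 1, -2, 2, 1), (-1, 1, -1, 4, 1), (-1, 1, -1, 6, -13), (-1, 1, -1, 8, -27), (-1, 1, -1, 10, -41), (-1, 1, -1, 14, -69), (-1, 1, 1, -4, 1), (-1, 1, 2, -2, 1), (-1, 2, -5, 2, -6), (-1, 2, 1, -18, -34), (-1, 2, 1, -10, -6),
      (-1, 2, 1, -6, 8), (-1, 2, 3, -2, 8), (-1, 3, -4, 2, -9), (-1, 3, 1, -8, -9), (-1, 4, -3, 10, -38), (-1, 4, 3, -2, 4), (-1, 6, -5, 2, -2), (-1, 6, 5, -2, -2), (-1, 8, 3, -2, 2), (-1, 9, 4, -2, -3), (-1, 10, 7, -2, -4),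
      (-1, 12, -11, 2, -8), (1, 1, 0, -4, 29), (1, 1, 0, -2, 29), (1, 1, 0, 0, 29), (1, 1, 0, 2, 29), (1, 1, 0, 4, 29), (1, 1, 0, 6, 29), (1, 1, 0, 8, 29), (1, 1, 0, 10, 29), (1, 1, 0, 14, 29), (1, 2, -1, -18, 92),
      (1, 2, -1, -10, 64), (1, 2, -1, -6, 50), (1, 2, -1, -2, 36), (1, 2, -1, 2, 22), (1, 3, -2, -8, 47), (1, 3, -1, 2, 5), (1, 4, -1, -2, 18), (1, 4, 1, 10, 32), (1, 6, -1, -2, 12), (1, 6, 1, 2, 12), (1, 8, -5, -2, 16),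
      (1, 9, -5, -2, 11), (1, 10, -3, -2, 10), (1, 12, 1, 2, 6), (1, 29, -19, 0, 1), (1, 29, -18, 0, 1), (1, 29, -17, 0, 1), (1, 29, -16, 0, 1), (1, 29, -15, 0, 1), (1, 29, -14, 0, 1), (1, 29, -13, 0, 1), (1, 29, -12, 0, 1),
      (1, 29, -11, 0, 1), (1, 29, -10, 0, 1), (1, 29, -9, 0, 1), (1, 29, -8, 0, 1), (1, 29, -7, 0, 1), (1, 29, -6, 0, 1), (1, 29, -5, 0, 1), (1, 29, -4, 0, 1), (1, 29, -3, 0, 1), (1, 29, -2, 0, 1), (1, 29, -1, 0, 1),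
      (1, 29, 0, 0, 1), (1, 29, 1, 0, 1), (1, 29, 2, 0, 1), (1, 29, 3, 0, 1), (1, 29, 4, 0, 1), (1, 29, 5, 0, 1), (1, 29, 6, 0, 1), (1, 29, 7, 0, 1), (1, 29, 8, 0, 1), (1, 29, 9, 0, 1)]
  | 1 => [(-1, 2, -1, -18, 92), (-1, 2, -1, -10, 64), (-1, 2, -1, -6, 50), (-1, 2, -1, -2, 36), (-1, 2, -1, 2, 22), (-1, 2, -1, 6, 8), (-1, 2, -1, 10, -6), (-1, 2, -1, 18, -34), (-1, 3, -2, -8, 47), (-1, 3, -1, 8, -9), (-1, 4, -3, 2, 4),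
      (-1, 4, -1, -2, 18), (-1, 8, -5, -2, 16), (-1, 8, -3, 2, 2), (-1, 9, -5, -2, 11), (-1, 9, -4, 2, -3), (-1, 10, -7, 2, -4), (-1, 10, -3, -2, 10), (-1, 29, -19, 0, 1), (-1, 29, -18, 0, 1), (-1, 29, -17, 0, 1),
      (-1, 29, -16, 0, 1), (-1, 29, -15, 0, 1), (-1, 29, -14, 0, 1), (-1, 29, -13, 0, 1), (-1, 29, -12, 0, 1), (-1, 29, -11, 0, 1), (-1, 29, -10, 0, 1), (1, 1, -1, 6, -13), (1, 1, -1, 8, -27), (1, 1, -1, 10, -41),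
      (1, 1, -1, 14, -69), (1, 1, 0, -14, 29), (1, 1, 0, -10, 29), (1, 1, 0, -8, 29), (1, 1, 0, -6, 29), (1, 2, -5, 2, -6), (1, 2, 3, -2, 8), (1, 3, -4, 2, -9), (1, 3, 1, -2, 5), (1, 4, -3, 10, -38), (1, 4, -1, -10, 32),
      (1, 12, -11, 2, -8), (1, 12, -1, -2, 6)]
  | 2 => [(-1, 3, -1, 2, 5), (-1, 4, -1, -10, 32), (-1, 4, -1, 6, 4), (-1, 4, -1, 14, -10), (-1, 4, -1, 30, -38), (-1, 5, -1, 12, -11), (-1, 9, -2, 4, -3), (-1, 13, -3, 2, -1), (-1, 20, -7, 2, -2), (-1, 29, -9, 0, 1), (-1, 29, -8, 0, 1),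
      (-1, 29, -7, 0, 1), (-1, 29, -6, 0, 1), (-1, 34, -9, 2, -2), (1, 1, 0, -22, 29), (1, 1, 0, -18, 29), (1, 1, 0, -16, 29), (1, 1, 0, -12, 29), (1, 2, -1, 18, -34), (1, 4, 3, -2, 4), (1, 5, 1, -2, 3), (1, 6, -1, -26, 40),
      (1, 8, -1, -10, 16), (1, 9, -4, 2, -3), (1, 10, -7, 2, -4), (1, 10, -1, -6, 10), (1, 18, -1, -2, 4), (1, 32, -5, -2, 4)]

/-- Row 1 of `T_29`. -/
def T29H1 : Fin 3 → List Tm
  | 0 => [(-1, 1, -3, 2, -13), (-1, 1, -1, 4, 1), (-1, 1, -1, 6, -13), (-1, 1, -1, 8, -27), (-1, 1, -1, 10, -41), (-1, 1, -1, 14, -69), (-1, 1, 1, -4, 1), (-1, 1, 2, -2, 1), (-1, 1, 14, 0, 29), (-1, 2, -7, 2, -20), (-1, 2, 1, -18, -34),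
      (-1, 2, 1, -10, -6), (-1, 2, 1, -6, 8), (-1, 2, 3, -2, 8), (-1, 3, -4, 2, -9), (-1, 3, 1, -8, -9), (-1, 4, -11, 2, -24), (-1, 4, -3, 10, -38), (-1, 4, 3, -2, 4), (-1, 5, -6, 2, -11), (-1, 6, -29, 2, -58), (-1, 6, 5, -2, -2),
      (-1, 8, 3, -2, 2), (-1, 8, 29, 2, 58), (-1, 9, 5, 2, 11), (-1, 10, 3, 2, 10), (-1, 11, 5, 2, 9), (-1, 13, -21, 4, -43), (-1, 15, 7, 4, 15), (-1, 16, 5, 2, 8), (-1, 20, -29, 6, -58), (-1, 22, 29, 6, 58), (-1, 23, 13, 6, 25),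
      (-1, 26, 7, 2, 6), (-1, 26, 11, 6, 20), (-1, 27, -28, 8, -57), (-1, 29, 10, 0, 1), (-1, 34, -29, 10, -58), (-1, 36, 29, 10, 58), (-1, 41, -35, 12, -71), (-1, 50, 29, 14, 58), (-1, 55, -42, 16, -85), (-1, 64, 29, 18, 58),
      (-1, 78, 29, 22, 58), (1, 1, 0, -4, 29), (1, 1, 0, -2, 29), (1, 1, 0, 0, 29), (1, 1, 0, 2, 29), (1, 1, 0, 4, 29), (1, 1, 0, 6, 29), (1, 1, 0, 8, 29), (1, 1, 0, 10, 29), (1, 1, 0, 14, 29), (1, 2, -1, -18, 92),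
      (1, 2, -1, -10, 64), (1, 2, -1, -6, 50), (1, 2, -1, -2, 36), (1, 2, -1, 2, 22), (1, 3, -2, -8, 47), (1, 3, -1, 2, 5), (1, 4, -3, 2, 4), (1, 4, -1, -2, 18), (1, 4, 1, 10, 32), (1, 5, -1, 2, 3), (1, 6, -1, -2, 12),
      (1, 6, 1, 2, 12), (1, 8, -5, -2, 16), (1, 8, -3, 2, 2), (1, 9, -4, 2, -3), (1, 10, -7, 2, -4), (1, 11, -6, 2, -5), (1, 13, -8, 4, -15), (1, 15, -8, 4, -13), (1, 16, -11, 2, -6), (1, 20, -9, 6, -16), (1, 22, -15, 6, -26),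
      (1, 23, -10, 6, -17), (1, 26, -19, 2, -8), (1, 26, -15, 6, -22), (1, 27, -1, 8, -1), (1, 29, -19, 0, 1), (1, 34, 5, 10, 12), (1, 36, -7, 10, -12), (1, 41, 6, 12, 13), (1, 50, -21, 14, -40), (1, 55, 13, 16, 27),
      (1, 64, -35, 18, -68), (1, 78, -49, 22, -96)]
  | 1 => [(-1, 2, -1, -18, 92), (-1, 2, -1, -10, 64), (-1, 2, -1, -6, 50), (-1, 2, -1, -2, 36), (-1, 2, -1, 2, 22), (-1, 2, -1, 6, 8), (-1, 2, -1, 10, -6), (-1, 2, -1, 18, -34), (-1, 3, -2, -8, 47), (-1, 3, -1, 8, -9), (-1, 4, -3, 2, 4),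
      (-1, 4, -1, -2, 18), (-1, 8, -5, -2, 16), (-1, 8, -3, 2, 2), (-1, 9, -4, 2, -3), (-1, 10, -7, 2, -4), (-1, 11, -6, 2, -5), (-1, 13, -8, 4, -15), (-1, 15, -8, 4, -13), (-1, 16, -11, 2, -6), (-1, 16, -9, 6, -20),
      (-1, 19, -12, 6, -25), (-1, 20, -9, 6, -16), (-1, 22, -15, 6, -26), (-1, 23, -10, 6, -17), (-1, 26, -19, 2, -8), (-1, 26, -15, 6, -22), (-1, 29, -19, 0, 1), (-1, 48, -29, 14, -58), (-1, 50, -21, 14, -40),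
      (-1, 62, -29, 18, -58), (-1, 64, -35, 18, -68), (-1, 76, -29, 22, -58), (-1, 78, -49, 22, -96), (1, 1, -3, 2, -13), (1, 1, -1, 6, -13), (1, 1, -1, 8, -27), (1, 1, -1, 10, -41), (1, 1, -1, 14, -69), (1, 1, 0, -14, 29),
      (1, 1, 0, -10, 29), (1, 1, 0, -8, 29), (1, 1, 0, -6, 29), (1, 1, 14, 0, 29), (1, 2, -7, 2, -20), (1, 3, 1, -2, 5), (1, 4, -11, 2, -24), (1, 4, -3, 10, -38), (1, 4, -1, -10, 32), (1, 10, 3, 2, 10), (1, 12, 1, 2, 6),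
      (1, 13, -21, 4, -43), (1, 13, -3, 2, -1), (1, 15, 7, 4, 15), (1, 23, -7, 2, -3), (1, 24, -11, 2, -4), (1, 27, -28, 8, -57), (1, 29, 0, 8, 1), (1, 41, -35, 12, -71), (1, 43, -7, 12, -13), (1, 55, -42, 16, -85),
      (1, 57, -14, 16, -27)]
  | 2 => [(-1, 3, -1, 2, 5), (-1, 3, 1, -2, 5), (-1, 4, -1, -10, 32), (-1, 4, -1, 6, 4), (-1, 4, -1, 14, -10), (-1, 4, -1, 30, -38), (-1, 5, -1, 12, -11), (-1, 9, -2, 4, -3), (-1, 11, -3, 4, -5), (-1, 13, -3, 2, -1), (-1, 23, -7, 2, -3),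
      (-1, 24, -11, 2, -4), (-1, 25, -9, 8, -19), (-1, 57, -14, 16, -27), (-1, 90, -29, 26, -58), (-1, 104, -29, 30, -58), (-1, 118, -29, 34, -58), (-1, 132, -29, 38, -58), (1, 1, 0, -22, 29), (1, 1, 0, -18, 29),
      (1, 1, 0, -16, 29), (1, 1, 0, -12, 29), (1, 2, -1, 18, -34), (1, 5, 1, -2, 3), (1, 6, -1, -26, 40), (1, 8, -1, -10, 16), (1, 9, 5, 2, 11), (1, 10, -1, -6, 10), (1, 12, -1, -2, 6), (1, 16, -9, 6, -20), (1, 19, -12, 6, -25),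
      (1, 32, -5, -2, 4), (1, 37, -2, 10, -3), (1, 38, -3, 10, -4), (1, 40, -9, 6, -8), (1, 65, -9, 18, -17)]

end Pool.Agent.Helper14.TH7
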