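import Pool.Agent.Helper4.S7.Tm

/-!
# Project TH (levels `2·7^n`): rows of `T_29` and `T_37`

A term `(k, a, b, c, d)` stands for `k` times the operator of `(a b; 7c d)` (`Helper4/S7/Tm.lean`; `mulL`, `sclL`, `Gd` of W7 are used unchanged). `F_f(g) = G(g e_f) - G(g 0)` with `e_0 = ∞`, `e_1 = 1/2`, `e_2 = 1/4`.
The rows of `T_l` are computed with the residues `-(l-1)/2, ..., (l-1)/2`.
-/

set_option autoImplicit false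

namespace Pool.Agent.Helper14.TH7

open Pool.Agent.Helper4.S7 (Tm mulT mulL sclL Gd)

/-- Row 2 of `T_29`. -/
def T29H2 : Fin 3 → List Tm
  | 0 => [(-1, 1, -3, 2, -13), (-1, 1, -1, 4, 1), (-1, 1, -1, 6, -13), (-1, 1, -1, 8, -27), (-1, 1, -1, 10, -41), (-1, 1, -1, 14, -69), (-1, 1, 1, -4, 1), (-1, 1, 1, -2, 15), (-1, 1, 7, 0, 29), (-1, 2, -11, 2, -48), (-1, 2, 1, -18, -34),
      (-1, 2, 1, -10, -6), (-1, 2, 1, -6, 8), (-1, 2, 3, -2, 8), (-1, 3, -16, 2, -65), (-1, 3, 1, -8, -9), (-1, 4, -3, 10, -38), (-1, 4, 29, 2, 116), (-1, 5, 4, 2, 17), (-1, 6, 7, 2, 26), (-1, 8, -9, 6, -40), (-1, 8, 3, -2, 2),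
      (-1, 8, 5, 2, 16), (-1, 10, -29, 6, -116), (-1, 10, 3, 2, 10), (-1, 11, 9, 6, 37), (-1, 15, 11, 8, 43), (-1, 16, -15, 10, -62), (-1, 16, 5, 2, 8), (-1, 17, -23, 10, -93), (-1, 18, 29, 10, 116), (-1, 24, -29, 14, -116),
      (-1, 26, 7, 2, 6), (-1, 31, -30, 18, -121), (-1, 32, 29, 18, 116), (-1, 38, -29, 22, -116), (-1, 45, -37, 26, -149), (-1, 46, 29, 26, 116), (-1, 60, 29, 34, 116), (-1, 74, 29, 42, 116), (1, 1, 0, -4, 29), (1, 1, 0, -2, 29),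
      (1, 1, 0, 0, 29), (1, 1, 0, 2, 29), (1, 1, 0, 4, 29), (1, 1, 0, 6, 29), (1, 1, 0, 8, 29), (1, 1, 0, 10, 29), (1, 1, 0, 14, 29), (1, 2, -1, -18, 92), (1, 2, -1, -10, 64), (1, 2, -1, -6, 50), (1, 2, -1, -2, 36),
      (1, 2, -1, 2, 22), (1, 3, -2, -8, 47), (1, 3, -1, 2, 5), (1, 4, -3, 2, 4), (1, 4, 1, 10, 32), (1, 5, -1, 2, 3), (1, 6, 1, 2, 12), (1, 8, -5, -2, 16), (1, 8, -3, 2, 2), (1, 8, -1, 6, 2), (1, 10, -7, 2, -4), (1, 10, 1, 6, 10),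
      (1, 11, -2, 6, -5), (1, 15, -4, 8, -13), (1, 16, -11, 2, -6), (1, 16, 1, 10, 8), (1, 17, -6, 10, -23), (1, 18, -7, 10, -24), (1, 24, -5, 14, -18), (1, 26, -19, 2, -8), (1, 31, 1, 18, 5), (1, 32, -3, 18, -10),
      (1, 38, 9, 22, 38), (1, 45, 8, 26, 33), (1, 46, -17, 26, -66), (1, 60, -31, 34, -122), (1, 74, -45, 42, -178)]
  | 1 => [(-1, 2, -1, -18, 92), (-1, 2, -1, -10, 64), (-1, 2, -1, -6, 50), (-1, 2, -1, -2, 36), (-1, 2, -1, 2, 22), (-1, 2, -1, 6, 8), (-1, 2, -1, 10, -6), (-1, 2, -1, 18, -34), (-1, 3, -2, -8, 47), (-1, 3, -1, 8, -9), (-1, 4, -3, 2, 4),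
      (-1, 5, -3, 4, -11), (-1, 8, -5, -2, 16), (-1, 8, -3, 2, 2), (-1, 10, -7, 2, -4), (-1, 13, -4, 8, -15), (-1, 16, -11, 2, -6), (-1, 17, -6, 10, -23), (-1, 18, -7, 10, -24), (-1, 26, -19, 2, -8), (-1, 27, -14, 16, -57),
      (-1, 36, -13, 22, -54), (-1, 46, -17, 26, -66), (-1, 52, -29, 30, -116), (-1, 60, -31, 34, -122), (-1, 66, -29, 38, -116), (-1, 74, -45, 42, -178), (-1, 80, -29, 46, -116), (1, 1, -1, 6, -13), (1, 1, -1, 8, -27),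
      (1, 1, -1, 10, -41), (1, 1, -1, 14, -69), (1, 1, 0, -14, 29), (1, 1, 0, -10, 29), (1, 1, 0, -8, 29), (1, 1, 0, -6, 29), (1, 1, 1, -2, 15), (1, 2, -11, 2, -48), (1, 3, -16, 2, -65), (1, 3, 1, -2, 5), (1, 4, -3, 10, -38),
      (1, 4, -1, -10, 32), (1, 6, -1, -2, 12), (1, 8, -9, 6, -40), (1, 9, -2, 4, -3), (1, 11, -3, 4, -5), (1, 11, 9, 6, 37), (1, 16, -15, 10, -62), (1, 17, -23, 10, -93), (1, 23, -5, 12, -17), (1, 25, 2, 14, 9), (1, 26, 1, 14, 6),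
      (1, 31, -30, 18, -121), (1, 39, -5, 22, -19), (1, 45, -37, 26, -149), (1, 53, -12, 30, -47)]
  | 2 => [(-1, 3, -2, 4, -9), (-1, 3, -1, 2, 5), (-1, 3, 1, -2, 5), (-1, 4, -1, -10, 32), (-1, 4, -1, 6, 4), (-1, 4, -1, 14, -10), (-1, 4, -1, 30, -38), (-1, 5, -2, 6, -11), (-1, 5, -1, 12, -11), (-1, 9, -2, 4, -3), (-1, 11, -3, 4, -5),
      (-1, 15, -4, 8, -13), (-1, 17, -5, 12, -23), (-1, 18, -5, 14, -24), (-1, 19, -6, 12, -25), (-1, 22, -5, 18, -26), (-1, 23, -5, 12, -17), (-1, 37, -11, 22, -45), (-1, 53, -12, 30, -47), (-1, 94, -29, 54, -116),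
      (-1, 108, -29, 62, -116), (-1, 122, -29, 70, -116), (-1, 136, -29, 78, -116), (1, 1, 0, -22, 29), (1, 1, 0, -18, 29), (1, 1, 0, -16, 29), (1, 1, 0, -12, 29), (1, 1, 7, 0, 29), (1, 2, -1, 18, -34), (1, 6, -1, -26, 40),
      (1, 8, -1, -10, 16), (1, 10, -1, -6, 10), (1, 13, -1, 6, -1), (1, 27, -14, 16, -57), (1, 29, 0, 16, 1), (1, 32, -5, -2, 4), (1, 36, -13, 22, -54), (1, 57, -7, 32, -27), (1, 68, -13, 38, -50), (1, 85, -14, 48, -55)]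

/-- Row 0 of `T_37`. -/
def T37H0 : Fin 3 → List Tm
  | 0 => [(-1, 1, -3, 2, -5), (-1, 1, -2, 4, -19), (-1, 1, -1, 6, -5), (-1, 1, -1, 8, -19), (-1, 1, -1, 10, -33), (-1, 1, -1, 12, -47), (-1, 1, -1, 16, -75), (-1, 1, -1, 18, -89), (-1, 1, 1, -6, -5), (-1, 1, 1, -4, 9), (-1, 1, 2, -2, 9),
      (-1, 2, -5, 2, 2), (-1, 2, -3, 6, -26), (-1, 2, 1, -26, -54), (-1, 2, 1, -22, -40), (-1, 2, 1, -14, -12), (-1, 2, 1, -10, 2), (-1, 2, 1, -6, 16), (-1, 2, 5, -2, 2), (-1, 3, -2, 2, 3), (-1, 3, 1, -10, -11), (-1, 3, 2, -2, 3),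
      (-1, 4, -7, 2, -6), (-1, 4, -3, 18, -76), (-1, 4, 3, -2, 8), (-1, 5, 3, -2, -1), (-1, 6, -7, 2, -4), (-1, 6, -5, 10, -46), (-1, 6, 7, -2, -4), (-1, 8, 3, -2, 4), (-1, 10, -11, 2, -8), (-1, 11, 5, -2, -3),
      (-1, 12, 7, -2, -2), (-1, 20, 11, -2, -4), (-1, 24, -19, 2, -8), (1, 1, 0, -6, 37), (1, 1, 0, -4, 37), (1, 1, 0, -2, 37), (1, 1, 0, 0, 37), (1, 1, 0, 2, 37), (1, 1, 0, 4, 37), (1, 1, 0, 6, 37), (1, 1, 0, 8, 37),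
      (1, 1, 0, 10, 37), (1, 1, 0, 12, 37), (1, 1, 0, 16, 37), (1, 1, 0, 18, 37), (1, 2, -1, -26, 128), (1, 2, -1, -22, 114), (1, 2, -1, -14, 86), (1, 2, -1, -10, 72), (1, 2, -1, -6, 58), (1, 2, -1, -2, 44), (1, 2, -1, 2, 30),
      (1, 2, -1, 6, 16), (1, 3, -2, -10, 59), (1, 3, -1, -2, 17), (1, 3, 1, 2, 17), (1, 4, -3, 2, 8), (1, 4, -1, -2, 22), (1, 4, 1, 18, 50), (1, 5, -2, -2, 13), (1, 6, -1, 2, 10), (1, 6, 1, -2, 10), (1, 6, 1, 10, 24),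
      (1, 8, -5, -2, 18), (1, 10, -1, 2, 6), (1, 11, -6, -2, 11), (1, 12, -5, -2, 12), (1, 20, -9, -2, 10), (1, 24, 5, 2, 6), (1, 37, -24, 0, 1), (1, 37, -23, 0, 1), (1, 37, -22, 0, 1), (1, 37, -21, 0, 1), (1, 37, -20, 0, 1),
      (1, 37, -19, 0, 1), (1, 37, -18, 0, 1), (1, 37, -17, 0, 1), (1, 37, -16, 0, 1), (1, 37, -15, 0, 1), (1, 37, -14, 0, 1), (1, 37, -13, 0, 1), (1, 37, -12, 0, 1), (1, 37, -11, 0, 1), (1, 37, -10, 0, 1), (1, 37, -9, 0, 1),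
      (1, 37, -8, 0, 1), (1, 37, -7, 0, 1), (1, 37, -6, 0, 1), (1, 37, -5, 0, 1), (1, 37, -4, 0, 1), (1, 37, -3, 0, 1), (1, 37, -2, 0, 1), (1, 37, -1, 0, 1), (1, 37, 0, 0, 1), (1, 37, 1, 0, 1), (1, 37, 2, 0, 1), (1, 37, 3, 0, 1),
      (1, 37, 4, 0, 1), (1, 37, 5, 0, 1), (1, 37, 6, 0, 1), (1, 37, 7, 0, 1), (1, 37, 8, 0, 1), (1, 37, 9, 0, 1), (1, 37, 10, 0, 1), (1, 37, 11, 0, 1), (1, 37, 12, 0, 1)]
  | 1 => [(-1, 2, -1, -26, 128), (-1, 2, -1, -22, 114), (-1, 2, -1, -14, 86), (-1, 2, -1, -10, 72), (-1, 2, -1, -6, 58), (-1, 2, -1, -2, 44), (-1, 2, -1, 2, 30), (-1, 2, -1, 6, 16), (-1, 2, -1, 10, 2), (-1, 2, -1, 14, -12),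
      (-1, 2, -1, 22, -40), (-1, 2, -1, 26, -54), (-1, 3, -2, -10, 59), (-1, 3, -1, 10, -11), (-1, 4, -3, 2, 8), (-1, 4, -1, -2, 22), (-1, 5, -3, 2, -1), (-1, 5, -2, -2, 13), (-1, 8, -5, -2, 18), (-1, 8, -3, 2, 4),
      (-1, 11, -6, -2, 11), (-1, 11, -5, 2, -3), (-1, 12, -7, 2, -2), (-1, 12, -5, -2, 12), (-1, 20, -11, 2, -4), (-1, 20, -9, -2, 10), (-1, 37, -24, 0, 1), (-1, 37, -23, 0, 1), (-1, 37, -22, 0, 1), (-1, 37, -21, 0, 1),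
      (-1, 37, -20, 0, 1), (-1, 37, -19, 0, 1), (-1, 37, -18, 0, 1), (-1, 37, -17, 0, 1), (-1, 37, -16, 0, 1), (-1, 37, -15, 0, 1), (-1, 37, -14, 0, 1), (-1, 37, -13, 0, 1), (1, 1, -3, 2, -5), (1, 1, -2, 4, -19),
      (1, 1, -1, 8, -19), (1, 1, -1, 10, -33), (1, 1, -1, 12, -47), (1, 1, -1, 16, -75), (1, 1, -1, 18, -89), (1, 1, 0, -18, 37), (1, 1, 0, -16, 37), (1, 1, 0, -12, 37), (1, 1, 0, -10, 37), (1, 1, 0, -8, 37), (1, 1, 1, -4, 9),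
      (1, 1, 2, -2, 9), (1, 2, -3, 6, -26), (1, 2, 1, -6, 16), (1, 4, -7, 2, -6), (1, 4, -3, 18, -76), (1, 4, -1, -18, 50), (1, 4, 3, -2, 8), (1, 6, -5, 10, -46), (1, 6, -1, -10, 24), (1, 10, -11, 2, -8), (1, 10, 1, -2, 6),
      (1, 24, -19, 2, -8), (1, 24, -5, -2, 6)]
  | 2 => [(-1, 3, -1, -2, 17), (-1, 3, -1, 4, 3), (-1, 4, -1, -18, 50), (-1, 4, -1, 6, 8), (-1, 4, -1, 14, -6), (-1, 4, -1, 38, -48), (-1, 5, -1, 6, -1), (-1, 5, -1, 16, -15), (-1, 6, -1, -10, 24), (-1, 9, -2, 2, 1), (-1, 16, -3, 2, 2),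
      (-1, 19, -4, 2, -1), (-1, 24, -5, -2, 6), (-1, 26, -9, 2, -2), (-1, 37, -12, 0, 1), (-1, 37, -11, 0, 1), (-1, 37, -10, 0, 1), (-1, 37, -9, 0, 1), (-1, 37, -8, 0, 1), (-1, 40, -11, 2, -2), (1, 1, 0, -28, 37),
      (1, 1, 0, -22, 37), (1, 1, 0, -20, 37), (1, 1, 0, -14, 37), (1, 2, -1, 22, -40), (1, 2, -1, 26, -54), (1, 3, 2, -2, 3), (1, 5, -1, -4, 13), (1, 6, -7, 2, -4), (1, 6, -1, -34, 52), (1, 6, -1, -22, 38), (1, 8, -1, -10, 18),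
      (1, 8, 3, -2, 4), (1, 11, -5, 2, -3), (1, 11, -2, -6, 11), (1, 13, -2, -2, 5), (1, 20, -11, 2, -4), (1, 20, -3, -6, 10), (1, 22, -1, -2, 4), (1, 36, -5, -2, 4)]

end Pool.Agent.Helper14.TH7
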