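import Pool.Agent.Helper4.S7.Tm

/-!
# Project TH (levels `2·7^n`): rows of `T_37`

A term `(k, a, b, c, d)` stands for `k` times the operator of `(a b; 7c d)` (`Helper4/S7/Tm.lean`; `mulL`, `sclL`, `Gd` of W7 are used unchanged). `F_f(g) = G(g e_f) - G(g 0)` with `e_0 = ∞`, `e_1 = 1/2`, `e_2 = 1/4`.
The rows of `T_l` are computed with the residues `-(l-1)/2, ..., (l-1)/2`.
-/

set_option autoImplicit false

namespace Pool.Agent.Helper14.TH7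

open Pool.Agent.Helper4.S7 (Tm mulT mulL sclL Gd)

/-- Row 1 of `T_37`. -/
def T37H1 : Fin 3 → List Tm
  | 0 => [(-1, 1, -3, 2, -5), (-1, 1, -2, 4, -19), (-1, 1, -1, 6, -5), (-1, 1, -1, 8, -19), (-1, 1, -1, 10, -33), (-1, 1, -1, 12, -47), (-1, 1, -1, 16, -75), (-1, 1, -1, 18, -89), (-1, 1, 1, -6, -5), (-1, 1, 1, -4, 9), (-1, 1, 2, -2, 9),
      (-1, 1, 18, 0, 37), (-1, 2, -7, 2, -12), (-1, 2, -3, 6, -26), (-1, 2, 1, -26, -54), (-1, 2, 1, -22, -40), (-1, 2, 1, -14, -12), (-1, 2, 1, -10, 2), (-1, 2, 1, -6, 16), (-1, 2, 3, -2, 16), (-1, 3, -5, 2, -11),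
      (-1, 3, 1, -10, -11), (-1, 3, 2, -2, 3), (-1, 4, -15, 2, -34), (-1, 4, -3, 18, -76), (-1, 4, 3, -2, 8), (-1, 5, -8, 2, -15), (-1, 5, 3, -2, -1), (-1, 6, -37, 2, -74), (-1, 6, -5, 10, -46), (-1, 8, 3, -2, 4),
      (-1, 8, 37, 2, 74), (-1, 9, 7, 2, 15), (-1, 10, 9, 2, 20), (-1, 11, 6, 2, 11), (-1, 12, 5, 2, 12), (-1, 12, 7, -2, -2), (-1, 13, -25, 4, -51), (-1, 13, 2, 2, 5), (-1, 15, 7, 2, 9), (-1, 15, 11, 4, 23), (-1, 17, 9, 4, 17),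
      (-1, 18, 5, 2, 8), (-1, 20, -37, 6, -74), (-1, 20, 11, -2, -4), (-1, 22, 37, 6, 74), (-1, 23, 15, 6, 29), (-1, 27, -32, 8, -65), (-1, 31, -24, 10, -53), (-1, 32, -23, 10, -48), (-1, 34, -37, 10, -74), (-1, 36, 37, 10, 74),
      (-1, 41, -39, 12, -79), (-1, 48, -37, 14, -74), (-1, 50, 37, 14, 74), (-1, 55, -46, 16, -93), (-1, 64, 37, 18, 74), (-1, 69, -53, 20, -107), (-1, 78, 37, 22, 74), (-1, 92, 37, 26, 74), (-1, 106, 37, 30, 74),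
      (1, 1, 0, -6, 37), (1, 1, 0, -4, 37), (1, 1, 0, -2, 37), (1, 1, 0, 0, 37), (1, 1, 0, 2, 37), (1, 1, 0, 4, 37), (1, 1, 0, 6, 37), (1, 1, 0, 8, 37), (1, 1, 0, 10, 37), (1, 1, 0, 12, 37), (1, 1, 0, 16, 37), (1, 1, 0, 18, 37),
      (1, 2, -1, -26, 128), (1, 2, -1, -22, 114), (1, 2, -1, -14, 86), (1, 2, -1, -10, 72), (1, 2, -1, -6, 58), (1, 2, -1, -2, 44), (1, 2, -1, 2, 30), (1, 2, -1, 6, 16), (1, 3, -2, -10, 59), (1, 3, -1, -2, 17), (1, 3, 1, 2, 17),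
      (1, 4, -3, 2, 8), (1, 4, -1, -2, 22), (1, 4, 1, 18, 50), (1, 5, -3, 2, -1), (1, 5, -2, -2, 13), (1, 6, -1, 2, 10), (1, 6, 1, 10, 24), (1, 8, -5, -2, 18), (1, 8, -3, 2, 4), (1, 9, -2, 2, 1), (1, 10, -1, 2, 6),
      (1, 11, -5, 2, -3), (1, 12, -7, 2, -2), (1, 12, -5, -2, 12), (1, 13, -11, 2, -9), (1, 13, 1, 4, 5), (1, 15, -8, 2, -5), (1, 15, -4, 4, -5), (1, 17, -8, 4, -11), (1, 18, -13, 2, -6), (1, 20, -9, -2, 10), (1, 20, 3, 6, 10),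
      (1, 22, -7, 6, -10), (1, 23, -8, 6, -13), (1, 27, -5, 8, -9), (1, 31, 7, 10, 17), (1, 32, 9, 10, 22), (1, 34, -3, 10, -4), (1, 36, 1, 10, 4), (1, 41, 2, 12, 5), (1, 48, 11, 14, 24), (1, 50, -13, 14, -24), (1, 55, 9, 16, 19),
      (1, 64, -27, 18, -52), (1, 69, 16, 20, 33), (1, 78, -41, 22, -80), (1, 92, -55, 26, -108), (1, 106, -69, 30, -136)]
  | 1 => [(-1, 2, -1, -26, 128), (-1, 2, -1, -22, 114), (-1, 2, -1, -14, 86), (-1, 2, -1, -10, 72), (-1, 2, -1, -6, 58), (-1, 2, -1, -2, 44), (-1, 2, -1, 2, 30), (-1, 2, -1, 6, 16), (-1, 2, -1, 10, 2), (-1, 2, -1, 14, -12),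
      (-1, 2, -1, 22, -40), (-1, 2, -1, 26, -54), (-1, 3, -2, -10, 59), (-1, 3, -1, 10, -11), (-1, 4, -3, 2, 8), (-1, 4, -1, -2, 22), (-1, 5, -3, 2, -1), (-1, 5, -2, -2, 13), (-1, 8, -5, -2, 18), (-1, 8, -3, 2, 4),
      (-1, 11, -8, 4, -17), (-1, 11, -5, 2, -3), (-1, 12, -7, 2, -2), (-1, 12, -5, -2, 12), (-1, 13, -11, 2, -9), (-1, 15, -8, 2, -5), (-1, 17, -8, 4, -11), (-1, 18, -13, 2, -6), (-1, 19, -14, 6, -29), (-1, 20, -9, -2, 10),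
      (-1, 23, -8, 6, -13), (-1, 62, -37, 18, -74), (-1, 64, -27, 18, -52), (-1, 76, -37, 22, -74), (-1, 78, -41, 22, -80), (-1, 90, -37, 26, -74), (-1, 92, -55, 26, -108), (-1, 104, -37, 30, -74), (-1, 106, -69, 30, -136),
      (1, 1, -2, 4, -19), (1, 1, -1, 8, -19), (1, 1, -1, 10, -33), (1, 1, -1, 12, -47), (1, 1, -1, 16, -75), (1, 1, -1, 18, -89), (1, 1, 0, -18, 37), (1, 1, 0, -16, 37), (1, 1, 0, -12, 37), (1, 1, 0, -10, 37), (1, 1, 0, -8, 37),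
      (1, 1, 1, -4, 9), (1, 1, 18, 0, 37), (1, 2, -3, 6, -26), (1, 2, 1, -6, 16), (1, 2, 3, -2, 16), (1, 4, -15, 2, -34), (1, 4, -3, 18, -76), (1, 4, -1, -18, 50), (1, 6, -5, 10, -46), (1, 6, -1, -10, 24), (1, 6, 1, -2, 10),
      (1, 10, 9, 2, 20), (1, 13, -25, 4, -51), (1, 15, 11, 4, 23), (1, 16, -3, 2, 2), (1, 24, -5, -2, 6), (1, 25, -8, 2, -3), (1, 27, -32, 8, -65), (1, 29, 4, 8, 9), (1, 31, -24, 10, -53), (1, 32, -23, 10, -48),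
      (1, 37, -12, 0, 1), (1, 38, -13, 10, -22), (1, 39, -10, 10, -17), (1, 41, -39, 12, -79), (1, 43, -3, 12, -5), (1, 55, -46, 16, -93), (1, 57, -10, 16, -19), (1, 69, -53, 20, -107), (1, 71, -17, 20, -33)]
  | 2 => [(-1, 3, -1, -2, 17), (-1, 3, -1, 4, 3), (-1, 4, -1, -18, 50), (-1, 4, -1, 6, 8), (-1, 4, -1, 14, -6), (-1, 4, -1, 38, -48), (-1, 5, -1, 6, -1), (-1, 5, -1, 16, -15), (-1, 6, -1, -10, 24), (-1, 9, -2, 2, 1), (-1, 15, -4, 4, -5),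
      (-1, 16, -3, 2, 2), (-1, 22, -7, 6, -10), (-1, 24, -5, -2, 6), (-1, 25, -8, 2, -3), (-1, 26, -7, 10, -16), (-1, 37, -12, 0, 1), (-1, 38, -13, 10, -22), (-1, 39, -10, 10, -17), (-1, 50, -13, 14, -24), (-1, 53, -15, 16, -31),
      (-1, 57, -10, 16, -19), (-1, 71, -17, 20, -33), (-1, 118, -37, 34, -74), (-1, 132, -37, 38, -74), (-1, 146, -37, 42, -74), (-1, 160, -37, 46, -74), (-1, 174, -37, 50, -74), (1, 1, 0, -28, 37), (1, 1, 0, -22, 37),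
      (1, 1, 0, -20, 37), (1, 1, 0, -14, 37), (1, 1, 2, -2, 9), (1, 2, -1, 22, -40), (1, 2, -1, 26, -54), (1, 5, -1, -4, 13), (1, 6, -1, -34, 52), (1, 6, -1, -22, 38), (1, 8, -1, -10, 18), (1, 9, 7, 2, 15), (1, 11, -2, -6, 11),
      (1, 12, 5, 2, 12), (1, 13, -2, -2, 5), (1, 19, -14, 6, -29), (1, 19, -2, 4, -1), (1, 20, -3, -6, 10), (1, 25, -4, 4, -3), (1, 26, -3, 6, -2), (1, 37, -7, 0, 1), (1, 37, 0, 10, 1), (1, 38, -9, 6, -8), (1, 52, -5, 14, -8),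
      (1, 54, -13, 2, -2), (1, 65, -7, 18, -13), (1, 93, -14, 26, -27), (1, 94, -19, 26, -36)]

end Pool.Agent.Helper14.TH7
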