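import Pool.Agent.Helper4.S7.Tm

/-!
# Project TH (levels `2·7^n`): rows of `T_37`

A term `(k, a, b, c, d)` stands for `k` times the operator of `(a b; 7c d)` (`Helper4/S7/Tm.lean`; `mulL`, `sclL`, `Gd` of W7 are used unchanged). `F_f(g) = G(g e_f) - G(g 0)` with `e_0 = ∞`, `e_1 = 1/2`, `e_2 = 1/4`.
The rows of `T_l` are computed with the residues `-(l-1)/2, ..., (l-1)/2`.
-/

set_option autoImplicit false

namespace Pool.Agent.Helper14.TH7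

open Pool.Agent.Helper4.S7 (Tm mulT mulL sclL Gd)

/-- Row 2 of `T_37`. -/
def T37H2 : Fin 3 → List Tm
  | 0 => [(-1, 1, -4, 2, -19), (-1, 1, -2, 4, -19), (-1, 1, -1, 6, -5), (-1, 1, -1, 8, -19), (-1, 1, -1, 10, -33), (-1, 1, -1, 12, -47), (-1, 1, -1, 16, -75), (-1, 1, -1, 18, -89), (-1, 1, 1, -6, -5), (-1, 1, 1, -4, 9), (-1, 1, 2, -2, 9),
      (-1, 1, 9, 0, 37), (-1, 2, -13, 2, -54), (-1, 2, -3, 6, -26), (-1, 2, 1, -26, -54), (-1, 2, 1, -22, -40), (-1, 2, 1, -14, -12), (-1, 2, 1, -10, 2), (-1, 2, 1, -6, 16), (-1, 2, 3, -2, 16), (-1, 3, -20, 2, -81),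
      (-1, 3, -4, 4, -25), (-1, 3, 1, -10, -11), (-1, 3, 2, -2, 3), (-1, 4, -3, 18, -76), (-1, 4, 3, -2, 8), (-1, 4, 37, 2, 148), (-1, 5, 7, 2, 27), (-1, 6, -5, 10, -46), (-1, 6, 5, 2, 24), (-1, 8, -9, 6, -38), (-1, 8, 3, -2, 4),
      (-1, 8, 5, 2, 18), (-1, 10, -37, 6, -148), (-1, 11, 13, 6, 53), (-1, 12, 5, 2, 12), (-1, 12, 7, -2, -2), (-1, 15, 13, 8, 51), (-1, 16, -23, 10, -96), (-1, 17, -27, 10, -109), (-1, 18, 5, 2, 8), (-1, 18, 37, 10, 148),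
      (-1, 22, 9, 10, 32), (-1, 24, -37, 14, -148), (-1, 25, 6, 14, 25), (-1, 31, -34, 18, -137), (-1, 32, 37, 18, 148), (-1, 38, -37, 22, -148), (-1, 45, -41, 26, -165), (-1, 46, 37, 26, 148), (-1, 48, 17, 26, 66),
      (-1, 52, -37, 30, -148), (-1, 59, -48, 34, -193), (-1, 60, 37, 34, 148), (-1, 73, -55, 42, -221), (-1, 74, 37, 42, 148), (-1, 88, 37, 50, 148), (-1, 102, 37, 58, 148), (1, 1, 0, -6, 37), (1, 1, 0, -4, 37), (1, 1, 0, -2, 37),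
      (1, 1, 0, 0, 37), (1, 1, 0, 2, 37), (1, 1, 0, 4, 37), (1, 1, 0, 6, 37), (1, 1, 0, 8, 37), (1, 1, 0, 10, 37), (1, 1, 0, 12, 37), (1, 1, 0, 16, 37), (1, 1, 0, 18, 37), (1, 2, -1, -26, 128), (1, 2, -1, -22, 114),
      (1, 2, -1, -14, 86), (1, 2, -1, -10, 72), (1, 2, -1, -6, 58), (1, 2, -1, -2, 44), (1, 2, -1, 2, 30), (1, 2, -1, 6, 16), (1, 3, -2, -10, 59), (1, 3, -1, -2, 17), (1, 3, -1, 4, 3), (1, 3, 1, 2, 17), (1, 4, -3, 2, 8),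
      (1, 4, -1, -2, 22), (1, 4, 1, 18, 50), (1, 5, -3, 2, -1), (1, 6, -1, 2, 10), (1, 6, 1, 10, 24), (1, 8, -5, -2, 18), (1, 8, -3, 2, 4), (1, 8, -1, 6, 4), (1, 10, -7, 6, -22), (1, 11, -9, 6, -31), (1, 12, -7, 2, -2),
      (1, 12, -5, -2, 12), (1, 15, -2, 8, -5), (1, 16, -7, 10, -26), (1, 17, -10, 10, -39), (1, 18, -13, 2, -6), (1, 18, 1, 10, 8), (1, 22, -13, 10, -38), (1, 24, -13, 14, -50), (1, 25, -19, 14, -73), (1, 31, -3, 18, -11),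
      (1, 32, 5, 18, 22), (1, 38, 1, 22, 6), (1, 45, 4, 26, 17), (1, 46, -9, 26, -34), (1, 48, -31, 26, -116), (1, 52, 15, 30, 62), (1, 59, 11, 34, 45), (1, 60, -23, 34, -90), (1, 73, 18, 42, 73), (1, 74, -37, 42, -146),
      (1, 88, -51, 50, -202), (1, 102, -65, 58, -258)]
  | 1 => [(-1, 2, -1, -26, 128), (-1, 2, -1, -22, 114), (-1, 2, -1, -14, 86), (-1, 2, -1, -10, 72), (-1, 2, -1, -6, 58), (-1, 2, -1, -2, 44), (-1, 2, -1, 2, 30), (-1, 2, -1, 6, 16), (-1, 2, -1, 10, 2), (-1, 2, -1, 14, -12),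
      (-1, 2, -1, 22, -40), (-1, 2, -1, 26, -54), (-1, 3, -2, -10, 59), (-1, 3, -1, 10, -11), (-1, 4, -3, 2, 8), (-1, 4, -1, -2, 22), (-1, 5, -4, 4, -15), (-1, 5, -3, 2, -1), (-1, 8, -5, -2, 18), (-1, 8, -3, 2, 4),
      (-1, 10, -7, 6, -22), (-1, 11, -9, 6, -31), (-1, 12, -7, 2, -2), (-1, 12, -5, -2, 12), (-1, 13, -6, 8, -23), (-1, 16, -7, 10, -26), (-1, 17, -10, 10, -39), (-1, 18, -13, 2, -6), (-1, 18, -7, 14, -34), (-1, 22, -13, 10, -38),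
      (-1, 24, -13, 14, -50), (-1, 25, -19, 14, -73), (-1, 27, -16, 16, -65), (-1, 48, -31, 26, -116), (-1, 60, -23, 34, -90), (-1, 66, -37, 38, -148), (-1, 74, -37, 42, -146), (-1, 80, -37, 46, -148), (-1, 88, -51, 50, -202),
      (-1, 94, -37, 54, -148), (-1, 102, -65, 58, -258), (-1, 108, -37, 62, -148), (1, 1, -2, 4, -19), (1, 1, -1, 8, -19), (1, 1, -1, 10, -33), (1, 1, -1, 12, -47), (1, 1, -1, 16, -75), (1, 1, -1, 18, -89), (1, 1, 0, -18, 37),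
      (1, 1, 0, -16, 37), (1, 1, 0, -12, 37), (1, 1, 0, -10, 37), (1, 1, 0, -8, 37), (1, 1, 1, -4, 9), (1, 2, -13, 2, -54), (1, 2, -3, 6, -26), (1, 3, -20, 2, -81), (1, 3, -4, 4, -25), (1, 4, -3, 18, -76), (1, 4, -1, -18, 50),
      (1, 6, -5, 10, -46), (1, 6, -1, -10, 24), (1, 6, 5, 2, 24), (1, 9, -2, 2, 1), (1, 9, -1, 4, 1), (1, 10, -1, 2, 6), (1, 11, 13, 6, 53), (1, 15, -4, 4, -5), (1, 16, -23, 10, -96), (1, 16, -3, 2, 2), (1, 16, -1, 6, 2),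
      (1, 17, -27, 10, -109), (1, 17, -4, 8, -11), (1, 23, -4, 12, -13), (1, 25, -8, 2, -3), (1, 25, 6, 14, 25), (1, 26, -5, 14, -16), (1, 31, -34, 18, -137), (1, 39, -1, 22, -3), (1, 45, -41, 26, -165), (1, 53, -8, 30, -31),
      (1, 59, -48, 34, -193), (1, 67, -15, 38, -59), (1, 73, -55, 42, -221)]
  | 2 => [(-1, 1, 1, -4, 9), (-1, 3, -1, -2, 17), (-1, 3, -1, 4, 3), (-1, 4, -1, -18, 50), (-1, 4, -1, 6, 8), (-1, 4, -1, 14, -6), (-1, 4, -1, 38, -48), (-1, 5, -2, 8, -15), (-1, 5, -1, 6, -1), (-1, 5, -1, 16, -15), (-1, 6, -1, -10, 24),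
      (-1, 9, -2, 2, 1), (-1, 11, -4, 8, -17), (-1, 15, -4, 4, -5), (-1, 16, -3, 2, 2), (-1, 17, -4, 8, -11), (-1, 19, -7, 12, -29), (-1, 23, -10, 14, -41), (-1, 25, -8, 2, -3), (-1, 65, -17, 38, -69), (-1, 67, -15, 38, -59),
      (-1, 122, -37, 70, -148), (-1, 136, -37, 78, -148), (-1, 150, -37, 86, -148), (-1, 164, -37, 94, -148), (-1, 178, -37, 102, -148), (1, 1, -4, 2, -19), (1, 1, 0, -28, 37), (1, 1, 0, -22, 37), (1, 1, 0, -20, 37),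
      (1, 1, 0, -14, 37), (1, 1, 9, 0, 37), (1, 2, -1, 22, -40), (1, 2, -1, 26, -54), (1, 2, 1, -6, 16), (1, 2, 3, -2, 16), (1, 5, -1, -4, 13), (1, 6, -1, -34, 52), (1, 6, -1, -22, 38), (1, 8, -9, 6, -38), (1, 8, -1, -10, 18),
      (1, 11, -2, -6, 11), (1, 18, -7, 14, -34), (1, 20, -3, -6, 10), (1, 27, -16, 16, -65), (1, 27, -5, 8, -9), (1, 29, 2, 16, 9), (1, 34, -7, 14, -18), (1, 38, -9, 6, -8), (1, 40, -1, 22, -2), (1, 41, -7, 20, -23),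
      (1, 57, -5, 32, -19), (1, 82, -15, 46, -58), (1, 85, -12, 48, -47)]

end Pool.Agent.Helper14.TH7
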