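import Pool.Agent.Helper14.TH7.Lists1
import Pool.Agent.Helper14.TH7.Lists2
import Pool.Agent.Helper14.TH7.Lists3
import Pool.Agent.Helper14.TH7.Lists4
import Pool.Agent.Helper14.TH7.Lists5
import Pool.Agent.Helper14.TH7.Lists6
import Pool.Agent.Helper14.TH7.Lists7
import Pool.Agent.Helper14.TH7.Lists8
import Pool.Agent.Helper14.TH7.Lists9

/-!
# Project TH (levels `2·7^n`): the lists of the operators

Matrices of lists are indexed by `Fin 3` (three plane functions).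
-/

set_option autoImplicit false

namespace Pool.Agent.Helper14.TH7

open Pool.Agent.Helper4.S7 (Tm mulT mulL sclL Gd)

/-- Product of two matrices of lists. -/
def mm3 (A B : Fin 3 → Fin 3 → List Tm) (i f : Fin 3) : List Tm :=
  mulL (A i 0) (B 0 f) ++ mulL (A i 1) (B 1 f) ++ mulL (A i 2) (B 2 f)

/-- `c` times the identity matrix. -/
def id3 (c : ℤ) (i f : Fin 3) : List Tm := if i = f then [(c, 1, 0, 0, 1)] else []

/-- The rows of `T_29`. -/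
def T29H (i f : Fin 3) : List Tm := if i = 0 then T29H0 f else if i = 1 then T29H1 f else T29H2 f

/-- The rows of `T_37`. -/
def T37H (i f : Fin 3) : List Tm := if i = 0 then T37H0 f else if i = 1 then T37H1 f else T37H2 f

/-- Multipliers of the relation for `V`. -/
def MVH (i : Fin 3) : List Tm := if i = 0 then MVH0 else if i = 1 then MVH1 else MVH2

/-- The rows of `T_3 + 3 T_5 + 3 T_13`. -/
def TaH (i f : Fin 3) : List Tm := T3H i f ++ sclL 3 (T5H i f) ++ sclL 3 (T13H i f)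

/-- The rows of `6 T_5 + 4 T_13 + 2 T_17 + 4 T_19`. -/
def TbH (i f : Fin 3) : List Tm :=
  sclL 6 (T5H i f) ++ sclL 4 (T13H i f) ++ sclL 2 (T17H i f) ++ sclL 4 (T19H i f)

/-- The rows of `U = 3 + 3 T_11 + 5 T_23 + 5 T_29 + 5 T_37 + 6 T_3²`. -/
def ULH (i f : Fin 3) : List Tm :=
  id3 3 i f ++ sclL 3 (T11H i f) ++ sclL 5 (T23H i f) ++ sclL 5 (T29H i f) ++ sclL 5 (T37H i f) ++
    sclL 6 (mm3 T3H T3H i f)

/-- The rows of `V = 5 T_11 + 4 T_23 + 5 T_29 + T_37 + T_3 (T_3 + 3 T_5 + 3 T_13) + T_5 (6 T_5 + 4 T_13 + 2 T_17 + 4 T_19)`. -/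
def VLH (i f : Fin 3) : List Tm :=
  sclL 5 (T11H i f) ++ sclL 4 (T23H i f) ++ sclL 5 (T29H i f) ++ T37H i f ++
    mm3 T3H TaH i f ++ mm3 T5H TbH i f

/-- The first row of the operator `O_c` at the origin: `1`, `2 + 3 T_3`, `4 + 2 T_3 + 5 T_5`, `5 + 3 T_3 + 3 T_5 + 4 T_11 + T_13 + 2 T_17`, `3 T_3 + 5 T_13 + 2 T_17 + 5 T_3 T_5`,
`6 + T_5 + 3 T_13 + 4 T_17 + T_19 + 2 T_23 + 2 T_29 + 2 T_37 + 4 T_3² + 4 T_3 T_5`. -/
def OLH (c : Fin 6) (f : Fin 3) : List Tm :=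
  if c = 0 then id3 1 0 f
  else if c = 1 then id3 2 0 f ++ sclL 3 (T3H 0 f)
  else if c = 2 then id3 4 0 f ++ sclL 2 (T3H 0 f) ++ sclL 5 (T5H 0 f)
  else if c = 3 then id3 5 0 f ++ sclL 3 (T3H 0 f) ++ sclL 3 (T5H 0 f) ++ sclL 4 (T11H 0 f) ++ T13H 0 f ++
    sclL 2 (T17H 0 f)
  else if c = 4 then sclL 3 (T3H 0 f) ++ sclL 5 (T13H 0 f) ++ sclL 2 (T17H 0 f) ++ sclL 5 (mm3 T3H T5H 0 f)
  else id3 6 0 f ++ T5H 0 f ++ sclL 3 (T13H 0 f) ++ sclL 4 (T17H 0 f) ++ T19H 0 f ++ sclL 2 (T23H 0 f) ++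
    sclL 2 (T29H 0 f) ++ sclL 2 (T37H 0 f) ++ sclL 4 (mm3 T3H T3H 0 f) ++ sclL 4 (mm3 T3H T5H 0 f)

/-- A list minus a multiple of the relation. -/
def sbH (L : Fin 3 → List Tm) (M : List Tm) (f : Fin 3) : List Tm := L f ++ sclL (-1) (mulL M (relH f))

/-- `U` minus multiples of the relation. -/
def BUH (i : Fin 3) : Fin 3 → List Tm := sbH (ULH i) (MUH i)

/-- `V` minus multiples of the relation. -/
def BVH (i : Fin 3) : Fin 3 → List Tm := sbH (VLH i) (MVH i)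

/-- `O_c` minus multiples of the relation. -/
def BOH (c : Fin 6) : Fin 3 → List Tm := sbH (OLH c) (MOH c)

end Pool.Agent.Helper14.TH7
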