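import Pool.Agent.Helper4.S7.Tm

/-!
# Project TH (levels `2·7^n`): the relation, rows of small Hecke operators, multipliers

A term `(k, a, b, c, d)` stands for `k` times the operator of `(a b; 7c d)` (`Helper4/S7/Tm.lean`; `mulL`, `sclL`, `Gd` of W7 are used unchanged). `F_f(g) = G(g e_f) - G(g 0)` with `e_0 = ∞`, `e_1 = 1/2`, `e_2 = 1/4`.
The rows of `T_l` are computed with the residues `-(l-1)/2, ..., (l-1)/2`.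
-/

set_option autoImplicit false

namespace Pool.Agent.Helper14.TH7

open Pool.Agent.Helper4.S7 (Tm mulT mulL sclL Gd)

/-- The relation between the three functions as a row of three lists: `F1 - F1∘η + F0∘η - F0∘(ηT) - F2 + F2∘δ = 0`, `η = (4 -3; 14 -10)`, `ηT = (4 1; 14 4)`, `δ = (6 -1; 14 -2)`. -/
def relH : Fin 3 → List Tm
  | 0 => [(1, 4, -3, 2, -10), (-1, 4, 1, 2, 4)]
  | 1 => [(1, 1, 0, 0, 1), (-1, 4, -3, 2, -10)]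
  | 2 => [(-1, 1, 0, 0, 1), (1, 6, -1, 2, -2)]

/-- The rows of `T_3`: `F_i(T_3 G) = ∑_f (T3H i f) F_f(G)`. -/
def T3H : Fin 3 → Fin 3 → List Tm
  | 0, 0 => [(-1, 2, 1, -2, -4), (1, 1, 0, 0, 3), (1, 2, -1, -2, 10), (1, 3, -1, 0, 1), (1, 3, 0, 0, 1), (1, 3, 1, 0, 1)]
  | 0, 1 => [(-1, 2, -1, -2, 10), (-1, 2, -1, 2, -4)]
  | 0, 2 => [(-1, 3, -1, 0, 1), (1, 2, -1, 2, -4)]
  | 1, 0 => [(-1, 1, 1, 0, 3), (-1, 2, 1, -2, -4), (-1, 8, 3, 2, 6), (1, 1, 0, 0, 3), (1, 2, -1, -2, 10), (1, 8, -5, 2, -8)]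
  | 1, 1 => [(-1, 2, -1, -2, 10), (-1, 2, -1, 2, -4), (-1, 6, -3, 2, -6), (-1, 8, -5, 2, -8), (1, 1, 1, 0, 3), (1, 3, -1, 0, 1)]
  | 1, 2 => [(-1, 3, -1, 0, 1), (1, 2, -1, 2, -4)]
  | 2, 0 => [(-1, 1, 1, 0, 3), (-1, 2, 1, -2, -4), (-1, 3, -3, 2, -13), (-1, 4, 3, 2, 12), (1, 1, 0, 0, 3), (1, 2, -1, -2, 10), (1, 3, 0, 2, 1), (1, 4, -1, 2, -2)]
  | 2, 1 => [(-1, 2, -1, -2, 10), (-1, 2, -1, 2, -4), (1, 3, -3, 2, -13), (1, 3, -1, 0, 1)]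
  | 2, 2 => [(-1, 3, -1, 0, 1), (-1, 10, -3, 6, -12)]

/-- The rows of `T_5`: `F_i(T_5 G) = ∑_f (T5H i f) F_f(G)`. -/
def T5H : Fin 3 → Fin 3 → List Tm
  | 0, 0 => [(-1, 2, 1, -2, -2), (-1, 4, -3, 2, -8), (1, 1, 0, 0, 5), (1, 2, -1, -2, 12), (1, 4, 1, 2, 6), (1, 5, -3, 0, 1), (1, 5, -2, 0, 1), (1, 5, -1, 0, 1), (1, 5, 0, 0, 1), (1, 5, 1, 0, 1)]
  | 0, 1 => [(-1, 2, -1, -2, 12), (-1, 2, -1, 2, -2), (-1, 5, -3, 0, 1), (-1, 5, -2, 0, 1), (1, 4, -3, 2, -8), (1, 4, -1, -2, 6)]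
  | 0, 2 => [(-1, 4, -1, -2, 6), (1, 1, 0, -2, 5)]
  | 1, 0 => [(-1, 1, 2, 0, 5), (-1, 2, 1, -2, -2), (-1, 4, -3, 2, -8), (-1, 5, 2, 0, 1), (-1, 6, -5, 2, -10), (-1, 8, 5, 2, 10), (1, 1, 0, 0, 5), (1, 2, -1, -2, 12), (1, 4, 1, 2, 6), (1, 5, -3, 0, 1), (1, 6, 1, 2, 4), (1, 8, -3, 2, -4)]
  | 1, 1 => [(-1, 2, -1, -2, 12), (-1, 2, -1, 2, -2), (-1, 5, -3, 0, 1), (1, 1, 2, 0, 5), (1, 4, -3, 2, -8), (1, 4, -1, -2, 6)]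
  | 1, 2 => [(-1, 4, -1, -2, 6), (-1, 8, -3, 2, -4), (-1, 20, -5, 6, -10), (1, 1, 0, -2, 5), (1, 5, -1, 0, 1), (1, 9, -1, 2, -1)]
  | 2, 0 => [(-1, 1, 1, 0, 5), (-1, 2, -3, 2, -16), (-1, 2, 1, -2, -2), (-1, 3, -4, 2, -17), (-1, 4, 5, 2, 20), (1, 1, 0, 0, 5), (1, 2, -1, -2, 12), (1, 2, -1, 2, -2), (1, 3, -1, 2, -3), (1, 4, 1, 2, 6)]
  | 2, 1 => [(-1, 2, -1, -2, 12), (-1, 2, -1, 2, -2), (-1, 10, -5, 6, -20), (1, 2, -3, 2, -16), (1, 3, -4, 2, -17), (1, 4, -1, -2, 6)]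
  | 2, 2 => [(-1, 3, -1, 2, -3), (-1, 4, -1, -2, 6), (-1, 24, -5, 14, -20), (1, 1, 0, -2, 5), (1, 1, 1, 0, 5), (1, 5, -1, 0, 1)]

/-- The rows of `T_11`: `F_i(T_11 G) = ∑_f (T11H i f) F_f(G)`. -/
def T11H : Fin 3 → Fin 3 → List Tm
  | 0, 0 => [(-1, 1, -1, 2, -3), (-1, 1, 1, -2, -3), (-1, 2, 1, -2, 4), (-1, 3, 1, -2, -1), (-1, 4, -3, 6, -26), (-1, 6, -5, 2, -8), (1, 1, 0, -2, 11), (1, 1, 0, 0, 11), (1, 1, 0, 2, 11), (1, 2, -1, -2, 18), (1, 3, -2, -2, 13),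
      (1, 4, 1, 6, 16), (1, 6, 1, 2, 6), (1, 11, -7, 0, 1), (1, 11, -6, 0, 1), (1, 11, -5, 0, 1), (1, 11, -4, 0, 1), (1, 11, -3, 0, 1), (1, 11, -2, 0, 1), (1, 11, -1, 0, 1), (1, 11, 0, 0, 1), (1, 11, 1, 0, 1), (1, 11, 2, 0, 1),
      (1, 11, 3, 0, 1)]
  | 0, 1 => [(-1, 2, -1, -2, 18), (-1, 2, -1, 2, 4), (-1, 3, -2, -2, 13), (-1, 3, -1, 2, -1), (-1, 11, -7, 0, 1), (-1, 11, -6, 0, 1), (-1, 11, -5, 0, 1), (-1, 11, -4, 0, 1), (1, 4, -3, 6, -26), (1, 4, -1, -6, 16), (1, 6, -5, 2, -8),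
      (1, 6, -1, -2, 6)]
  | 0, 2 => [(-1, 4, -1, -6, 16), (-1, 4, -1, 2, 2), (-1, 4, -1, 10, -12), (-1, 6, -1, -2, 6), (-1, 10, -3, 2, -2), (-1, 11, -3, 0, 1), (1, 1, -1, 2, -3), (1, 1, 0, -8, 11), (1, 1, 0, -6, 11), (1, 1, 0, -4, 11), (1, 2, 1, -2, 4),
      (1, 5, -1, -2, 5)]
  | 1, 0 => [(-1, 1, -1, 2, -3), (-1, 1, 1, -2, -3), (-1, 1, 5, 0, 11), (-1, 2, -3, 2, -10), (-1, 2, 1, -2, 4), (-1, 3, 1, -2, -1), (-1, 4, -5, 2, -12), (-1, 4, -3, 6, -26), (-1, 6, -11, 2, -22), (-1, 8, 11, 2, 22), (-1, 9, 5, 2, 9),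
      (-1, 11, 4, 0, 1), (-1, 13, -12, 4, -25), (-1, 22, 11, 6, 22), (1, 1, 0, -2, 11), (1, 1, 0, 0, 11), (1, 1, 0, 2, 11), (1, 2, -1, -2, 18), (1, 2, -1, 2, 4), (1, 3, -2, -2, 13), (1, 4, -1, 2, 2), (1, 4, 1, 6, 16),
      (1, 6, 1, 2, 6), (1, 8, -5, 2, -6), (1, 9, -4, 2, -5), (1, 11, -7, 0, 1), (1, 13, 1, 4, 3), (1, 22, -11, 6, -20)]
  | 1, 1 => [(-1, 2, -1, -2, 18), (-1, 2, -1, 2, 4), (-1, 3, -2, -2, 13), (-1, 3, -1, 2, -1), (-1, 5, -4, 2, -9), (-1, 8, -5, 2, -6), (-1, 9, -4, 2, -5), (-1, 11, -7, 0, 1), (-1, 20, -11, 6, -22), (-1, 22, -11, 6, -20), (1, 1, 5, 0, 11),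
      (1, 2, -3, 2, -10), (1, 4, -5, 2, -12), (1, 4, -3, 6, -26), (1, 4, -1, -6, 16), (1, 6, -1, -2, 6), (1, 10, -3, 2, -2), (1, 12, -5, 2, -4), (1, 13, -12, 4, -25), (1, 15, -2, 4, -3)]
  | 1, 2 => [(-1, 4, -1, -6, 16), (-1, 4, -1, 2, 2), (-1, 4, -1, 10, -12), (-1, 6, -1, -2, 6), (-1, 10, -3, 2, -2), (-1, 12, -5, 2, -4), (-1, 34, -11, 10, -22), (-1, 48, -11, 14, -22), (1, 1, -1, 2, -3), (1, 1, 0, -8, 11), (1, 1, 0, -6, 11),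
      (1, 1, 0, -4, 11), (1, 5, -4, 2, -9), (1, 5, -1, -2, 5), (1, 11, -2, 0, 1), (1, 23, -3, 6, -5)]
  | 2, 0 => [(-1, 1, -1, 2, -3), (-1, 1, 3, 0, 11), (-1, 2, -5, 2, -24), (-1, 2, 1, -2, 4), (-1, 3, -7, 2, -29), (-1, 3, 1, -2, -1), (-1, 4, -3, 6, -26), (-1, 4, 11, 2, 44), (-1, 5, 1, 2, 5), (-1, 8, 3, 2, 8), (-1, 10, -11, 6, -44),
      (-1, 17, -14, 10, -57), (-1, 18, 11, 10, 44), (-1, 32, 11, 18, 44), (1, 1, 0, 0, 11), (1, 1, 0, 2, 11), (1, 2, -1, -2, 18), (1, 2, -1, 2, 4), (1, 3, -2, -2, 13), (1, 3, -1, 2, -1), (1, 4, -1, 2, 2), (1, 4, 1, 6, 16),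
      (1, 5, -4, 2, -9), (1, 8, -5, 2, -6), (1, 10, -1, 6, -2), (1, 17, 3, 10, 13), (1, 18, -7, 10, -26), (1, 32, -21, 18, -82)]
  | 2, 1 => [(-1, 2, -1, -2, 18), (-1, 2, -1, 2, 4), (-1, 3, -2, -2, 13), (-1, 3, -1, 2, -1), (-1, 5, -4, 2, -9), (-1, 8, -5, 2, -6), (-1, 18, -7, 10, -26), (-1, 24, -11, 14, -44), (-1, 32, -21, 18, -82), (1, 1, 0, -2, 11),
      (1, 2, -5, 2, -24), (1, 3, -7, 2, -29), (1, 4, -3, 6, -26), (1, 4, -1, -6, 16), (1, 6, -1, -2, 6), (1, 9, -2, 4, -5), (1, 11, 0, 6, 1), (1, 17, -14, 10, -57)]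
  | 2, 2 => [(-1, 4, -1, -6, 16), (-1, 4, -1, 2, 2), (-1, 4, -1, 10, -12), (-1, 5, -2, 4, -9), (-1, 6, -1, -2, 6), (-1, 9, -2, 4, -5), (-1, 38, -11, 22, -44), (-1, 52, -11, 30, -44), (1, 1, 0, -8, 11), (1, 1, 0, -6, 11), (1, 1, 0, -4, 11),
      (1, 5, -1, -2, 5), (1, 6, 1, 2, 6), (1, 11, -2, 0, 1), (1, 15, -1, 8, -3), (1, 26, -5, 14, -18)]

/-- Multipliers of the relation for `U`. -/
def MUH : Fin 3 → List Tm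
  | 0 => [(-3, 1, 3, 3, -3), (-3, 5, 1, 2, 3), (-3, 6, -2, 1, -2), (-2, 3, 2, 2, -1), (-1, 6, -2, 2, -1), (1, 1, 2, 0, -6), (1, 1, 2, 0, 2), (3, 6, -1, 1, -4)]
  | 1 => [(-3, 1, -3, 3, 4), (-3, 1, -1, -2, 4), (-2, 3, 0, -3, -1), (-2, 6, -1, -2, 3), (-1, 6, 1, -1, -1), (1, 1, 3, -2, 1), (1, 2, 3, 0, 1), (2, 2, 2, -3, -3)]
  | 2 => [(-2, 3, 2, 1, -2), (-1, 5, -1, -1, -4), (-1, 6, -2, 0, 3), (1, 2, 0, 3, 4), (1, 3, -1, 1, -4), (1, 5, -2, -3, -4), (2, 1, -2, -3, -5)]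

/-- Multipliers of the relation for the operators at the origin. -/
def MOH : Fin 6 → List Tm
  | 0 => []
  | 1 => []
  | 2 => [(-2, 5, 1, 3, 5), (2, 3, -1, 2, 2)]
  | 3 => [(-3, 1, -2, 1, 1), (3, 1, 0, -3, -5)]
  | 4 => [(-2, 4, -1, -1, -5), (-1, 1, -2, -2, 3), (1, 2, -1, -3, -2), (1, 3, 2, 0, 6), (2, 2, -2, 3, -2), (3, 2, -1, -2, -5), (3, 4, 0, 0, 3)]
  | 5 => [(-3, 2, 2, -3, -3), (-3, 5, 0, -3, -6), (-3, 6, 3, -2, -4), (-1, 2, -2, 2, 1), (-1, 2, 1, 3, -3), (-1, 3, -2, -2, 6), (-1, 4, -2, 1, 5), (-1, 4, 1, -2, -2), (-1, 5, 1, 1, 1), (1, 4, 3, 0, -3), (1, 5, 2, 3, 3), (2, 2, 3, 3, -1),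
      (2, 4, -3, 1, 2), (2, 6, 3, 2, -1)]

end Pool.Agent.Helper14.TH7
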