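import Pool.Agent.Helper14.TH7.Lists
import Pool.Agent.Helper14.TL7.StD
import Pool.Agent.Helper4.S7.StD2
import Pool.Agent.Helper76.TH7.StC7
import Pool.Agent.Helper93.TLH.StB

/-!
# Project TH (levels `2·7^n`, `W_2 = +1`): lower bound

Models: `Pool/Agent/Helper4/TH/StD.lean` (levels `2·5^n`, the same names) and `Helper14/TL7/StD.lean` (levels `4·7^n`). The operator calculus on plane functions of W7 (`tr7`, `op7`, `opL`, `dX`, `dY`, `oW`, `Wd7`, `Lw`, `cS`, `M9`, `bb7`, `pj`; closed theorems `trm`, `low0`, `nfa`, `nf`, `exp7`, `lw1`, `bb`, `opm` of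
`Helper84/S7/D1.lean` and `pjj`, `sta` of `Helper4/S7/D2.lean`) is used unchanged, and `TLdg`, `TOmg` of `Helper14/TL7/StD.lean` (proved: `Pool.Agent.Helper9.TL7.hLdg`, `Pool.Agent.Helper71.TL7.hOmg`). There are no signs; matrices of determinant two (`HTy`, second case) occur. There are THREE plane functions of a symbol,
`F_i(g) = G(g e_i) - G(g 0)`, `e_0 = ∞`, `e_1 = 1/2`, `e_2 = 1/4` (values on paths: `edgeH 0` of `Helper76/TH7/StC7.lean`; EDG is `HEdg7`, proved: `Helper60/TH7/M_EDGH7.lean`), and ONE relation. `T = (1 1; 0 1)`; `k = F0 - F0∘T - F1` is the path `1/2 → 1`; `η = (4 -3; 14 -10)` (determinant two) maps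
`1/2 → 1/3`, `1 → 1/4`; `δ = (6 -1; 14 -2)` (determinant two) maps `0 → 1/2`, `1/4 → 1/3`: the square `0, 1/2, 1/3, 1/4` gives the relation. The Hecke operator of level `(r, s)` is `Tl l (7^r)`, `l ≠ 2, 7`. Two operators have SCALAR leading form on all three functions (modulo the relation): `U = 3 + 3 T_11 + 5 T_23 + 5 T_29 + 5 T_37 + 6 T_3²` (`X Y`),
`V = 5 T_11 + 4 T_23 + 5 T_29 + T_37 + T_3 (T_3 + 3 T_5 + 3 T_13) + T_5 (6 T_5 + 4 T_13 + 2 T_17 + 4 T_19)` (`X⁷Y + 3 X⁴Y⁴ + XY⁷`); there are six operators `O_c` at the origin. Everything was checked by machine (lists, leading forms, triangular system, ranks 4, 28, 154).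
-/

set_option autoImplicit false

namespace Pool.Agent.Helper14.TH7

open Pool.Agent.Helper14.CV (Homog EqC act Tl StFar StFex)
open Pool.Agent.Helper28.WK (Tw evw)
open Pool.Agent.Helper4.S7 (Tm mulL sclL Gd pj S7Pj)
open Pool.Agent.Helper76.TH7 (PlH rYH edgeH HPlA7 HEdg7 ddH7)
open Pool.Agent.Helper84.S7
open Pool.Agent.Helper93.TLH (HTy SymH SHHk SHHkS LBH)
open Pool.Agent.Helper93.TLE (DDE)

/-! ### Plane functions -/

/-- TRE (from EDG, PLA). Values on translated paths: for `γ = (a b; 7c d)` of type `HTy` the path from `γ v` to `γ u` at the point `p` is the path from `v` to `u` at `p γ`: the standard matrix `g0` has determinant one and even lower left entry, so `g0 γ` has the type of `γ` and the coordinates `p γ` (EDG).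
Models: TTre of `Helper4/TH/StD.lean` and its module, `Helper84/S7/M_Tre.lean`. -/
def TTre : Prop := ∀ (R : Type) (_ : AddCommGroup R) (r s : ℕ) (G : ℤ → ℤ → R), SymH 7 r (s + 1) G →
  ∀ (a b c d u1 u2 v1 v2 : ℤ), HTy a b (7 * c) d → (u1 ≠ 0 ∨ u2 ≠ 0) → (v1 ≠ 0 ∨ v2 ≠ 0) →
  ∀ (x : ZMod (7 ^ r)) (y : ZMod (7 ^ s)),
  edgeH 0 (a * u1 + b * u2) (7 * c * u1 + d * u2) (a * v1 + b * v2) (7 * c * v1 + d * v2) G x y =
    tr7 a b c d (edgeH 0 u1 u2 v1 v2 G) x y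

/-- The denominators of the end points `∞, 1/2, 1/4`. -/
def e3 : Fin 3 → ℤ := ![0, 2, 4]

/-- The three plane functions of a symbol: `F_i(g) = G(g e_i) - G(g 0)`. -/
noncomputable def pfH {R : Type} [AddCommGroup R] {q q' : ℕ} (G : ℤ → ℤ → R) (i : Fin 3) :
    ZMod q → ZMod q' → R := fun x y => edgeH 0 1 (e3 i) 0 1 G x y

/-- The function of the path from `1/2` to `1`. -/
def kH {R : Type} [AddCommGroup R] {q q' : ℕ} (F : Fin 3 → ZMod q → ZMod q' → R) : ZMod q → ZMod q' → R :=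
  fun x y => F 0 x y - tr7 1 1 0 1 (F 0) x y - F 1 x y

/-- The left side of the relation, `F1 - F1∘η + F0∘η - F0∘(ηT) - (F2 - F2∘δ)` (that is `F1 + k∘η - F2 + F2∘δ`). -/
def DfH {R : Type} [AddCommGroup R] {q q' : ℕ} (F : Fin 3 → ZMod q → ZMod q' → R) : ZMod q → ZMod q' → R :=
  fun x y => F 1 x y - tr7 4 (-3) 2 (-10) (F 1) x y + (tr7 4 (-3) 2 (-10) (F 0) x y - tr7 4 1 2 4 (F 0) x y) -
    (F 2 x y - tr7 6 (-1) 2 (-2) (F 2) x y)

/-- The relation between the three functions. -/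
def RelH {R : Type} [AddCommGroup R] {q q' : ℕ} (F : Fin 3 → ZMod q → ZMod q' → R) : Prop :=
  ∀ x y, DfH F x y = 0

/-- REL (from TRE). The plane functions of a symbol satisfy the relation. `F0(p) - F0(pT) = G(g1) - G(g0)`, so `k(p) = G(g1) - G(g½)` (TRE for `T`). `η = (4 -3; 14 -10)` and `δ = (6 -1; 14 -2)` have type `HTy` (determinant two), `ηT = (4 1; 14 4)`: `F0(pη) - F0(pηT) - F1(pη) = k(pη) = G(gη1) - G(gη½) = G(g¼) - G(g⅓)`,
`F2(pδ) = G(gδ¼) - G(gδ0) = G(g⅓) - G(g½)`. So the sum is `(G(g½) - G(g0)) + (G(g¼) - G(g⅓)) - (G(g¼) - G(g0)) + (G(g⅓) - G(g½)) = 0` (vectors up to the scalars `±2`: TRE with the vectors `η(1, 2) = (-2, -6)` etc. and `Homog`). Model: REL of `Helper4/TH/StD.lean`. -/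
def TRel : Prop := ∀ (R : Type) (_ : AddCommGroup R) (r s : ℕ) (G : ℤ → ℤ → R),
  SymH 7 r (s + 1) G → RelH (fun i => (pfH G i : ZMod (7 ^ r) → ZMod (7 ^ s) → R))

/-- EXA (from TRM). For a solution `F` of the relation a function `V` on the matrices `g = (a b; c d)` of determinant one with `c` even (the future value `G(g∞) - G(g0)`). Definition, for `g` of type `HTy` (both types, needed in the proof): let `p(γ) = (b/a, c'/d)` for `γ = (a b; 7c' d)`, `S' = (0 -1; 2 0)`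
(`g S' = (2b -a; 2d -c)`, of type two if `g` is of type one, and `2` times a matrix of type one if `g` is of type two); by the class `t = c/d` modulo `7` (`S'` acts by `t ↦ -2/t`): `t = 0`: `V g = F0(p(g))`; `t = 2`: `V g = F1(p(g (1 0; -2 1)))` (path `γ{0,½}`); `t = 4`: `V g = F2(p(g (1 0; -4 1)))` (path `γ{0,¼}`);
`t = 5`: `V g = -k(p(g (1 -1; 2 -1)))` (`k = kH F`, path `γ{1,½}`; `p` does not change under scalars); `t = ∞, 6, 3, 1`: `V g = -V(g S')` (`S'` maps these classes to `0, 2, 4, 5`, in this order). Then `V (g S') = -V g` for all `g` of type `HTy` (`S'² = -2`). SQUARE RELATION `V(g) + V(gR) + V(gR²) + V(gR³) = 0`, `R = (2 -1; 2 0)`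
(`R` maps `1/2 → 0 → ∞ → 1 → 1/2`, acts by `t ↦ -2 - 2/t`): orbits `0 → ∞ → 5 → 6 → 0` and `1 → 3 → 2 → 4 → 1`, and the relation for `gR` is the one for `g`, so it is enough to take `t = 0` and `t = 2`. `t = 0`: up to scalars `R S' = T`, `R² (1 -1; 2 -1) = 1`, `R³ S' (1 0; -2 1) = 1`: `F0(p) - F0(pT) - k(p) - F1(p) = 0`, the definition of
`k`. `t = 2`, `g = γ (1 0; 2 1)`: `V(g) = F1(γ)`; `V(gR) = F2(γδ)` (`(1 0; 2 1) R (1 0; -4 1) = δ`); `V(gR²) = k(γη)` (`t = 1`; `(1 0; 2 1) R² S' (1 -1; 2 -1) = η` up to scalars); `V(gR³) = -F2(γ)` (`t = 3`; `R³ S' = (1 0; 2 1)` up to scalars): the relation. Up to scalars `R² = (1 -1; 2 -1)`, `R S' = (1 1; 0 1)`, `R³ S' = (1 0; 2 1)`: with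
`V(gR) = -V(gRS')`, `V(gR³) = -V(gR³S')` this is the second statement below. The third and the fourth: left multiplication by the group does not change the class and the coordinates (`γ' g`, also for `γ' = (2α β; 2γ 2δ)` of determinant two; in the fourth statement the matrix on the left is `γ' g S'/2`, `g = (a b; 2c d)`). Last: definition
(classes `0, 2, 4`). Model: TExA of `Helper4/TH/StD.lean` (two functions; its module, if it is on main), first half of `Pool/Agent/Helper69/TL/M_Ex.lean`. -/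
def TExA : Prop := ∀ (R : Type) (_ : AddCommGroup R) (r s : ℕ)
  (F : Fin 3 → ZMod (7 ^ r) → ZMod (7 ^ s) → R), RelH F →
  ∃ V : ℤ → ℤ → ℤ → ℤ → R,
    (∀ a b c d : ℤ, a * d - b * c = 1 → (2 : ℤ) ∣ c → V (-a) (-b) (-c) (-d) = V a b c d) ∧
    (∀ a b c d : ℤ, a * d - b * c = 1 → (2 : ℤ) ∣ c → V a b c d =
      V a (a + b) c (c + d) + V (a + 2 * b) b (c + 2 * d) d - V (a + 2 * b) (-(a + b)) (c + 2 * d) (-(c + d))) ∧
    (∀ α β γ δ a b c d : ℤ, α * δ - β * γ = 1 → (2 : ℤ) ∣ γ → (7 : ℤ) ^ r ∣ β → (7 : ℤ) ^ (s + 1) ∣ γ →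
      a * d - b * c = 1 → (2 : ℤ) ∣ c → V (α * a + β * c) (α * b + β * d) (γ * a + δ * c) (γ * b + δ * d) = V a b c d) ∧
    (∀ α β γ δ a b c d : ℤ, 2 * α * δ - β * γ = 1 → (7 : ℤ) ^ r ∣ β → (7 : ℤ) ^ (s + 1) ∣ γ →
      a * d - 2 * b * c = 1 → V (2 * α * b + β * d) (-(α * a + β * c)) (2 * (γ * b + δ * d)) (-(γ * a + 2 * δ * c)) =
        -V a b (2 * c) d) ∧
    (∀ (x : ZMod (7 ^ r)) (y : ZMod (7 ^ s)) (a b c d : ℤ), a * d - b * (7 * c) = 1 → (2 : ℤ) ∣ c →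
      (b : ZMod (7 ^ r)) = x * a → (c : ZMod (7 ^ s)) = y * d →
      V a b (7 * c) d = F 0 x y ∧ V (a + 2 * b) b (7 * c + 2 * d) d = F 1 x y ∧
        V (a + 4 * b) b (7 * c + 4 * d) d = F 2 x y)

/-- EXB (from PLA, FEX, FAR; no EXA needed: the function `V` is given by its properties). Every solution of the relation comes from a symbol. Word for word the proof of TExB of `Helper4/TH/StD.lean` (with `7` instead of `5` and the third evaluation): for `(a b; c d)` of determinant one let `E a b c d` be `V a b c d` (`c` even), `-V b (-a) d (-c)` (`d` even),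
`E a (a+b) c (c+d) + E (a+b) b (c+d) d` (both odd). FEX gives `G` (triangle relation = second property). `G∘γ - G` is constant by FAR for `γ` of type one (third property) and of type two (fourth property). `pfH G i = F i`: last property at the standard matrix (PLA, `μ = 0`: `(1, X; 7Y, 1 + 7XY)`). Model: the module for TExB of `Helper4/TH/StD.lean`, if it is on main. -/
def TExB : Prop := ∀ (R : Type) (_ : AddCommGroup R) (r s : ℕ)
  (F : Fin 3 → ZMod (7 ^ r) → ZMod (7 ^ s) → R) (V : ℤ → ℤ → ℤ → ℤ → R),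
    (∀ a b c d : ℤ, a * d - b * c = 1 → (2 : ℤ) ∣ c → V (-a) (-b) (-c) (-d) = V a b c d) →
    (∀ a b c d : ℤ, a * d - b * c = 1 → (2 : ℤ) ∣ c → V a b c d =
      V a (a + b) c (c + d) + V (a + 2 * b) b (c + 2 * d) d - V (a + 2 * b) (-(a + b)) (c + 2 * d) (-(c + d))) →
    (∀ α β γ δ a b c d : ℤ, α * δ - β * γ = 1 → (2 : ℤ) ∣ γ → (7 : ℤ) ^ r ∣ β → (7 : ℤ) ^ (s + 1) ∣ γ →
      a * d - b * c = 1 → (2 : ℤ) ∣ c → V (α * a + β * c) (α * b + β * d) (γ * a + δ * c) (γ * b + δ * d) = V a b c d) →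
    (∀ α β γ δ a b c d : ℤ, 2 * α * δ - β * γ = 1 → (7 : ℤ) ^ r ∣ β → (7 : ℤ) ^ (s + 1) ∣ γ →
      a * d - 2 * b * c = 1 → V (2 * α * b + β * d) (-(α * a + β * c)) (2 * (γ * b + δ * d)) (-(γ * a + 2 * δ * c)) =
        -V a b (2 * c) d) →
    (∀ (x : ZMod (7 ^ r)) (y : ZMod (7 ^ s)) (a b c d : ℤ), a * d - b * (7 * c) = 1 → (2 : ℤ) ∣ c →
      (b : ZMod (7 ^ r)) = x * a → (c : ZMod (7 ^ s)) = y * d →
      V a b (7 * c) d = F 0 x y ∧ V (a + 2 * b) b (7 * c + 2 * d) d = F 1 x y ∧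
        V (a + 4 * b) b (7 * c + 4 * d) d = F 2 x y) →
  ∃ G : ℤ → ℤ → R, SymH 7 r (s + 1) G ∧ ∀ i, pfH G i = F i

/-- EX (from EXA, EXB; proved below). -/
def TEx : Prop := ∀ (R : Type) (_ : AddCommGroup R) (r s : ℕ)
  (F : Fin 3 → ZMod (7 ^ r) → ZMod (7 ^ s) → R), RelH F →
  ∃ G : ℤ → ℤ → R, SymH 7 r (s + 1) G ∧ ∀ i, pfH G i = F i

theorem hEx (ha : TExA) (hb : TExB) : TEx := by
  intro R _ r s F hF
  obtain ⟨V, h1, h2, h3, h4, h5⟩ := ha R _ r s F hF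
  exact hb R _ r s F V h1 h2 h3 h4 h5

/-- UNI (from EDG, PLA, FAR). A symbol with `F0 = F1 = F2 = 0` is constant. For `γ = (a b; 7c d)` of type `HTy` (any plane point) `G` has the same value at `γ∞, γ0, γ½, γ¼, γ1` (EDG; `γ1 = γT0`, `γT∞ = γ∞`). For `g` of type `HTy` this gives `G(g∞) = G(g0)` by the classes `t = c/d` modulo `7` as in EXA:
`t = 0`: `γ = g`; `t = 2`: `γ = g (1 0; -2 1)`, `γ½ = g∞`; `t = 4`: `γ = g (1 0; -4 1)`, `γ¼ = g∞`; `t = 5`: `γ = g (1 -1; 2 -1)`, `γ½ = g∞`, `γ1 = g0`; the classes `∞, 6, 3, 1`: replace `g` by `g S'`, `S' = (0 -1; 2 0)` (divided by `2` if `g` has type two), which exchanges the two ends. For an edge `(a b; c d)` of determinant one: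
`c` even: type one; `d` even: turn it; both odd: through the mediant. FAR. Model: the module for TUni of `Helper4/TH/StD.lean`, `Pool/Agent/Helper42/TL/M_Uni.lean`. -/
def TUni : Prop := ∀ (R : Type) (_ : AddCommGroup R) (r s : ℕ) (G : ℤ → ℤ → R),
  SymH 7 r (s + 1) G → (∀ i, (pfH G i : ZMod (7 ^ r) → ZMod (7 ^ s) → R) = 0) → EqC G 0

/-- HKB. Hecke sums for balanced levels `(r, s)`, from `SHHk`, `SHHkS` of `Helper93/TLH/StB.lean` (both proved). Model: the module for `THkB` of `Helper4/TH/StD.lean` (the same statement for `5`). -/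
def THkB : Prop := ∀ (R : Type) (_ : AddCommGroup R) (r s l : ℕ) (G : ℤ → ℤ → R), l.Prime →
  l ≠ 7 → l ≠ 2 → SymH 7 r s G → SymH 7 r s (Tl l (7 ^ r) G) ∧
  ∀ δ : Fin (l + 1) → Matrix (Fin 2) (Fin 2) ℤ,
  (∀ P, (δ P).det = l) → (∀ P, (7 : ℤ) ^ r ∣ δ P 0 1) → (∀ P, 2 * (7 : ℤ) ^ s ∣ δ P 1 0) →
  (∀ P P', P ≠ P' → ¬ ∀ i j, (l : ℤ) ∣ (δ P * (δ P').adjugate) i j) →
  EqC (fun p q => ∑ P, G (δ P 0 0 * p + δ P 0 1 * q) (δ P 1 0 * p + δ P 1 1 * q)) (Tl l (7 ^ r) G)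

/-- HKF (from HKB, EDG, PLA). Hecke formula on the plane for the path from `v` to `u`; `J` is a complete system of residues modulo `l`. Model: the module for `THkF` of `Helper4/TH/StD.lean`. -/
def THkF : Prop := ∀ (R : Type) (_ : AddCommGroup R) (r s l : ℕ) (G : ℤ → ℤ → R) (J : Finset ℤ),
  l.Prime → l ≠ 7 → l ≠ 2 → SymH 7 r (s + 1) G → J.card = l →
  (∀ j ∈ J, ∀ j' ∈ J, (l : ℤ) ∣ j - j' → j = j') →
  ∀ (u1 u2 v1 v2 : ℤ), (u1 ≠ 0 ∨ u2 ≠ 0) → (v1 ≠ 0 ∨ v2 ≠ 0) → ∀ (x : ZMod (7 ^ r)) (y : ZMod (7 ^ s)),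
  edgeH 0 u1 u2 v1 v2 (Tl l (7 ^ r) G) x y =
    tr7 1 0 0 l (edgeH 0 (l * u1) u2 (l * v1) v2 G) x y +
    ∑ j ∈ J, tr7 l (-j) 0 1 (edgeH 0 (u1 + j * u2) (l * u2) (v1 + j * v2) (l * v2) G) x y

/-- HK `l T` (from HKF, TRE, TRM): the lists `T` are the rows of `T_l`. A check as `ChkH` of `Helper93/TLH/Gen.lean` with three lists (`e = 0, 2, 4`), `J` the residues `-(l-1)/2, ..., (l-1)/2`. -/
def THk (l : ℕ) (T : Fin 3 → Fin 3 → List Tm) : Prop := ∀ (r s : ℕ) (G : ℤ → ℤ → ZMod 7), SymH 7 r (s + 1) G → ∀ i : Fin 3,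
  (pfH (Tl l (7 ^ r) G) i : Fn7 (7 ^ r) (7 ^ s)) = ∑ f : Fin 3, opL (T i f) (pfH G f)

/-- RLL (from TRM). The relation as an operator. -/
def TRll : Prop := ∀ (r s : ℕ) (F : Fin 3 → Fn7 (7 ^ r) (7 ^ s)),
  RelH F ↔ ∑ f : Fin 3, opL (relH f) (F f) = 0

/-! ### The operators on symbols and the words -/

section

variable {R : Type} [AddCommGroup R]

/-- `U = 3 + 3 T_11 + 5 T_23 + 5 T_29 + 5 T_37 + 6 T_3²`. -/
def UoH (m : ℤ) (G : ℤ → ℤ → R) : ℤ → ℤ → R :=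
  (3 : ℤ) • G + (3 : ℤ) • Tl 11 m G + (5 : ℤ) • Tl 23 m G + (5 : ℤ) • Tl 29 m G + (5 : ℤ) • Tl 37 m G +
    (6 : ℤ) • Tl 3 m (Tl 3 m G)

/-- `V = 5 T_11 + 4 T_23 + 5 T_29 + T_37 + T_3 (T_3 + 3 T_5 + 3 T_13) + T_5 (6 T_5 + 4 T_13 + 2 T_17 + 4 T_19)`. -/
def VoH (m : ℤ) (G : ℤ → ℤ → R) : ℤ → ℤ → R :=
  (5 : ℤ) • Tl 11 m G + (4 : ℤ) • Tl 23 m G + (5 : ℤ) • Tl 29 m G + Tl 37 m G +
    Tl 3 m (Tl 3 m G + (3 : ℤ) • Tl 5 m G + (3 : ℤ) • Tl 13 m G) +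
    Tl 5 m ((6 : ℤ) • Tl 5 m G + (4 : ℤ) • Tl 13 m G + (2 : ℤ) • Tl 17 m G + (4 : ℤ) • Tl 19 m G)

/-- The operators at the origin (rows `OLH`). -/
def OoH (c : ℕ) (m : ℤ) (G : ℤ → ℤ → R) : ℤ → ℤ → R :=
  if c = 0 then G
  else if c = 1 then (2 : ℤ) • G + (3 : ℤ) • Tl 3 m G
  else if c = 2 then (4 : ℤ) • G + (2 : ℤ) • Tl 3 m G + (5 : ℤ) • Tl 5 m G
  else if c = 3 then (5 : ℤ) • G + (3 : ℤ) • Tl 3 m G + (3 : ℤ) • Tl 5 m G + (4 : ℤ) • Tl 11 m G + Tl 13 m G +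
    (2 : ℤ) • Tl 17 m G
  else if c = 4 then (3 : ℤ) • Tl 3 m G + (5 : ℤ) • Tl 13 m G + (2 : ℤ) • Tl 17 m G + (5 : ℤ) • Tl 3 m (Tl 5 m G)
  else (6 : ℤ) • G + Tl 5 m G + (3 : ℤ) • Tl 13 m G + (4 : ℤ) • Tl 17 m G + Tl 19 m G + (2 : ℤ) • Tl 23 m G +
    (2 : ℤ) • Tl 29 m G + (2 : ℤ) • Tl 37 m G + (4 : ℤ) • Tl 3 m (Tl 3 m G) + (4 : ℤ) • Tl 3 m (Tl 5 m G)

/-- The value of the symbol of `G` at the word `O_c U^i V^j` of `{0, ∞}`. -/
def evH (m : ℤ) (G : ℤ → ℤ → R) (c i j : ℕ) : R :=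
  OoH c m ((UoH m)^[i] ((VoH m)^[j] G)) 1 0 - OoH c m ((UoH m)^[i] ((VoH m)^[j] G)) 0 1

end

/-- The exponents of the leading monomial `X^(aaH c + i + 7j) Y^(abH c + i + j)` of the word `(c, i, j)`: `(0, 0)`, `(0, 0)`, `(2, 0)`, `(3, 0)`, `(3, 1)`, `(5, 1)`. -/
def aaH (c : ℕ) : ℕ := if c ≤ 1 then 0 else if c = 2 then 2 else if c ≤ 4 then 3 else 5

/-- The exponent of `Y`. -/
def abH (c : ℕ) : ℕ := if c ≤ 3 then 0 else 1

/-- The bound of the index set: `aeH c + i + 7j < 7^r`. -/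
def aeH (c : ℕ) : ℕ := if c ≤ 1 then 0 else c

/-- The degree of the word. -/
def dgH (c i j : ℕ) : ℕ := aaH c + abH c + 2 * i + 8 * j

/-- The second coordinate of the order (`(dgH, rhH)`, lexicographic, then `c`): the exponent of `Y`. `dgH - 2 rhH` is `6j`, `6j`, `2 + 6j`, `3 + 6j`, `2 + 6j`, `4 + 6j` for `c = 0, ..., 5`, so `(dgH, rhH, c)` determines `(c, i, j)`. -/
def rhH (c i j : ℕ) : ℕ := abH c + i + j

/-- The degree of the functional `c` at the origin: `0, 0, 2, 3, 4, 6`. -/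
def nOH (c : ℕ) : ℕ := aaH c + abH c

/-- The coefficient of `X^(n - i) Y^i`, `n = nOH c`, in the form of the functional `c` on `F_f`: `c = 0`: `(1, 0, 0)`; `c = 1`: `(0, 1, 0)`; `c = 2`: `(X² + 3XY, 5X² + 2XY + 3Y², 0)`; `c = 3`: `(0, 0, X³ + 6Y³)`; `c = 4`: `(3X²Y², X³Y + 5X²Y² + 6Y⁴, 0)`;
`c = 5`: `(2X⁴Y² + 2X³Y³ + XY⁵, 3X⁵Y + 4X⁴Y² + X³Y³ + 6X²Y⁴ + 4XY⁵, 0)`. -/
def qOH (c f i : ℕ) : ℤ :=
  ((([[[1]], [[], [1]], [[1, 3], [5, 2, 3]], [[], [], [1, 0, 0, 6]], [[0, 0, 3], [0, 1, 5, 0, 6]],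
    [[0, 0, 2, 2, 0, 1], [0, 3, 4, 1, 6, 4]]] : List (List (List ℤ))).getD c []).getD f []).getD i 0

/-- The lowest exponent of `Y` in the form of the functional `c` on `F_f`. -/
def lwH (c f : ℕ) : ℕ := if c = 4 then (if f = 0 then 2 else 1) else if c = 5 then (if f = 0 then 2 else 1) else 0

/-- The functional `c` on `F_f` as an operator (the value at the origin is taken). -/
def MoH (c f : ℕ) {q q' : ℕ} : Module.End (ZMod 7) (Fn7 q q') :=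
  ∑ i ∈ Finset.range (nOH c + 1), ((qOH c f i : ℤ) : ZMod 7) • (dX ^ (nOH c - i) * dY ^ i)

/-- The leading operator of `U`. -/
def QoH {q q' : ℕ} : Module.End (ZMod 7) (Fn7 q q') := dX * dY

/-- The leading operator of `V`. -/
def LoH {q q' : ℕ} : Module.End (ZMod 7) (Fn7 q q') := dX ^ 7 * dY + (3 : ZMod 7) • (dX ^ 4 * dY ^ 4) + dX * dY ^ 7

/-! ### Certificates (finite computations) -/

/-- CEG. All terms are good (they are prime to `7`). -/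
def TCeG : Prop :=
  (∀ i f : Fin 3, (∀ t ∈ T3H i f, Gd t) ∧ (∀ t ∈ T5H i f, Gd t) ∧ (∀ t ∈ T11H i f, Gd t) ∧ (∀ t ∈ T13H i f, Gd t) ∧
    (∀ t ∈ T17H i f, Gd t) ∧ (∀ t ∈ T19H i f, Gd t) ∧ (∀ t ∈ T23H i f, Gd t) ∧ (∀ t ∈ T29H i f, Gd t) ∧ (∀ t ∈ T37H i f, Gd t)) ∧
  (∀ f : Fin 3, (∀ t ∈ relH f, Gd t) ∧ (∀ t ∈ MUH f, Gd t) ∧ (∀ t ∈ MVH f, Gd t)) ∧
  ∀ c : Fin 6, ∀ t ∈ MOH c, Gd t

/-- CEU. The coefficients of `U` of weight at most `2`: `(oB-1)(oA-1)` (`w = 0`) on the diagonal. -/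
def TCeU : Prop := ∀ i f : Fin 3, ∀ w : Fin 6, ∀ t ∈ M9, t.1 + 6 * t.2.1 + t.2.2 ≤ 2 →
  (7 : ℤ) ∣ cS (BUH i f) w t.1 t.2.1 t.2.2 - (if i = f ∧ w = 0 ∧ t = (1, 0, 1) then 1 else 0)

/-- CEV `i f`. The coefficients of `V` of weight at most `8`: `(oB-1)(oA-1)^7 + 3 (oB-1)^4 (oA-1)^4 + (oB-1)^7(oA-1)` (`w = 0`) on the diagonal. Lists of at most 4502 terms. Model: `Pool/Agent/Helper11/TL7/M_Cert.lean`. -/
def TCeV (i f : Fin 3) : Prop := ∀ w : Fin 6, ∀ t ∈ M9,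
  (7 : ℤ) ∣ cS (BVH i f) w t.1 t.2.1 t.2.2 -
    (if i = f ∧ w = 0 ∧ (t = (1, 0, 7) ∨ t = (7, 0, 1)) then 1 else if i = f ∧ w = 0 ∧ t = (4, 0, 4) then 3 else 0)

/-- CEO. The functionals at the origin: the sums over the classes (`cO` of `Helper14/TL7/StD.lean`). -/
def TCeO : Prop := ∀ (c : Fin 6) (f : Fin 3), ∀ t ∈ M9, (t.2.1 = 0 ∨ t.1 ≠ 0) → t.1 + 6 * t.2.1 + t.2.2 ≤ nOH c.val →
  (7 : ℤ) ∣ Pool.Agent.Helper14.TL7.cO (BOH c f) t.1 t.2.1 t.2.2 -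
    (if t.2.1 = 0 ∧ t.1 + t.2.2 = nOH c.val then qOH c.val f.val t.1 else 0)

/-! ### Leading forms -/

/-- LDU (from OPM, LOW0, LDG, RLL, CEG, CEU; `TLdg` of `Helper14/TL7/StD.lean`, `S7Opm` for products and multiples of lists). Leading forms of `U`: modulo the relation the rows are the lists `BUH` (`∑_f opL (mulL M (relH f)) (F f) = opL M (∑_f opL (relH f) (F f)) = 0`), and LDG with `n = 2`, `q = (0, 1, 0)` on the diagonal, `q = 0` off the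
diagonal. (`d` may be any integer.) Model: the module for TLdU of `Helper14/TL7/StD.lean`. -/
def TLdU : Prop := ∀ (r s : ℕ) (d : ℤ) (F : Fin 3 → Fn7 (7 ^ r) (7 ^ s)), RelH F → (∀ f, F f ∈ Wd7 d) →
  ∀ i : Fin 3, (∑ f : Fin 3, opL (ULH i f) (F f)) - QoH (F i) ∈ Wd7 (d - 3)

/-- LDV (from OPM, LOW0, LDG, RLL, CEG, CEV). Leading forms of `V`: as LDU with `n = 8`, `q 1 = q 7 = 1`, `q 4 = 3`. -/
def TLdV : Prop := ∀ (r s : ℕ) (d : ℤ) (F : Fin 3 → Fn7 (7 ^ r) (7 ^ s)), RelH F → (∀ f, F f ∈ Wd7 d) →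
  ∀ i : Fin 3, (∑ f : Fin 3, opL (VLH i f) (F f)) - LoH (F i) ∈ Wd7 (d - 9)

/-- OM (from OPM, LOW0, OMG, RLL, CEG, CEO; `TOmg` of `Helper14/TL7/StD.lean`). The value of `O_c` at the origin, for functions of degree at most `n = nOH c`: modulo the relation the first row is `BOH c`; OMG with `n`, `q = qOH c f`. Model: the module for TOm of `Helper14/TL7/StD.lean`. -/
def TOm : Prop := ∀ (r s : ℕ) (c : Fin 6) (F : Fin 3 → Fn7 (7 ^ r) (7 ^ s)), RelH F → (∀ f, F f ∈ Wd7 (nOH c.val : ℤ)) →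
  (∑ f : Fin 3, opL (OLH c f) (F f)) 0 0 = ∑ f : Fin 3, (MoH c.val f.val (F f)) 0 0

/-- STA (from LOW0, NFA, LW1, PJ). A function `E` of degree at most `e` whose classes `0` and `3` have smaller degree is `-(a - δ a)` up to lower degree. Word for word `S7Sta` (proved: `Pool/Agent/Helper66/S7/M_Sta.lean`) with `op7 6 (-1) 2 (-2)` instead of `op7 2 (-1) 1 (-3)`: `δ ≡ oW 4` modulo `Lw 1` (LW1: `7 ∣ -2 + 19 · 6`). -/
def TSta : Prop := ∀ (r s : ℕ) (e : ℤ) (E : Fn7 (7 ^ r) (7 ^ s)), E ∈ Wd7 e → pj 0 E ∈ Wd7 (e - 1) → pj 3 E ∈ Wd7 (e - 1) →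
  ∃ a : Fn7 (7 ^ r) (7 ^ s), a ∈ Wd7 e ∧ E + (a - op7 6 (-1) 2 (-2) a) ∈ Wd7 (e - 1)

/-- LWD (from TRM, LOW0, LW1). The relation up to lowering by `2`: `η = op7 4 (-3) 2 (-10)` has `om = 1` (`7 ∣ -10 - 4`), `η ≡ 1 + X + 4Y` (`b/a = -3/4 = 1`, `c/a = 2/4 = 4` modulo `7`), `ηT ≡ 1 + 2X + 4Y` (`(4 1; 14 4)`: `1/4 = 2`), `δ ≡ oW 4 (1 + X + 6Y)` (`-1/6 = 1`, `c a⁵ om⁵ = 2 · 6⁵ · 2⁵ = 6` modulo `7`). `X = dX`, `Y = dY`. -/
def TLwd : Prop := ∀ (r s : ℕ) (d : ℤ) (F : Fin 3 → Fn7 (7 ^ r) (7 ^ s)), (∀ f, F f ∈ Wd7 d) →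
  (DfH F : Fn7 (7 ^ r) (7 ^ s)) + dX (F 1) + (4 : ZMod 7) • dY (F 1) + dX (F 0) + F 2 -
    oW 4 (F 2 + dX (F 2) + (6 : ZMod 7) • dY (F 2)) ∈ Wd7 (d - 2)

/-- SUR (from TRM, LOW0, NFA, LW1, PJ, BB, STA, LWD). Solving the inhomogeneous relation below the top degree. Proof by induction (downwards until `Wd7 (-1) = 0`; `DfH` is additive): it is enough to solve up to an error in `Wd7 (e - 1)`. By BB `E = dX P + dY Q` with `P, Q ∈ Wd7 (e+1)` (`E` is a combination of `bb7 i j`, `i + j ≤ e`, and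
`bb7 i j = dX (bb7 (i+1) j)` or `dY (bb7 i (j+1))`, as `e < 7^r + 7^s - 2`). Put `P' = pj 1 P + pj 4 P`, `Q' = pj 5 Q + pj 2 Q`, `F0 = -P'`, `F1 = -2 Q'`. By LWD (`F2 = 0`) `DfH ≡ dX P' + 2 dX Q' + dY Q'` modulo `Wd7 (e - 1)` (`8 = 1`). `E' = E - dX P' - 2 dX Q' - dY Q'` has `pj 0 E', pj 3 E' ∈ Wd7 (e - 1)`: by PJ
`pj c * dX ≡ dX * pj (c + 1)`, `pj c * dY ≡ dY * pj (c + 5)` modulo `Lw 2` and `pj c * pj c' ≡ 0` or `pj c`: for `c = 0, 3`: `pj c E ≡ dX (pj (c+1) P) + dY (pj (c+5) Q)`, `pj c (dX P') ≡ dX (pj (c+1) P)`, `pj c (dY Q') ≡ dY (pj (c+5) Q)` (`c + 5 = 5, 8`, `pj 8 = pj 2`), `pj c (dX Q') ≡ 0`. STA for `E'`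
gives `F2 = a` of degree at most `e` with `E' + (a - δ a) ∈ Wd7 (e-1)`, and `DfH (0, 0, a) = -(a - δ a)`. Models: `S7Sur` (`Pool/Agent/Helper88/S7/M_Sur.lean`). -/
def TSur : Prop := ∀ (r s : ℕ) (e : ℤ) (E : Fn7 (7 ^ r) (7 ^ s)), e < 7 ^ r + 7 ^ s - 2 → E ∈ Wd7 e →
  ∃ F : Fin 3 → Fn7 (7 ^ r) (7 ^ s), (∀ f, F f ∈ Wd7 (e + 1)) ∧ (DfH F : Fn7 (7 ^ r) (7 ^ s)) = E

/-- The leading parts of the solution with index `c` (`A = aaH c + i + 7j`, `B = abH c + i + j`). -/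
def tpH (c A B : ℕ) (f : Fin 3) {q q' : ℕ} : Fn7 q q' :=
  if c = 0 ∨ c = 2 then (if f = 0 then bb7 A B else 0)
  else if c = 1 then (if f = 1 then bb7 A B else 0)
  else if c = 3 then (if f = 2 then bb7 A B else 0)
  else if c = 4 then (if f = 0 then (2 : ZMod 7) • bb7 A B + (3 : ZMod 7) • bb7 (A + 1) (B - 1)
    else if f = 1 then bb7 A B else 0)
  else (if f = 0 then -bb7 A B else if f = 1 then bb7 A B else 0)

/-- LED (from TRM, LOW0, NFA, LW1, PJ, BB, STA, LWD, SUR). Solutions of the relation with given leading forms. Let `A = aaH c + i + 7j`, `B = abH c + i + j`, `d = A + B = dgH c i j`; `A - B` is `0, 0, 2, 3, 2, 4` modulo `6`, so by PJ `pj (A - B) (bb7 A B) ≡ bb7 A B` modulo `Wd7 (d-1)`; take the leading parts `T_f = tpH c A B f` with `bb7 A B`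
replaced by `pj (A - B) (bb7 A B)` (and `bb7 (A+1) (B-1)` by `pj 4` of it for `c = 4`; `A + 1 < 7^r` by the index condition). The defect `E = DfH T` is in `Wd7 (d - 1)` and `pj 0 E, pj 3 E ∈ Wd7 (d - 2)`: by LWD `E ≡ -dX T_1 - 4 dY T_1 - dX T_0 - T_2 + oW 4 (T_2 + dX T_2 + 6 dY T_2)` modulo `Wd7 (d-2)`, and by PJ, for `c' = 0, 3`:
`pj c' dX ≡ dX pj (c'+1)`, `pj c' dY ≡ dY pj (c'+5)`, `pj c' oW 4 ≡ 2^c' pj c' = pj c'`: `c = 0, 1, 2`: the classes `1, 4` (for `dX`) and `5, 2` (for `dY`, only on `T_1`) do not occur. `c = 3` (`T_2` of class `3`): `oW 4 T_2 ≡ T_2` (PJ, `2^3 = 1`), the classes `1, 4, 5, 2` do not occur. `c = 4`: `T_1 = pj 2 (bb7 A B)`,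
`T_0 = 2 T_1 + 3 pj 4 (bb7 (A+1) (B-1))`: for `c' = 3`: `-4 dY T_1 - 3 dX pj 4 (bb7 (A+1) (B-1)) ≡ (-4 - 3) bb7 A (B-1) = 0` (BB; up to degree `d - 2`), nothing for `c' = 0`. `c = 5`: `T_0 = -T_1`: `-dX T_1 - dX T_0 = 0`, and class `2` does not occur in `T_1`. So STA for `-E` (degree `d - 1`) gives `a ∈ Wd7 (d-1)` with
`DfH (T + (0, 0, -a)) = E + (a - δ a) ∈ Wd7 (d-2)` up to the sign of `a`; `d - 2 < 7^r + 7^s - 2`: subtract the solution of SUR, whose functions have degree at most `d - 1`. Model: `S7Led` (`Pool/Agent/Helper36/S7/M_Led.lean`). -/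
def TLed : Prop := ∀ (r s c i j : ℕ), c ≤ 5 → aeH c + i + 7 * j < 7 ^ r → abH c + i + j < 7 ^ s →
  ∃ F : Fin 3 → Fn7 (7 ^ r) (7 ^ s), RelH F ∧
    ∀ f : Fin 3, F f - tpH c (aaH c + i + 7 * j) (abH c + i + j) f ∈ Wd7 ((dgH c i j : ℤ) - 1)

/-- STP (from HKB, all HK, OPM of W7, PLA; `SymH.add` etc.). The operators preserve symbols, and their plane functions are given by the lists (`opL (mulL ..)`: products of rows, `mm3`). The value of `F0` at the point `(0,0)`: the standard matrix is `1` (`rYH 0 0 0 = 0`). Model: the module for TStp of `Helper14/TL7/StD.lean`. -/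
def TStp : Prop := ∀ (r s : ℕ) (G : ℤ → ℤ → ZMod 7), SymH 7 r (s + 1) G →
  (SymH 7 r (s + 1) (UoH (7 ^ r) G) ∧ ∀ i : Fin 3,
    (pfH (UoH (7 ^ r) G) i : Fn7 (7 ^ r) (7 ^ s)) = ∑ f : Fin 3, opL (ULH i f) (pfH G f)) ∧
  (SymH 7 r (s + 1) (VoH (7 ^ r) G) ∧ ∀ i : Fin 3,
    (pfH (VoH (7 ^ r) G) i : Fn7 (7 ^ r) (7 ^ s)) = ∑ f : Fin 3, opL (VLH i f) (pfH G f)) ∧
  (∀ c : Fin 6, (pfH (OoH c.val (7 ^ r) G) 0 : Fn7 (7 ^ r) (7 ^ s)) = ∑ f : Fin 3, opL (OLH c f) (pfH G f)) ∧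
  ∀ H : ℤ → ℤ → ZMod 7, (pfH H 0 : Fn7 (7 ^ r) (7 ^ s)) 0 0 = H 1 0 - H 0 1

/-- ITR (from REL, STP, LOW0, LDU, LDV, OM). Iteration, `m = 7^r`, for a symbol `G` modulo 7 of level `(r, s+1)` whose three functions have degree at most `d`. By LDU, LDV, REL the functions of `U G` have degree at most `d - 2` and are `≡ QoH F_f(G)` modulo `Wd7 (d - 3)`; for `V`: `d - 8`, `LoH F_f(G)`, `Wd7 (d - 9)`. So the functions of
`U^i V^j G` have degree at most `d' = d - 2i - 8j`, and are `≡ QoH^i LoH^j F_f(G)` modulo `Wd7 (d' - 1)`. OM for `d' ≤ nOH c` (`MoH c f` kills degree `nOH c - 1`). Model: the module for TItr of `Helper14/TL7/StD.lean`. -/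
def TItr : Prop := ∀ (r s : ℕ) (G : ℤ → ℤ → ZMod 7) (d : ℕ), SymH 7 r (s + 1) G →
  (∀ f : Fin 3, (pfH G f : Fn7 (7 ^ r) (7 ^ s)) ∈ Wd7 (d : ℤ)) →
  ∀ c i j : ℕ, c ≤ 5 →
  (d < dgH c i j → evH (7 ^ r) G c i j = 0) ∧
  (dgH c i j = d → evH (7 ^ r) G c i j =
    ∑ f : Fin 3, ((MoH c f.val * QoH ^ i * LoH ^ j : Module.End (ZMod 7) (Fn7 (7 ^ r) (7 ^ s))) (pfH G f)) 0 0)

/-- TRF (from LOW0, BB). The forms. `MoH c f * QoH^i * LoH^j` is a form of degree `dgH c i j` in the commuting operators `dX`, `dY`, so it lowers by `dgH c i j`, and the value of a monomial `dX^p dY^q`, `p + q = A + B`, on `bb7 A B` at the origin is `1` if `(p, q) = (A, B)` and `0` otherwise. `l = lwH c f` is the lowest exponent of `Y` in the form of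
`MoH c f` (finite check; if `qOH c f l = 0` the form is zero: second part), the form is `(q_l X^(n-l) Y^l + Y^(l+1) ...) (XY)^i (X⁷Y + 3X⁴Y⁴ + XY⁷)^j`, so its coefficient at `X^A Y^B` is `0` for `B < i + j + l` and `q_l` for `B = i + j + l`. By induction on `i`, `j` in the form `P = c0 X^a Y^m + dY^(m+1) P1` as operators.
Model: the module for TTrf of `Helper14/TL7/StD.lean`. -/
def TTrf : Prop := ∀ (r s : ℕ),
  (∀ (c i j : ℕ) (f : Fin 3), c ≤ 5 → Lw (MoH c f.val * QoH ^ i * LoH ^ j : Module.End (ZMod 7) (Fn7 (7 ^ r) (7 ^ s))) (dgH c i j)) ∧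
  (∀ (c : ℕ) (f : Fin 3), c ≤ 5 → qOH c f.val (lwH c f.val) = 0 → (MoH c f.val : Module.End (ZMod 7) (Fn7 (7 ^ r) (7 ^ s))) = 0) ∧
  ∀ (c i j A B : ℕ) (f : Fin 3), c ≤ 5 → A < 7 ^ r → B < 7 ^ s → A + B = dgH c i j →
    (B < i + j + lwH c f.val → ((MoH c f.val * QoH ^ i * LoH ^ j : Module.End (ZMod 7) (Fn7 (7 ^ r) (7 ^ s))) (bb7 A B)) 0 0 = 0) ∧
    (B = i + j + lwH c f.val → ((MoH c f.val * QoH ^ i * LoH ^ j : Module.End (ZMod 7) (Fn7 (7 ^ r) (7 ^ s))) (bb7 A B)) 0 0 =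
      ((qOH c f.val (lwH c f.val) : ℤ) : ZMod 7))

/-- TRI (from LOW0, BB, LED, EX, ITR, TRF). Triangular system of symbols modulo 7. For `(c, i, j)` take LED, the symbol `G` of EX; `A = aaH c + i + 7j`, `B = abH c + i + j`, `d = A + B`, `s = i + j`. By ITR `evH G c' i' j' = 0` if `dgH c' i' j' > d`; let `dgH c' i' j' = d`, `s' = i' + j'`: terms of lower degree are killed (TRF (1)), so the value is
the sum over `f` of the values of TRF on `tpH c A B f`. Let `κ' = (c', i', j') ≠ κ = (c, i, j)` and `rhH κ' = abH c' + s' ≥ rhH κ = abH c + s`; `2 (s' - s) = nOH c - nOH c' + 6 (j - j')`. CLAIM: the value is zero, and for `κ' = κ` it is `1, 1, 1, 1, 1, 3` for `c = 0, ..., 5`. (`c' = 3` only with `c = 3`: parity; `c' = c` and `κ' ≠ κ`: `s' ≥ s + 3`.)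
`c = 0` (`F0 ≡ bb7 A B`, `B = s`) and `c = 2` (same): `c' = 0`: `s' > s` or `κ' = κ`; `c' = 1`: form zero on `F0`; `c' = 2`: `s' > s` or `κ' = κ`; `c' = 4, 5`: `s' + 2 > B` (`s' ≥ s - 1`). `c = 1` (`F1`, `B = s`): `c' = 0`: zero form; `c' = 1`; `c' = 2`: `s' > s`; `c' = 4`: `s' - s ≡ 1` modulo `3`, `≥ -1`, so `s' + 1 > s`; `c' = 5`: `s' - s ≡ 0`, so
`s' ≥ s`, `s' + 1 > s`. `c = 3` (`F2`): `c' = 3`. `c = 4` (`B = s + 1`; `F1 ≡ bb7 A B`, `F0 ≡ 2 bb7 A B + 3 bb7 (A+1) (B-1)`): `c' = 0, 1`: `s' - s ≡ 2`, `≥ 1`, so `s' ≥ s + 2 > B`; `c' = 2`: `s' - s ≡ 1`: for `s' = s + 1 = B` the value is `2 · 1 + 5 = 0` (`F0`: `q = 1`, `F1`: `q = 5`; `B - 1 < s'`), for `s' ≥ s + 4` zero; `c' = 4`: `κ' = κ`: `F1`: `1`,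
`F0`: `B < s + 2`: zero; `s' ≥ s + 3`: zero; `c' = 5`: `s' - s ≡ 2`, `≥ 0`: zero. `c = 5` (`B = s + 1`; `F1 ≡ bb7 A B`, `F0 ≡ -bb7 A B`): `c' = 0, 1`: `s' - s ≡ 0`, `≥ 1`: `s' > B`; `c' = 2`: `s' - s ≡ 2`, `s' > B`; `c' = 4`: `s' - s ≡ 1`: `s' + 1 > B`; `c' = 5`: `κ' = κ`: `3`; else `s' + 1 > B`. All congruences follow by `omega` from `dgH κ' = dgH κ`. -/
def TTri : Prop := ∀ (r s c i j : ℕ), c ≤ 5 → aeH c + i + 7 * j < 7 ^ r → abH c + i + j < 7 ^ s →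
  ∃ G : ℤ → ℤ → ZMod 7, SymH 7 r (s + 1) G ∧ evH (7 ^ r) G c i j ≠ 0 ∧
    ∀ c' i' j' : ℕ, c' ≤ 5 → evH (7 ^ r) G c' i' j' ≠ 0 →
      (dgH c' i' j' < dgH c i j ∨ (dgH c' i' j' = dgH c i j ∧
        (rhH c' i' j' < rhH c i j ∨ (rhH c' i' j' = rhH c i j ∧ c' = c))))

/-! ### Integral symbols and the lower bound -/

/-- LIFP (from TRM). Lifting solutions of the relation to integers. Take any integral lifts of `f`; the defect `E = DfH` of the lifts is divisible by 7 and has total sum zero over the plane (`p ↦ pη` etc. are bijections, TRM); `E/7` has total sum zero, and every integral function with sum zero is `DfH F` of some `F`: modulo such functions `δ_p ≡ δ_(pg)` for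
`g = δ` (from `F2`), `g = η` (from `F1`), `g = η T η⁻¹` (from `F0`: `F0∘η - F0∘ηT = b - b∘(ηTη⁻¹)` for `b = F0∘η`), so for all `g` in the group generated by these, which contains `T` and `B' = (1 0; 14 1) = δ⁻¹ η⁻¹ δ η T` (up to a scalar), and the plane is connected under `T` and `B'` (`(x,y) T^z = (x + z, y/(1 + 7zy))`,
`(x, y) B'^z = (x/(1 + 14zx), y + 2z)`, `2` is invertible: move to `(0, y')` and then to `(0,0)`). Subtract `7` times this `F`. Models: the module for TLifp of `Helper4/TH/StD.lean`, `Pool/Agent/Helper92/W5/M_Lifp.lean`, `Pool/Agent/Helper55/S7/M_Lifp.lean`. -/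
def TLifp : Prop := ∀ (r s : ℕ) (f : Fin 3 → Fn7 (7 ^ r) (7 ^ s)), RelH f →
  ∃ F : Fin 3 → ZMod (7 ^ r) → ZMod (7 ^ s) → ℤ, RelH F ∧
    ∀ i x y, ((F i x y : ℤ) : ZMod 7) = f i x y

/-- LIF (from REL, LIFP, EX, UNI). Lifting symbols: every symbol `g` modulo 7 lifts to an integral symbol `G` with the same `evH` modulo 7 (`evH` commutes with reduction and does not change for `EqC`). Model: LIF of `Helper4/TH/StD.lean`, `Pool/Agent/*/TL7/M_Lif.lean`. -/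
def TLif : Prop := ∀ (r s : ℕ) (g : ℤ → ℤ → ZMod 7), SymH 7 r (s + 1) g →
  ∃ G : ℤ → ℤ → ℤ, SymH 7 r (s + 1) G ∧
    ∀ c i j : ℕ, ((evH (7 ^ r) G c i j : ℤ) : ZMod 7) = evH (7 ^ r) g c i j

/-- UNB. Back to `Γ₀(2·7^n)` and to complex values (`Tl l 1 G0 (p,q) = Tl l (7^r) G (7^r p, q)`). Model: UNB of `Helper4/TH/StD.lean`, `Pool/Agent/*/TL7/M_Unb.lean`. -/
def TUnb : Prop := ∀ (r s : ℕ) (G : ℤ → ℤ → ℤ), SymH 7 r s G →
  SymH 7 0 (r + s) (fun p q => ((G (7 ^ r * p) q : ℤ) : ℂ)) ∧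
    ∀ c i j : ℕ, evH 1 (fun p q => ((G (7 ^ r * p) q : ℤ) : ℂ)) c i j = ((evH (7 ^ r) G c i j : ℤ) : ℂ)

/-- CNT. Counting the index sets: `DDE 4 ddH7 (2k) = 3t² + t`, `DDE 4 ddH7 (2k+1) = 21t² + 7t`, `t = 7^(k-1)` (`k ≥ 1`; induction: `4, 28, 154, 1078`). First set (`abH c + i + j < t`): the first condition follows from the second; `t(t+1)/2` for `c = 0, 1, 2, 3` and `t(t-1)/2` for `c = 4, 5`. Second set (`i + 7j < 7t - aeH c`): the second condition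
follows from the first (`abH c ≤ aeH c`); `∑_{j<t} (7t - 7j - e) = 7t(t+1)/2 - e t` for `e = 0, 0, 2, 3, 4, 5`. Model: `Pool/Agent/*/TL7/M_Cnt.lean`, `Helper36/S7/M_Cnt.lean`. -/
def TCnt : Prop :=
  (∀ k : ℕ, 1 ≤ k → ((Finset.range 6 ×ˢ Finset.range (7 ^ k) ×ˢ Finset.range (7 ^ k)).filter
    fun t : ℕ × ℕ × ℕ => aeH t.1 + t.2.1 + 7 * t.2.2 < 7 ^ k ∧ abH t.1 + t.2.1 + t.2.2 < 7 ^ (k - 1)).card = DDE 4 ddH7 (2 * k)) ∧
  (∀ k : ℕ, 1 ≤ k → ((Finset.range 6 ×ˢ Finset.range (7 ^ k) ×ˢ Finset.range (7 ^ k)).filter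
    fun t : ℕ × ℕ × ℕ => aeH t.1 + t.2.1 + 7 * t.2.2 < 7 ^ k ∧ abH t.1 + t.2.1 + t.2.2 < 7 ^ k).card = DDE 4 ddH7 (2 * k + 1))

/-- LB from TRI, LIF, UNB, CNT. As LBof of `Helper4/TH/StD.lean` and of `Helper14/TL7/StD.lean`: for `n = 2k` (`k ≥ 1`) use `(r,s) = (k,k-1)`, for `n = 2k+1` use `(r,s) = (k,k)`. The matrix `evH G_κ κ'` (`κ`, `κ'` in the index set of CNT) is integral and triangular modulo 7 for the lexicographic order `(dgH, rhH, c)`, which determines `κ`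
(for equal `dgH` and `rhH` the values vanish unless `c' = c`). The vectors `evLH 7 (G_κ)` are independent. Models: `Pool/Agent/Helper14/TL7/M_LBof.lean`, `Pool/Agent/Helper76/TL/Wo.lean`, `Pool/Agent/Helper76/TH/Wo.lean`. -/
def TLBof : Prop := TTri → TLif → TUnb → TCnt → LBH 7 4 ddH7

end Pool.Agent.Helper14.TH7
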